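import Mathlib
import Pool.Agent.R479.DA.Lim

/-!
# The Hausdorff dimension of limsup sets in a metric space
-/

set_option autoImplicit false

namespace Pool.Agent.Helper29S

open Filter Topology MeasureTheory Finset
open scoped ENNReal NNReal

/-- **Limsup sets** in a metric space; the argument is that of `Pool.Agent.R479.DA.dimH_limsup`. -/
theorem dimH_limsup' {X : Type} [MetricSpace X] [MeasurableSpace X] [BorelSpace X]
    {ι : Type} [Countable ι] (U : ι → Set X) (d : ι → ℝ) (hd : ∀ i, 0 < d i)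
    (hU : ∀ i, Metric.ediam (U i) ≤ ENNReal.ofReal (d i)) {D : ℝ} (hD : 0 < D)
    (hs : Summable fun i => d i ^ D) :
    dimH {x | {i | x ∈ U i}.Infinite} ≤ ENNReal.ofReal D := by
  have hDn : ((Real.toNNReal D : ℝ≥0) : ℝ) = D := Real.coe_toNNReal D hD.le
  have hgoal : ENNReal.ofReal D = ((Real.toNNReal D : ℝ≥0) : ℝ≥0∞) := rfl
  rw [hgoal]
  apply dimH_le_of_hausdorffMeasure_ne_top
  rw [hDn]
  -- the diameters tend to zero
  have hd0 : Tendsto d cofinite (𝓝 0) := by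
    have h1 := hs.tendsto_cofinite_zero
    have h2 : Tendsto (fun i => (d i ^ D) ^ (1 / D)) cofinite (𝓝 (0 ^ (1 / D))) :=
      h1.rpow_const (Or.inr (by positivity))
    rw [Real.zero_rpow (by positivity)] at h2
    refine h2.congr fun i => ?_
    rw [← Real.rpow_mul (hd i).le, mul_one_div_cancel hD.ne', Real.rpow_one]
  set r : Finset ι → ℝ≥0∞ := fun F => ⨆ i : {i // i ∉ F}, ENNReal.ofReal (d i) with hr
  have hrt : Tendsto r atTop (𝓝 0) := by
    rw [ENNReal.tendsto_nhds_zero]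
    intro ε hε
    have h1 := ENNReal.tendsto_ofReal hd0
    rw [ENNReal.ofReal_zero] at h1
    have h2 := h1.eventually (ge_mem_nhds hε)
    rw [Filter.eventually_cofinite] at h2
    filter_upwards [eventually_ge_atTop h2.toFinset] with F hF
    refine iSup_le fun i => ?_
    by_contra hcon
    apply i.2
    apply hF
    rw [Set.Finite.mem_toFinset]
    exact hcon
  have key := Measure.hausdorffMeasure_le_liminf_tsum (X := X) (β := Finset ι)
    (ι := fun F => {i // i ∉ F}) D {x | {i | x ∈ U i}.Infinite} (l := atTop) r hrt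
    (fun F i => U i)
    (Eventually.of_forall fun F i =>
      (hU i).trans (le_iSup (fun i : {i // i ∉ F} => ENNReal.ofReal (d i)) i))
    (Eventually.of_forall fun F x hx => by
      obtain ⟨i, hi, hiF⟩ := hx.exists_notMem_finset F
      rw [Set.mem_iUnion]
      exact ⟨⟨i, hiF⟩, hi⟩)
  refine ne_top_of_le_ne_top ?_ key
  have hnn : ∀ i, 0 ≤ d i ^ D := fun i => Real.rpow_nonneg (hd i).le _
  have htot : (∑' i, ENNReal.ofReal (d i ^ D)) ≠ ⊤ := by
    rw [← ENNReal.ofReal_tsum_of_nonneg hnn hs]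
    exact ENNReal.ofReal_ne_top
  have hbound : ∀ F : Finset ι, (∑' i : {i // i ∉ F}, Metric.ediam (U i) ^ D) ≤
      ∑' i, ENNReal.ofReal (d i ^ D) := by
    intro F
    calc (∑' i : {i // i ∉ F}, Metric.ediam (U i) ^ D)
        ≤ ∑' i : {i // i ∉ F}, ENNReal.ofReal (d i ^ D) := by
          apply ENNReal.tsum_le_tsum
          intro i
          rw [← ENNReal.ofReal_rpow_of_pos (hd i)]
          exact ENNReal.rpow_le_rpow (hU i) hD.le
      _ ≤ ∑' i, ENNReal.ofReal (d i ^ D) :=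
          ENNReal.tsum_comp_le_tsum_of_injective (f := fun i : {i // i ∉ F} => (i : ι))
            Subtype.val_injective (fun i => ENNReal.ofReal (d i ^ D))
  refine ne_top_of_le_ne_top htot ?_
  apply Filter.liminf_le_of_le
  · isBoundedDefault
  · intro b hb
    obtain ⟨n, hn⟩ := hb.exists
    exact hn.trans (hbound n)

lemma finite_of_card {α : Type} {S : Set α} {B : ℝ}
    (h : ∀ F : Finset α, (F : Set α) ⊆ S → (F.card : ℝ) ≤ B) :
    S.Finite ∧ (S.ncard : ℝ) ≤ B := by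
  have hfin : S.Finite := by
    by_contra hcon
    have hinf : S.Infinite := hcon
    obtain ⟨F, hF1, hF2⟩ := hinf.exists_subset_card_eq (⌊B⌋₊ + 1)
    have h1 := h F hF1
    rw [hF2] at h1
    have h2 := Nat.lt_floor_add_one B
    push_cast at h1
    linarith
  refine ⟨hfin, ?_⟩
  have h1 := h hfin.toFinset (by simp)
  rwa [← Set.ncard_eq_toFinset_card _ hfin] at h1

/-- the points approximated by the members of a thin countable family -/
theorem dim_family {X : Type} [MetricSpace X] {ι : Type} [Countable ι] (S : Set ι) (c : ι → X)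
    (h : ι → ℝ) (h1 : ∀ i, 1 ≤ h i) {s τ : ℝ} (hs : 0 ≤ s) (hτ : 0 < τ)
    (hcount : ∀ ε : ℝ, 0 < ε → ∃ C : ℝ, ∀ H : ℝ, 1 ≤ H → ∀ F : Finset ι,
      (∀ i ∈ F, h i ≤ H ∧ i ∈ S) → (F.card : ℝ) ≤ C * H ^ (s + ε)) :
    dimH {x : X | {i | i ∈ S ∧ dist x (c i) ≤ h i ^ (-τ)}.Infinite} ≤ ENNReal.ofReal (s / τ) := by
  borelize X
  apply ENNReal.le_of_forall_pos_le_add
  intro ε hε _
  have hε' : (0 : ℝ) < ε := by exact_mod_cast hε
  rw [← ENNReal.ofReal_coe_nnreal (p := ε), ← ENNReal.ofReal_add (by positivity) hε'.le]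
  set D : ℝ := s / τ + ε with hD
  have hD0 : 0 < D := by positivity
  have hDτ : D * τ = s + ε * τ := by
    rw [hD, add_mul, div_mul_cancel₀ _ hτ.ne']
  obtain ⟨C, hC⟩ := hcount (ε * τ / 2) (by positivity)
  set U : S → Set X := fun t => Metric.closedBall (c t.1) (h t.1 ^ (-τ)) with hU
  have hpos : ∀ t : S, (0 : ℝ) < h t.1 := fun t => lt_of_lt_of_le one_pos (h1 t.1)
  have key := dimH_limsup' U (fun t => 2 * h t.1 ^ (-τ)) (fun t => by
      have := hpos t
      positivity) (fun t => by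
        rw [hU]
        simp only
        refine (Metric.ediam_le (d := ENNReal.ofReal (2 * h t.1 ^ (-τ))) ?_)
        intro x hx y hy
        rw [edist_dist]
        apply ENNReal.ofReal_le_ofReal
        rw [Metric.mem_closedBall] at hx hy
        calc dist x y ≤ dist x (c t.1) + dist y (c t.1) := dist_triangle_right _ _ _
          _ ≤ 2 * h t.1 ^ (-τ) := by linarith) hD0 (by
      have h2 := Pool.Agent.R479.DA.summable_heights (ι := S) (fun t => h t.1)
        (fun t => h1 t.1) (s := s + ε * τ / 2) (p := D * τ) (C := C)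
        (by rw [hDτ]; nlinarith [mul_pos hε' hτ]) (by positivity) (by
          intro H hH
          apply finite_of_card
          intro F hF
          have h3 := hC H hH (F.map ⟨Subtype.val, Subtype.val_injective⟩) (by
            intro i hi
            rw [Finset.mem_map] at hi
            obtain ⟨t, ht, rfl⟩ := hi
            exact ⟨hF ht, t.2⟩)
          rwa [Finset.card_map] at h3)
      refine (h2.mul_left ((2 : ℝ) ^ D)).congr fun t => ?_
      have := hpos t
      rw [Real.mul_rpow (by norm_num) (by positivity), ← Real.rpow_mul this.le]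
      congr 2
      ring)
  refine le_trans (dimH_mono ?_) key
  intro x hx
  simp only [Set.mem_ofPred_eq] at hx ⊢
  have himg : (Subtype.val : S → ι) '' {t | x ∈ U t} =
      {i | i ∈ S ∧ dist x (c i) ≤ h i ^ (-τ)} := by
    ext i
    constructor
    · rintro ⟨u, hu, rfl⟩
      exact ⟨u.2, Metric.mem_closedBall.1 hu⟩
    · rintro ⟨hi, hix⟩
      exact ⟨⟨i, hi⟩, Metric.mem_closedBall.2 hix, rfl⟩
  rw [← himg] at hx
  exact fun hfin => hx (hfin.image _)

/-- **the general law**: `Bd κ i` is a property which becomes rarer as `κ` grows -/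
theorem law {X : Type} [MetricSpace X] {ι : Type} [Countable ι] (Bd : ℝ → ι → Prop) (c : ι → X)
    (h : ι → ℝ) (h1 : ∀ i, 1 ≤ h i) (hmono : ∀ {κ κ' : ℝ} {i : ι}, κ ≤ κ' → Bd κ' i → Bd κ i)
    (hsing : ∀ i, ∃ κ : ℝ, ¬ Bd κ i) {κ₀ : ℝ} (s : ℝ → ℝ) (hs : ∀ κ, κ₀ < κ → 0 ≤ s κ)
    (hs0 : Tendsto s atTop (𝓝 0))
    (hcount : ∀ κ : ℝ, κ₀ < κ → ∀ ε : ℝ, 0 < ε → ∃ C : ℝ, ∀ H : ℝ, 1 ≤ H → ∀ F : Finset ι,
      (∀ i ∈ F, h i ≤ H ∧ Bd κ i) → (F.card : ℝ) ≤ C * H ^ (s κ + ε)) :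
    (∃ E : Set X, dimH E = 0 ∧ ∀ x : X, x ∉ E → ∀ τ : ℝ, 0 < τ → ∃ κ : ℝ, 0 ≤ κ ∧ ∀ i : ι,
      dist x (c i) ≤ h i ^ (-τ) → ¬ Bd κ i) ∧
    (∀ κ τ : ℝ, κ₀ < κ → 0 < τ → ∃ E : Set X, dimH E ≤ ENNReal.ofReal (s κ / τ) ∧
      ∀ x : X, x ∉ E → {i : ι | dist x (c i) ≤ h i ^ (-τ) ∧ Bd κ i}.Finite) := by
  have part2 : ∀ κ τ : ℝ, κ₀ < κ → 0 < τ → ∃ E : Set X, dimH E ≤ ENNReal.ofReal (s κ / τ) ∧
      ∀ x : X, x ∉ E → {i : ι | dist x (c i) ≤ h i ^ (-τ) ∧ Bd κ i}.Finite := by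
    intro κ τ hκ hτ
    refine ⟨_, dim_family {i | Bd κ i} c h h1 (hs κ hκ) hτ (hcount κ hκ), ?_⟩
    intro x hx
    rw [Set.mem_ofPred_eq, Set.not_infinite] at hx
    refine hx.subset ?_
    rintro i ⟨h2, h3⟩
    exact ⟨h3, h2⟩
  refine ⟨?_, part2⟩
  have hκ : ∀ j : ℕ, κ₀ < |κ₀| + (j + 1 : ℝ) := by
    intro j
    have := le_abs_self κ₀
    have : (0 : ℝ) ≤ j := Nat.cast_nonneg j
    linarith
  have hτ : ∀ l : ℕ, (0 : ℝ) < 1 / ((l : ℝ) + 1) := fun l => by positivity
  choose E hE1 hE2 using fun (l j : ℕ) => part2 (|κ₀| + (j + 1 : ℝ)) (1 / ((l : ℝ) + 1)) (hκ j) (hτ l)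
  refine ⟨⋃ l, ⋂ j, E l j, ?_, ?_⟩
  · refine le_antisymm ?_ bot_le
    rw [dimH_iUnion]
    refine iSup_le fun l => ?_
    have hlim : Tendsto (fun j : ℕ => ENNReal.ofReal (s (|κ₀| + (j + 1 : ℝ)) / (1 / ((l : ℝ) + 1))))
        atTop (𝓝 0) := by
      rw [← ENNReal.ofReal_zero]
      apply ENNReal.tendsto_ofReal
      have h2 : Tendsto (fun j : ℕ => |κ₀| + ((j : ℝ) + 1)) atTop atTop :=
        tendsto_atTop_add_const_left _ _
          (tendsto_atTop_add_const_right _ _ tendsto_natCast_atTop_atTop)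
      have h3 := (hs0.comp h2).div_const (1 / ((l : ℝ) + 1))
      rw [zero_div] at h3
      exact h3
    exact ge_of_tendsto' hlim fun j => (dimH_mono (Set.iInter_subset _ j)).trans (hE1 l j)
  · intro x hx τ hτ0
    obtain ⟨l, hl⟩ := exists_nat_ge (1 / τ)
    have h2 : x ∉ ⋂ j, E l j := fun hcon => hx (Set.mem_iUnion.2 ⟨l, hcon⟩)
    rw [Set.mem_iInter] at h2
    push Not at h2
    obtain ⟨j, hj⟩ := h2
    have hfin := hE2 l j x hj
    choose κi hκi using hsing
    set κ : ℝ := |κ₀| + (j + 1 : ℝ) + ∑ i ∈ hfin.toFinset, |κi i| with hκdef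
    have hsum : 0 ≤ ∑ i ∈ hfin.toFinset, |κi i| := Finset.sum_nonneg fun i _ => abs_nonneg _
    have hj0 : (0 : ℝ) ≤ j := Nat.cast_nonneg j
    refine ⟨κ, by positivity, ?_⟩
    intro i hi hbad
    have hlτ : 1 / ((l : ℝ) + 1) ≤ τ := by
      rw [div_le_iff₀ (by positivity)]
      rw [div_le_iff₀ hτ0] at hl
      nlinarith
    have h3 : dist x (c i) ≤ h i ^ (-(1 / ((l : ℝ) + 1))) := by
      refine hi.trans (Real.rpow_le_rpow_of_exponent_le (h1 i) ?_)
      linarith
    have h4 : Bd (|κ₀| + (j + 1 : ℝ)) i := hmono (by linarith) hbad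
    have hmem : i ∈ hfin.toFinset := hfin.mem_toFinset.2 ⟨h3, h4⟩
    apply hκi i
    refine hmono ?_ hbad
    have h5 := Finset.single_le_sum (f := fun i => |κi i|) (fun i _ => abs_nonneg _) hmem
    have h6 := le_abs_self (κi i)
    have h7 := abs_nonneg κ₀
    linarith

end Pool.Agent.Helper29S
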