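import Mathlib
import Pool.Agent.W4.CF.Stms

/-!
# An order of small discriminant containing a root of `x³ - a x - b`, the local computations

For a twist-reduced pair `(a, b)` with `D = 4a³ - 27b² ≠ 0` there are integers `i ≥ 1` and `t` such
that `i²` divides `t³ - a t - b`, `i` divides `3t² - a`, and `|D| ≤ 2⁵ 3⁷ i² r²`, where `r` is the
product of the primes `p ≥ 5` dividing `D`.
-/

set_option autoImplicit false

namespace Pool.Agent.Helper29S

open Finset Pool.Agent.W4.CF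

/-- the discriminant -/
def Dsc (a b : ℤ) : ℤ := 4 * a ^ 3 - 27 * b ^ 2

/-- no quadratic twist by a prime is smaller -/
def Red (a b : ℤ) : Prop := ∀ p : ℕ, p.Prime → (p : ℤ) ^ 2 ∣ a → (p : ℤ) ^ 3 ∣ b → False

/-- the value at `t` -/
def F0 (a b t : ℤ) : ℤ := t ^ 3 - a * t - b

/-- the derivative at `t` -/
def F1 (a t : ℤ) : ℤ := 3 * t ^ 2 - a

/-- the condition for the larger order -/
def Okk (a b i t : ℤ) : Prop := i ^ 2 ∣ F0 a b t ∧ i ∣ F1 a t

lemma okk_one (a b t : ℤ) : Okk a b 1 t := ⟨by simp, one_dvd _⟩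

lemma okk_mul {a b i i' t t' : ℤ} (h : Okk a b i t) (h' : Okk a b i' t') (hc : IsCoprime i i') :
    ∃ s : ℤ, Okk a b (i * i') s := by
  obtain ⟨x, y, hxy⟩ : IsCoprime (i ^ 2) (i' ^ 2) := hc.pow
  refine ⟨t * (y * i' ^ 2) + t' * (x * i ^ 2), ?_, ?_⟩
  · rw [mul_pow]
    apply IsCoprime.mul_dvd ⟨x, y, hxy⟩
    · have h1 : i ^ 2 ∣ (t * (y * i' ^ 2) + t' * (x * i ^ 2)) - t := by
        refine ⟨(t' - t) * x, ?_⟩
        linear_combination t * hxy
      have h2 : F0 a b (t * (y * i' ^ 2) + t' * (x * i ^ 2)) = F0 a b t +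
          ((t * (y * i' ^ 2) + t' * (x * i ^ 2)) - t) *
            ((t * (y * i' ^ 2) + t' * (x * i ^ 2)) ^ 2 +
              (t * (y * i' ^ 2) + t' * (x * i ^ 2)) * t + t ^ 2 - a) := by
        unfold F0; ring
      rw [h2]
      exact dvd_add h.1 (h1.mul_right _)
    · have h1 : i' ^ 2 ∣ (t * (y * i' ^ 2) + t' * (x * i ^ 2)) - t' := by
        refine ⟨(t - t') * y, ?_⟩
        linear_combination t' * hxy
      have h2 : F0 a b (t * (y * i' ^ 2) + t' * (x * i ^ 2)) = F0 a b t' +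
          ((t * (y * i' ^ 2) + t' * (x * i ^ 2)) - t') *
            ((t * (y * i' ^ 2) + t' * (x * i ^ 2)) ^ 2 +
              (t * (y * i' ^ 2) + t' * (x * i ^ 2)) * t' + t' ^ 2 - a) := by
        unfold F0; ring
      rw [h2]
      exact dvd_add h'.1 (h1.mul_right _)
  · apply IsCoprime.mul_dvd hc
    · have h1 : i ∣ (t * (y * i' ^ 2) + t' * (x * i ^ 2)) - t := by
        refine ⟨i * ((t' - t) * x), ?_⟩
        linear_combination t * hxy
      have h2 : F1 a (t * (y * i' ^ 2) + t' * (x * i ^ 2)) = F1 a t +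
          ((t * (y * i' ^ 2) + t' * (x * i ^ 2)) - t) *
            (3 * ((t * (y * i' ^ 2) + t' * (x * i ^ 2)) + t)) := by
        unfold F1; ring
      rw [h2]
      exact dvd_add h.2 (h1.mul_right _)
    · have h1 : i' ∣ (t * (y * i' ^ 2) + t' * (x * i ^ 2)) - t' := by
        refine ⟨i' * ((t - t') * y), ?_⟩
        linear_combination t' * hxy
      have h2 : F1 a (t * (y * i' ^ 2) + t' * (x * i ^ 2)) = F1 a t' +
          ((t * (y * i' ^ 2) + t' * (x * i ^ 2)) - t') *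
            (3 * ((t * (y * i' ^ 2) + t' * (x * i ^ 2)) + t')) := by
        unfold F1; ring
      rw [h2]
      exact dvd_add h'.2 (h1.mul_right _)

lemma cop_pow {p : ℕ} (hp : p.Prime) {c : ℤ} (hc : ¬ (p : ℤ) ∣ c) (m : ℕ) :
    IsCoprime c ((p : ℤ) ^ m) := by
  have hp' : Prime (p : ℤ) := Nat.prime_iff_prime_int.mp hp
  exact ((hp'.irreducible.coprime_iff_not_dvd.2 hc).symm).pow_right

lemma solve {p : ℕ} (hp : p.Prime) {c : ℤ} (hc : ¬ (p : ℤ) ∣ c) (e : ℤ) (m : ℕ) :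
    ∃ t : ℤ, (p : ℤ) ^ m ∣ c * t + e := by
  obtain ⟨x, y, hxy⟩ := cop_pow hp hc m
  exact ⟨-(e * x), e * y, by linear_combination (-e) * hxy⟩

/-- `p ^ m` divides the value and the derivative: then `k = m / 2` will do -/
lemma okk_half {a b t : ℤ} {p m : ℕ} (h0 : (p : ℤ) ^ m ∣ F0 a b t) (h1 : (p : ℤ) ^ m ∣ F1 a t) :
    Okk a b ((p : ℤ) ^ (m / 2)) t := by
  constructor
  · rw [← pow_mul]
    exact (pow_dvd_pow _ (by omega)).trans h0
  · exact (pow_dvd_pow _ (by omega)).trans h1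

lemma dsc_int {a b t s c : ℤ} (hs : c * t + 3 * b = s) (hc : c = 2 * a) :
    8 * a ^ 3 * F0 a b t = s ^ 3 - 9 * b * s ^ 2 - Dsc a b * s + b * Dsc a b ∧
    4 * a ^ 2 * F1 a t = 3 * s ^ 2 - 18 * b * s - Dsc a b := by
  subst hc
  subst hs
  unfold F0 F1 Dsc
  constructor <;> ring

/-- the primes `p ≥ 5` -/
lemma loc5 {a b : ℤ} (hR : Red a b) {p : ℕ} (hp : p.Prime) (hp5 : 5 ≤ p) {v : ℕ}
    (hv : (p : ℤ) ^ v ∣ Dsc a b) (hv' : ¬ (p : ℤ) ^ (v + 1) ∣ Dsc a b) :
    ∃ (k : ℕ) (t : ℤ), Okk a b ((p : ℤ) ^ k) t ∧ v ≤ 2 * k + 2 := by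
  have hp' : Prime (p : ℤ) := Nat.prime_iff_prime_int.mp hp
  have hn : ∀ c : ℕ, c < 5 → 0 < c → ¬ (p : ℤ) ∣ c := by
    intro c hc hc0 h
    have := Nat.le_of_dvd hc0 (Int.natCast_dvd_natCast.1 h)
    omega
  have h2 : ¬ (p : ℤ) ∣ 2 := hn 2 (by norm_num) (by norm_num)
  have h3 : ¬ (p : ℤ) ∣ 3 := hn 3 (by norm_num) (by norm_num)
  by_cases ha : (p : ℤ) ∣ a
  · by_cases hb : (p : ℤ) ∣ b
    · obtain ⟨a1, rfl⟩ := ha
      obtain ⟨b1, rfl⟩ := hb
      by_cases hb2 : (p : ℤ) ∣ b1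
      · obtain ⟨b2, rfl⟩ := hb2
        refine ⟨1, 0, ⟨?_, ?_⟩, ?_⟩
        · exact ⟨-b2, by unfold F0; ring⟩
        · exact ⟨-a1, by unfold F1; ring⟩
        · by_contra hcon
          push Not at hcon
          have h5 : (p : ℤ) ^ 5 ∣ Dsc (p * a1) (p * (p * b2)) :=
            (pow_dvd_pow _ (by omega)).trans hv
          have e : Dsc (p * a1) (p * (p * b2)) = (p : ℤ) ^ 3 * (4 * a1 ^ 3 - 27 * p * b2 ^ 2) := by
            unfold Dsc; ring
          rw [e, show (p : ℤ) ^ 5 = (p : ℤ) ^ 3 * (p : ℤ) ^ 2 by ring] at h5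
          have h6 := (mul_dvd_mul_iff_left (pow_ne_zero 3 hp'.ne_zero)).1 h5
          have h7 : (p : ℤ) ∣ 4 * a1 ^ 3 := by
            have h8 : (p : ℤ) ∣ 4 * a1 ^ 3 - 27 * p * b2 ^ 2 :=
              (dvd_pow_self _ (by norm_num)).trans h6
            have h9 : (p : ℤ) ∣ 27 * p * b2 ^ 2 := ⟨27 * b2 ^ 2, by ring⟩
            have := dvd_add h8 h9
            simpa using this
          have h8 : (p : ℤ) ∣ a1 := by
            rcases hp'.dvd_or_dvd h7 with h | h
            · exact absurd h (hn 4 (by norm_num) (by norm_num))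
            · exact hp'.dvd_of_dvd_pow h
          obtain ⟨a2, rfl⟩ := h8
          have h9 : (p : ℤ) ^ 2 ∣ (p : ℤ) * (4 * p ^ 2 * a2 ^ 3 - 27 * b2 ^ 2) := by
            have e2 : (p : ℤ) * (4 * p ^ 2 * a2 ^ 3 - 27 * b2 ^ 2) =
                4 * (p * a2) ^ 3 - 27 * p * b2 ^ 2 := by ring
            rw [e2]; exact h6
          rw [pow_two] at h9
          have h10 := (mul_dvd_mul_iff_left hp'.ne_zero).1 h9
          have h11 : (p : ℤ) ∣ 27 * b2 ^ 2 := by
            have h12 : (p : ℤ) ∣ 4 * (p * p) * a2 ^ 3 := ⟨4 * p * a2 ^ 3, by ring⟩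
            have h13 := dvd_sub h12 h10
            have e3 : 4 * ((p : ℤ) * p) * a2 ^ 3 - (4 * (p * p) * a2 ^ 3 - 27 * b2 ^ 2) =
                27 * b2 ^ 2 := by ring
            rw [e3] at h13
            exact h13
          have h12 : (p : ℤ) ∣ b2 := by
            rcases hp'.dvd_or_dvd h11 with h | h
            · exact absurd (hp'.dvd_of_dvd_pow (show (p : ℤ) ∣ 3 ^ 3 by norm_num; exact h)) h3
            · exact hp'.dvd_of_dvd_pow h
          obtain ⟨b3, rfl⟩ := h12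
          exact hR p hp ⟨a2, by ring⟩ ⟨b3, by ring⟩
      · refine ⟨0, 0, by rw [pow_zero]; exact okk_one _ _ _, ?_⟩
        by_contra hcon
        push Not at hcon
        have h5 : (p : ℤ) ^ 3 ∣ Dsc (p * a1) (p * b1) :=
          (pow_dvd_pow _ (by omega)).trans hv
        have e : Dsc (p * a1) (p * b1) = (p : ℤ) ^ 2 * (4 * p * a1 ^ 3 - 27 * b1 ^ 2) := by
          unfold Dsc; ring
        rw [e, show (p : ℤ) ^ 3 = (p : ℤ) ^ 2 * p by ring] at h5
        have h6 := (mul_dvd_mul_iff_left (pow_ne_zero 2 hp'.ne_zero)).1 h5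
        have h11 : (p : ℤ) ∣ 27 * b1 ^ 2 := by
          have h12 : (p : ℤ) ∣ 4 * p * a1 ^ 3 := ⟨4 * a1 ^ 3, by ring⟩
          have := dvd_sub h12 h6
          simpa using this
        rcases hp'.dvd_or_dvd h11 with h | h
        · exact h3 (hp'.dvd_of_dvd_pow (show (p : ℤ) ∣ 3 ^ 3 by norm_num; exact h))
        · exact hb2 (hp'.dvd_of_dvd_pow h)
    · refine ⟨0, 0, by rw [pow_zero]; exact okk_one _ _ _, ?_⟩
      by_contra hcon
      push Not at hcon
      have h5 : (p : ℤ) ∣ Dsc a b := (dvd_pow_self _ (by omega)).trans hv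
      obtain ⟨a1, rfl⟩ := ha
      have h11 : (p : ℤ) ∣ 27 * b ^ 2 := by
        have h12 : (p : ℤ) ∣ 4 * (p * a1) ^ 3 := ⟨4 * p ^ 2 * a1 ^ 3, by ring⟩
        have := dvd_sub h12 h5
        simpa [Dsc] using this
      rcases hp'.dvd_or_dvd h11 with h | h
      · exact h3 (hp'.dvd_of_dvd_pow (show (p : ℤ) ∣ 3 ^ 3 by norm_num; exact h))
      · exact hb (hp'.dvd_of_dvd_pow h)
  · have h2a : ¬ (p : ℤ) ∣ 2 * a := by
      intro h
      rcases hp'.dvd_or_dvd h with h | h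
      · exact h2 h
      · exact ha h
    obtain ⟨t, ht⟩ := solve hp h2a (3 * b) v
    obtain ⟨e0, e1⟩ := dsc_int (a := a) (b := b) (t := t) rfl rfl
    set s := 2 * a * t + 3 * b with hs
    have f0 : (p : ℤ) ^ v ∣ F0 a b t := by
      have g : (p : ℤ) ^ v ∣ 8 * a ^ 3 * F0 a b t := by
        rw [e0]
        refine dvd_add (dvd_sub (dvd_sub ?_ ?_) ?_) ?_
        · exact ht.trans (dvd_pow_self s (by norm_num))
        · exact (ht.trans (dvd_pow_self s (by norm_num))).mul_left _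
        · exact ht.mul_left _
        · exact hv.mul_left _
      refine IsCoprime.dvd_of_dvd_mul_left (cop_pow hp ?_ v).symm g
      intro h
      have : (p : ℤ) ∣ (2 * a) ^ 3 := by
        have e : (2 * a) ^ 3 = 8 * a ^ 3 := by ring
        rw [e]; exact h
      exact h2a (hp'.dvd_of_dvd_pow this)
    have f1 : (p : ℤ) ^ v ∣ F1 a t := by
      have g : (p : ℤ) ^ v ∣ 4 * a ^ 2 * F1 a t := by
        rw [e1]
        refine dvd_sub (dvd_sub ?_ ?_) ?_
        · exact (ht.trans (dvd_pow_self s (by norm_num))).mul_left _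
        · exact ht.mul_left _
        · exact hv
      refine IsCoprime.dvd_of_dvd_mul_left (cop_pow hp ?_ v).symm g
      intro h
      have : (p : ℤ) ∣ (2 * a) ^ 2 := by
        have e : (2 * a) ^ 2 = 4 * a ^ 2 := by ring
        rw [e]; exact h
      exact h2a (hp'.dvd_of_dvd_pow this)
    exact ⟨v / 2, t, okk_half f0 f1, by omega⟩

/-- the prime `2` -/
lemma loc2 {a b : ℤ} (hR : Red a b) {v : ℕ}
    (hv : (2 : ℤ) ^ v ∣ Dsc a b) :
    ∃ (k : ℕ) (t : ℤ), Okk a b ((2 : ℤ) ^ k) t ∧ v ≤ 2 * k + 5 := by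
  by_cases hv5 : v ≤ 5
  · exact ⟨0, 0, by rw [pow_zero]; exact okk_one _ _ _, by omega⟩
  push Not at hv5
  have h64 : (64 : ℤ) ∣ Dsc a b := by
    have h1 : (2 : ℤ) ^ 6 ∣ Dsc a b := (pow_dvd_pow _ (by omega)).trans hv
    norm_num at h1
    exact h1
  have hbe : (2 : ℤ) ∣ b := by
    unfold Dsc at h64
    have h1 : (2 : ℤ) ∣ 27 * b ^ 2 := by omega
    rcases Int.prime_two.dvd_or_dvd h1 with h | h
    · norm_num at h
    · exact Int.prime_two.dvd_of_dvd_pow h
  obtain ⟨b1, rfl⟩ := hbe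
  by_cases ha : (2 : ℤ) ∣ a
  · exfalso
    obtain ⟨a1, rfl⟩ := ha
    have e : Dsc (2 * a1) (2 * b1) = 4 * (8 * a1 ^ 3 - 27 * b1 ^ 2) := by unfold Dsc; ring
    rw [e] at h64
    have h1 : (2 : ℤ) ∣ b1 := by
      have h2 : (2 : ℤ) ∣ 27 * b1 ^ 2 := by omega
      rcases Int.prime_two.dvd_or_dvd h2 with h | h
      · norm_num at h
      · exact Int.prime_two.dvd_of_dvd_pow h
    obtain ⟨b2, rfl⟩ := h1
    have e2 : 4 * (8 * a1 ^ 3 - 27 * (2 * b2) ^ 2) = 16 * (2 * a1 ^ 3 - 27 * b2 ^ 2) := by ring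
    rw [e2] at h64
    have h2 : (2 : ℤ) ∣ b2 := by
      have h2 : (2 : ℤ) ∣ 27 * b2 ^ 2 := by omega
      rcases Int.prime_two.dvd_or_dvd h2 with h | h
      · norm_num at h
      · exact Int.prime_two.dvd_of_dvd_pow h
    obtain ⟨b3, rfl⟩ := h2
    have e3 : 16 * (2 * a1 ^ 3 - 27 * (2 * b3) ^ 2) = 32 * (a1 ^ 3 - 54 * b3 ^ 2) := by ring
    rw [e3] at h64
    have h3 : (2 : ℤ) ∣ a1 := by
      have h3 : (2 : ℤ) ∣ a1 ^ 3 := by omega
      exact Int.prime_two.dvd_of_dvd_pow h3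
    obtain ⟨a2, rfl⟩ := h3
    exact hR 2 Nat.prime_two ⟨a2, by push_cast; ring⟩ ⟨b3, by push_cast; ring⟩
  · obtain ⟨m, rfl⟩ : ∃ m, v = m + 2 := ⟨v - 2, by omega⟩
    have hm : (2 : ℤ) ^ m ∣ a ^ 3 - 27 * b1 ^ 2 := by
      have e : Dsc a (2 * b1) = (a ^ 3 - 27 * b1 ^ 2) * 2 ^ 2 := by unfold Dsc; ring
      rw [e, pow_add] at hv
      exact (mul_dvd_mul_iff_right (by norm_num)).1 hv
    obtain ⟨t, ht⟩ := solve Nat.prime_two (c := a) (by exact_mod_cast ha) (3 * b1) m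
    push_cast at ht
    set s := a * t + 3 * b1 with hs
    have e0 : a ^ 3 * F0 a (2 * b1) t = s ^ 3 - 9 * b1 * s ^ 2 - (a ^ 3 - 27 * b1 ^ 2) * s +
        b1 * (a ^ 3 - 27 * b1 ^ 2) := by
      rw [hs]; unfold F0; ring
    have e1 : a ^ 2 * F1 a t = 3 * s ^ 2 - 18 * b1 * s - (a ^ 3 - 27 * b1 ^ 2) := by
      rw [hs]; unfold F1; ring
    have hcop : ∀ j : ℕ, ¬ (((2 : ℕ) : ℤ)) ∣ a ^ j := by
      intro j h
      exact ha (by
        have := Int.prime_two.dvd_of_dvd_pow (show (2 : ℤ) ∣ a ^ j by exact_mod_cast h)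
        exact this)
    have f0 : (2 : ℤ) ^ m ∣ F0 a (2 * b1) t := by
      have g : (2 : ℤ) ^ m ∣ a ^ 3 * F0 a (2 * b1) t := by
        rw [e0]
        refine dvd_add (dvd_sub (dvd_sub ?_ ?_) ?_) ?_
        · exact ht.trans (dvd_pow_self s (by norm_num))
        · exact (ht.trans (dvd_pow_self s (by norm_num))).mul_left _
        · exact ht.mul_left _
        · exact hm.mul_left _
      have := (cop_pow Nat.prime_two (hcop 3) m).symm
      push_cast at this
      exact this.dvd_of_dvd_mul_left g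
    have f1 : (2 : ℤ) ^ m ∣ F1 a t := by
      have g : (2 : ℤ) ^ m ∣ a ^ 2 * F1 a t := by
        rw [e1]
        refine dvd_sub (dvd_sub ?_ ?_) ?_
        · exact (ht.trans (dvd_pow_self s (by norm_num))).mul_left _
        · exact ht.mul_left _
        · exact hm
      have := (cop_pow Nat.prime_two (hcop 2) m).symm
      push_cast at this
      exact this.dvd_of_dvd_mul_left g
    refine ⟨m / 2, t, ?_, by omega⟩
    have := okk_half (p := 2) (by exact_mod_cast f0) (by exact_mod_cast f1)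
    exact_mod_cast this

/-- the prime `3` -/
lemma loc3 {a b : ℤ} (hR : Red a b) {v : ℕ}
    (hv : (3 : ℤ) ^ v ∣ Dsc a b) :
    ∃ (k : ℕ) (t : ℤ), Okk a b ((3 : ℤ) ^ k) t ∧ v ≤ 2 * k + 7 := by
  by_cases hv5 : v ≤ 7
  · exact ⟨0, 0, by rw [pow_zero]; exact okk_one _ _ _, by omega⟩
  push Not at hv5
  have h8 : (6561 : ℤ) ∣ Dsc a b := by
    have h1 : (3 : ℤ) ^ 8 ∣ Dsc a b := (pow_dvd_pow _ (by omega)).trans hv
    norm_num at h1
    exact h1
  have ha : (3 : ℤ) ∣ a := by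
    unfold Dsc at h8
    have h1 : (3 : ℤ) ∣ a ^ 3 := by omega
    exact Int.prime_three.dvd_of_dvd_pow h1
  obtain ⟨a1, rfl⟩ := ha
  have e : Dsc (3 * a1) b = 27 * (4 * a1 ^ 3 - b ^ 2) := by unfold Dsc; ring
  by_cases ha1 : (3 : ℤ) ∣ a1
  · exfalso
    obtain ⟨a2, rfl⟩ := ha1
    rw [e] at h8
    have h1 : (3 : ℤ) ∣ b := by
      have h2 : (3 : ℤ) ∣ b ^ 2 := by
        have : (4 * (3 * a2) ^ 3 : ℤ) = 108 * a2 ^ 3 := by ring
        omega
      exact Int.prime_three.dvd_of_dvd_pow h2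
    obtain ⟨b1, rfl⟩ := h1
    have e2 : 27 * (4 * (3 * a2) ^ 3 - (3 * b1) ^ 2) = 243 * (12 * a2 ^ 3 - b1 ^ 2) := by ring
    rw [e2] at h8
    have h1 : (3 : ℤ) ∣ b1 := by
      have h2 : (3 : ℤ) ∣ b1 ^ 2 := by omega
      exact Int.prime_three.dvd_of_dvd_pow h2
    obtain ⟨b2, rfl⟩ := h1
    have e3 : 243 * (12 * a2 ^ 3 - (3 * b2) ^ 2) = 729 * (4 * a2 ^ 3 - 3 * b2 ^ 2) := by ring
    rw [e3] at h8
    have h2 : (3 : ℤ) ∣ a2 := by
      have h2 : (3 : ℤ) ∣ a2 ^ 3 := by omega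
      exact Int.prime_three.dvd_of_dvd_pow h2
    obtain ⟨a3, rfl⟩ := h2
    have e4 : 729 * (4 * (3 * a3) ^ 3 - 3 * b2 ^ 2) = 2187 * (36 * a3 ^ 3 - b2 ^ 2) := by ring
    rw [e4] at h8
    have h1 : (3 : ℤ) ∣ b2 := by
      have h2 : (3 : ℤ) ∣ b2 ^ 2 := by omega
      exact Int.prime_three.dvd_of_dvd_pow h2
    obtain ⟨b3, rfl⟩ := h1
    exact hR 3 Nat.prime_three ⟨3 * a3, by push_cast; ring⟩ ⟨b3, by push_cast; ring⟩
  · obtain ⟨m, rfl⟩ : ∃ m, v = m + 3 := ⟨v - 3, by omega⟩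
    have hm : (3 : ℤ) ^ m ∣ 4 * a1 ^ 3 - b ^ 2 := by
      rw [e, pow_add, mul_comm (27 : ℤ)] at hv
      norm_num at hv
      exact (mul_dvd_mul_iff_right (by norm_num)).1 hv
    have h2a : ¬ (3 : ℤ) ∣ 2 * a1 := by
      intro h
      rcases Int.prime_three.dvd_or_dvd h with h | h
      · norm_num at h
      · exact ha1 h
    obtain ⟨t, ht⟩ := solve Nat.prime_three (c := 2 * a1) (by exact_mod_cast h2a) b m
    push_cast at ht
    set s := 2 * a1 * t + b with hs
    have e0 : (2 * a1) ^ 3 * F0 (3 * a1) b t = s ^ 3 - 3 * b * s ^ 2 -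
        3 * (4 * a1 ^ 3 - b ^ 2) * s + b * (4 * a1 ^ 3 - b ^ 2) := by
      rw [hs]; unfold F0; ring
    have e1 : (2 * a1) ^ 2 * F1 (3 * a1) t = 3 * s ^ 2 - 6 * b * s - 3 * (4 * a1 ^ 3 - b ^ 2) := by
      rw [hs]; unfold F1; ring
    have hcop : ∀ j : ℕ, ¬ (((3 : ℕ) : ℤ)) ∣ (2 * a1) ^ j := by
      intro j h
      exact h2a (Int.prime_three.dvd_of_dvd_pow
        (show (3 : ℤ) ∣ (2 * a1) ^ j by exact_mod_cast h))
    have f0 : (3 : ℤ) ^ m ∣ F0 (3 * a1) b t := by
      have g : (3 : ℤ) ^ m ∣ (2 * a1) ^ 3 * F0 (3 * a1) b t := by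
        rw [e0]
        refine dvd_add (dvd_sub (dvd_sub ?_ ?_) ?_) ?_
        · exact ht.trans (dvd_pow_self s (by norm_num))
        · exact (ht.trans (dvd_pow_self s (by norm_num))).mul_left _
        · exact ht.mul_left _
        · exact hm.mul_left _
      have := (cop_pow Nat.prime_three (hcop 3) m).symm
      push_cast at this
      exact this.dvd_of_dvd_mul_left g
    have f1 : (3 : ℤ) ^ m ∣ F1 (3 * a1) t := by
      have g : (3 : ℤ) ^ m ∣ (2 * a1) ^ 2 * F1 (3 * a1) t := by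
        rw [e1]
        refine dvd_sub (dvd_sub ?_ ?_) ?_
        · exact (ht.trans (dvd_pow_self s (by norm_num))).mul_left _
        · exact ht.mul_left _
        · exact hm.mul_left _
      have := (cop_pow Nat.prime_three (hcop 2) m).symm
      push_cast at this
      exact this.dvd_of_dvd_mul_left g
    refine ⟨m / 2, t, ?_, by omega⟩
    have := okk_half (p := 3) (by exact_mod_cast f0) (by exact_mod_cast f1)
    exact_mod_cast this

/-- the exponents allowed at the prime `p` -/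
def cex (p : ℕ) : ℕ := if p = 2 then 5 else if p = 3 then 7 else 2

lemma loc {a b : ℤ} (hR : Red a b) {p : ℕ} (hp : p.Prime) {v : ℕ}
    (hv : (p : ℤ) ^ v ∣ Dsc a b) (hv' : ¬ (p : ℤ) ^ (v + 1) ∣ Dsc a b) :
    ∃ (k : ℕ) (t : ℤ), Okk a b ((p : ℤ) ^ k) t ∧ v ≤ 2 * k + cex p := by
  unfold cex
  by_cases h2 : p = 2
  · subst h2
    simpa using loc2 hR (by simpa using hv)
  rw [if_neg h2]
  by_cases h3 : p = 3
  · subst h3
    simpa using loc3 hR (by simpa using hv)
  rw [if_neg h3]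
  have hp4 : p ≠ 4 := by
    rintro rfl
    exact absurd hp (by norm_num)
  have := hp.two_le
  exact loc5 hR hp (by omega) hv hv'

/-- the global statement -/
theorem glob {a b : ℤ} (hR : Red a b) (hD : Dsc a b ≠ 0) :
    ∃ (i : ℕ) (t : ℤ), 1 ≤ i ∧ Okk a b i t ∧
      (Dsc a b).natAbs ≤ 69984 * (i * radp 6 (Dsc a b).natAbs) ^ 2 := by
  classical
  set n := (Dsc a b).natAbs with hn
  have hn0 : n ≠ 0 := Int.natAbs_ne_zero.2 hD
  have key : ∀ p : ℕ, ∃ k : ℕ, p.Prime → ∃ t : ℤ, Okk a b ((p : ℤ) ^ k) t ∧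
      n.factorization p ≤ 2 * k + cex p := by
    intro p
    by_cases hp : p.Prime
    · have h1 : (p : ℤ) ^ n.factorization p ∣ Dsc a b := by
        have h2 : p ^ n.factorization p ∣ n := Nat.ordProj_dvd n p
        have h3 : ((p ^ n.factorization p : ℕ) : ℤ) ∣ (n : ℤ) := Int.natCast_dvd_natCast.2 h2
        rw [hn, Int.dvd_natAbs] at h3
        rw [← hn] at h3
        exact_mod_cast h3
      have h2 : ¬ (p : ℤ) ^ (n.factorization p + 1) ∣ Dsc a b := by
        intro h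
        have h3 : ((p ^ (n.factorization p + 1) : ℕ) : ℤ) ∣ Dsc a b := by exact_mod_cast h
        rw [Int.natCast_dvd] at h3
        exact Nat.pow_succ_factorization_not_dvd hn0 hp h3
      obtain ⟨k, t, h3, h4⟩ := loc hR hp h1 h2
      exact ⟨k, fun _ => ⟨t, h3, h4⟩⟩
    · exact ⟨0, fun h => absurd h hp⟩
  choose k hk using key
  have hprod : ∀ T : Finset ℕ, (∀ p ∈ T, p.Prime) →
      ∃ t : ℤ, Okk a b (∏ p ∈ T, (p : ℤ) ^ k p) t := by
    intro T
    induction T using Finset.induction_on with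
    | empty => intro _; exact ⟨0, by rw [Finset.prod_empty]; exact okk_one _ _ _⟩
    | insert q T hq ih =>
      intro hT
      obtain ⟨t, ht⟩ := ih fun p hp => hT p (Finset.mem_insert_of_mem hp)
      obtain ⟨t', ht', -⟩ := hk q (hT q (Finset.mem_insert_self q T))
      rw [Finset.prod_insert hq]
      apply okk_mul ht' ht
      apply IsCoprime.prod_right
      intro p hp
      apply IsCoprime.pow
      rw [Int.isCoprime_iff_gcd_eq_one, Int.gcd_natCast_natCast]
      refine (Nat.coprime_primes (hT q (Finset.mem_insert_self q T))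
        (hT p (Finset.mem_insert_of_mem hp))).2 ?_
      rintro rfl
      exact hq hp
  have hpr : ∀ p ∈ n.primeFactors, p.Prime := fun p hp => Nat.prime_of_mem_primeFactors hp
  obtain ⟨t, ht⟩ := hprod n.primeFactors hpr
  refine ⟨∏ p ∈ n.primeFactors, p ^ k p, t, ?_, ?_, ?_⟩
  · exact Finset.prod_pos fun p hp => pow_pos (hpr p hp).pos _
  · push_cast; exact ht
  · have h1 : n = ∏ p ∈ n.primeFactors, p ^ n.factorization p :=
      (Nat.prod_factorization_pow_eq_self hn0).symm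
    have h2 : ∏ p ∈ n.primeFactors, p ^ n.factorization p ≤
        ∏ p ∈ n.primeFactors, p ^ (2 * k p + cex p) :=
      Finset.prod_le_prod' fun p hp =>
        Nat.pow_le_pow_right (hpr p hp).pos (hk p (hpr p hp)).choose_spec.2
    have h3 : ∏ p ∈ n.primeFactors, p ^ (2 * k p + cex p) =
        (∏ p ∈ n.primeFactors, p ^ k p) ^ 2 * ∏ p ∈ n.primeFactors, p ^ cex p := by
      rw [← Finset.prod_pow, ← Finset.prod_mul_distrib]
      exact Finset.prod_congr rfl fun p _ => by ring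
    have h4 : ∏ p ∈ n.primeFactors, p ^ cex p ≤ 69984 * (radp 6 n) ^ 2 := by
      rw [← Finset.prod_filter_mul_prod_filter_not n.primeFactors (fun p => p ∣ 6)]
      apply Nat.mul_le_mul
      · calc ∏ p ∈ n.primeFactors.filter (fun p => p ∣ 6), p ^ cex p
            ≤ ∏ p ∈ ({2, 3} : Finset ℕ), p ^ cex p := by
              apply Finset.prod_le_prod_of_subset_of_one_le'
              · intro p hp
                rw [Finset.mem_filter] at hp
                have h5 : p ∈ Nat.primeFactors 6 :=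
                  Nat.mem_primeFactors.2 ⟨hpr p hp.1, hp.2, by norm_num⟩
                have h6 : Nat.primeFactors 6 = {2, 3} := by decide +kernel
                rw [h6] at h5
                exact h5
              · intro p hp _
                rw [Finset.mem_insert, Finset.mem_singleton] at hp
                rcases hp with rfl | rfl <;> norm_num [cex]
          _ ≤ 69984 := by decide +kernel
      · unfold radp
        rw [← Finset.prod_pow]
        apply Finset.prod_le_prod'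
        intro p hp
        rw [Finset.mem_filter] at hp
        have h5 : cex p = 2 := by
          unfold cex
          rw [if_neg, if_neg]
          · rintro rfl; exact hp.2 (by norm_num)
          · rintro rfl; exact hp.2 (by norm_num)
        rw [h5]
    calc n ≤ (∏ p ∈ n.primeFactors, p ^ k p) ^ 2 * ∏ p ∈ n.primeFactors, p ^ cex p := by
          rw [← h3]
          exact (le_of_eq h1).trans h2
      _ ≤ (∏ p ∈ n.primeFactors, p ^ k p) ^ 2 * (69984 * (radp 6 n) ^ 2) :=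
          Nat.mul_le_mul_left _ h4
      _ = 69984 * ((∏ p ∈ n.primeFactors, p ^ k p) * radp 6 n) ^ 2 := by ring

end Pool.Agent.Helper29S
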