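import Mathlib
import Pool.Agent.Helper29S.Loc
import Pool.Agent.W29.CF.PARAM

/-!
# The discriminant of the cubic field of a root of `x³ - a x - b`
-/

set_option autoImplicit false

namespace Pool.Agent.Helper29S

open NumberField Finset Pool.Agent.W4.CF Pool.Agent.W29.CF Module

variable {K : Type} [Field K] [NumberField K]

/-- the discriminant of a family of integers is `d_K` times a square -/
lemma discr_family (hK : Module.finrank ℚ K = 3) (x : Fin 3 → K)
    (hx : ∀ i, IsIntegral ℤ (x i)) :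
    ∃ m : ℤ, Algebra.discr ℚ x = (m : ℚ) ^ 2 * (NumberField.discr K : ℚ) := by
  classical
  have hcard : Fintype.card (Free.ChooseBasisIndex ℤ (𝓞 K)) = 3 := by
    rw [← Module.finrank_eq_card_chooseBasisIndex, RingOfIntegers.rank, hK]
  set e : Free.ChooseBasisIndex ℤ (𝓞 K) ≃ Fin 3 := Fintype.equivFinOfCardEq hcard with he
  set b : Basis (Fin 3) ℚ K := (integralBasis K).reindex e with hb
  have hbd : Algebra.discr ℚ b = (NumberField.discr K : ℚ) := by
    rw [NumberField.coe_discr, ← Algebra.discr_reindex ℚ (integralBasis K) e, hb,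
      Basis.coe_reindex]
  set P : Matrix (Fin 3) (Fin 3) ℤ := fun i j =>
    (RingOfIntegers.basis K).repr (⟨x i, hx i⟩ : 𝓞 K) (e.symm j) with hP
  have hrepr : ∀ i j, b.repr (x i) j = ((P i j : ℤ) : ℚ) := by
    intro i j
    rw [hb, Basis.repr_reindex_apply]
    have h1 := NumberField.integralBasis_repr_apply K (⟨x i, hx i⟩ : 𝓞 K) (e.symm j)
    exact h1
  have hx' : x = Matrix.mulVec ((P.map (Int.castRingHom ℚ)).map (algebraMap ℚ K)) b := by
    funext i
    conv_lhs => rw [← b.sum_repr (x i)]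
    rw [Matrix.mulVec, dotProduct]
    refine Finset.sum_congr rfl fun j _ => ?_
    rw [hrepr i j, Algebra.smul_def]
    rfl
  refine ⟨P.det, ?_⟩
  rw [hx', Algebra.discr_of_matrix_mulVec, hbd]
  congr 2
  have h2 := RingHom.map_det (Int.castRingHom ℚ) P
  rw [RingHom.mapMatrix_apply] at h2
  rw [← h2]
  rfl

lemma trace_all (hK : Module.finrank ℚ K = 3) {θ : K} (hθ : ∀ r : ℚ, θ ≠ algebraMap ℚ K r)
    {a b : ℤ} (h : θ ^ 3 = a * θ + b) (x y z : ℚ) :
    Algebra.trace ℚ K (algebraMap ℚ K x + algebraMap ℚ K y * θ + algebraMap ℚ K z * θ ^ 2) =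
      3 * x + 2 * a * z := by
  obtain ⟨t1, t2⟩ := traces hK hθ h
  rw [map_add, map_add, trace_mul_rat, trace_mul_rat, trace_rat hK, t1, t2]
  ring

/-- the root of the cubic satisfied by the new integer -/
lemma w_int {θ : K} {a b : ℤ} (h : θ ^ 3 = a * θ + b) {i t : ℤ} (hi : i ≠ 0)
    (hok : Okk a b i t) :
    IsIntegral ℤ ((θ ^ 2 + t * θ + (t ^ 2 - a)) / i : K) := by
  obtain ⟨⟨f0, hf0⟩, ⟨f1, hf1⟩⟩ := hok
  set w : K := (θ ^ 2 + t * θ + (t ^ 2 - a)) / i with hw
  have hi' : (i : K) ≠ 0 := by exact_mod_cast hi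
  have hiw : (i : K) * w = θ ^ 2 + t * θ + (t ^ 2 - a) := by
    rw [hw]; field_simp
  have e0 : (t : K) ^ 3 - a * t - b = i ^ 2 * f0 := by
    have := congrArg (fun z : ℤ => (z : K)) hf0
    unfold F0 at this
    push_cast at this
    exact this
  have e1 : 3 * (t : K) ^ 2 - a = i * f1 := by
    have := congrArg (fun z : ℤ => (z : K)) hf1
    unfold F1 at this
    push_cast at this
    exact this
  have key : w ^ 3 - f1 * w ^ 2 + 3 * t * f0 * w - i * f0 ^ 2 = 0 := by
    have h3 : (i : K) ^ 3 * (w ^ 3 - f1 * w ^ 2 + 3 * t * f0 * w - i * f0 ^ 2) = 0 := by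
      have r1 : (i : K) ^ 3 * (w ^ 3 - f1 * w ^ 2 + 3 * t * f0 * w - i * f0 ^ 2) =
          (i * w) ^ 3 - (i * f1) * (i * w) ^ 2 + 3 * t * (i ^ 2 * f0) * (i * w) -
            (i ^ 2 * f0) ^ 2 := by ring
      rw [r1, hiw, ← e0, ← e1]
      have hb : (b : K) = θ ^ 3 - a * θ := by rw [h]; ring
      rw [hb]
      ring
    rcases mul_eq_zero.1 h3 with h4 | h4
    · exact absurd h4 (pow_ne_zero 3 hi')
    · exact h4
  refine ⟨Polynomial.X ^ 3 - Polynomial.C f1 * Polynomial.X ^ 2 +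
    Polynomial.C (3 * t * f0) * Polynomial.X - Polynomial.C (i * f0 ^ 2), ?_, ?_⟩
  · have : (Polynomial.X ^ 3 - Polynomial.C f1 * Polynomial.X ^ 2 +
      Polynomial.C (3 * t * f0) * Polynomial.X - Polynomial.C (i * f0 ^ 2) : Polynomial ℤ) =
      Polynomial.X ^ 3 + (- Polynomial.C f1 * Polynomial.X ^ 2 +
      Polynomial.C (3 * t * f0) * Polynomial.X - Polynomial.C (i * f0 ^ 2)) := by ring
    rw [this]
    apply Polynomial.monic_X_pow_add
    compute_degree!
  · simp only [Polynomial.eval₂_sub, Polynomial.eval₂_add, Polynomial.eval₂_pow,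
      Polynomial.eval₂_X, Polynomial.eval₂_mul, Polynomial.eval₂_C]
    rw [← key]
    simp

/-- **the discriminant bound** -/
theorem discr_bound (hK : Module.finrank ℚ K = 3) {θ : K}
    (hθ : ∀ r : ℚ, θ ≠ algebraMap ℚ K r) {a b : ℤ} (h : θ ^ 3 = a * θ + b)
    (hD : Dsc a b ≠ 0) {i : ℕ} {t : ℤ} (hi : 1 ≤ i) (hok : Okk a b i t) :
    (NumberField.discr K).natAbs * i ^ 2 ≤ (Dsc a b).natAbs := by
  have hi0 : (i : ℤ) ≠ 0 := by exact_mod_cast (by omega : i ≠ 0)
  have hw := w_int h hi0 hok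
  set w : K := (θ ^ 2 + t * θ + (t ^ 2 - a)) / ((i : ℕ) : ℤ) with hwdef
  have hiK : (i : K) ≠ 0 := by exact_mod_cast (by omega : i ≠ 0)
  have hiQ : (i : ℚ) ≠ 0 := by exact_mod_cast (by omega : i ≠ 0)
  obtain ⟨m, hm⟩ := discr_family hK ![1, θ, w] (by
    intro j
    fin_cases j
    · exact isIntegral_one
    · exact isInt h
    · exact hw)
  -- the traces
  have T0 : Algebra.trace ℚ K 1 = 3 := by
    have := trace_rat (K := K) hK 1
    simpa using this
  have T1 : Algebra.trace ℚ K θ = 0 := (traces hK hθ h).1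
  have T2 : Algebra.trace ℚ K (θ * θ) = 2 * a := by
    rw [← pow_two]; exact (traces hK hθ h).2
  have Tw : Algebra.trace ℚ K w = (3 * t ^ 2 - a) / i := by
    have e : w = algebraMap ℚ K ((t ^ 2 - a) / i) + algebraMap ℚ K (t / i) * θ +
        algebraMap ℚ K (1 / i) * θ ^ 2 := by
      rw [hwdef]
      simp only [map_div₀, map_sub, map_pow, map_intCast, map_natCast, map_one, Int.cast_natCast]
      field_simp
      ring
    rw [e, trace_all hK hθ h]
    field_simp
    ring
  have Tθw : Algebra.trace ℚ K (θ * w) = (3 * b + 2 * a * t) / i := by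
    have e : θ * w = algebraMap ℚ K (b / i) + algebraMap ℚ K (t ^ 2 / i) * θ +
        algebraMap ℚ K (t / i) * θ ^ 2 := by
      rw [hwdef]
      simp only [map_div₀, map_pow, map_intCast, map_natCast, Int.cast_natCast]
      field_simp
      linear_combination h
    rw [e, trace_all hK hθ h]
    field_simp
  have Tww : Algebra.trace ℚ K (w * w) =
      (2 * a ^ 2 + 6 * t * b + (t ^ 2 + 2 * (t ^ 2 - a)) * (2 * a) + 3 * (t ^ 2 - a) ^ 2) /
        i ^ 2 := by
    have e : w * w = algebraMap ℚ K ((2 * t * b + (t ^ 2 - a) ^ 2) / i ^ 2) +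
        algebraMap ℚ K ((b + 2 * t * a + 2 * t * (t ^ 2 - a)) / i ^ 2) * θ +
        algebraMap ℚ K ((a + t ^ 2 + 2 * (t ^ 2 - a)) / i ^ 2) * θ ^ 2 := by
      rw [hwdef]
      simp only [map_div₀, map_add, map_mul, map_sub, map_pow, map_intCast, map_natCast,
        map_ofNat, Int.cast_natCast]
      field_simp
      linear_combination (θ + 2 * t) * h
    rw [e, trace_all hK hθ h]
    field_simp
    ring
  have hdisc : Algebra.discr ℚ ![1, θ, w] = (Dsc a b : ℚ) / i ^ 2 := by
    rw [Algebra.discr_def, Matrix.det_fin_three]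
    simp only [Algebra.traceMatrix_apply, Algebra.traceForm_apply, Matrix.cons_val_zero,
      Matrix.cons_val_one, Matrix.cons_val, one_mul, mul_one]
    rw [mul_comm w θ, T0, T1, T2, Tw, Tθw, Tww]
    unfold Dsc
    push_cast
    field_simp
    ring
  rw [hdisc] at hm
  have hm2 : (Dsc a b : ℚ) = (m : ℚ) ^ 2 * (NumberField.discr K : ℚ) * i ^ 2 := by
    rw [← hm]; field_simp
  have hm3 : Dsc a b = m ^ 2 * NumberField.discr K * i ^ 2 := by exact_mod_cast hm2
  have hm0 : m ≠ 0 := by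
    rintro rfl
    apply hD
    rw [hm3]
    ring
  rw [hm3, Int.natAbs_mul, Int.natAbs_mul, Int.natAbs_pow, Int.natAbs_pow, Int.natAbs_natCast]
  apply Nat.mul_le_mul_right
  have : 1 ≤ m.natAbs ^ 2 := Nat.one_le_pow _ _ (Int.natAbs_pos.2 hm0)
  exact Nat.le_mul_of_pos_left _ this

end Pool.Agent.Helper29S
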