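import Mathlib
import Pool.Agent.Helper29S.Dis

/-!
# A small integer of trace zero in a cubic field
-/

set_option autoImplicit false

namespace Pool.Agent.Helper29S

open NumberField Finset Pool.Agent.W4.CF Pool.Agent.W29.CF Module InfinitePlace mixedEmbedding
open scoped ENNReal NNReal

variable {K : Type} [Field K] [NumberField K]

lemma exists_real (hK : Module.finrank ℚ K = 3) : ∃ w : InfinitePlace K, IsReal w := by
  classical
  by_contra hcon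
  push Not at hcon
  have h1 := card_add_two_mul_card_eq_rank K
  have h2 : nrRealPlaces K = 0 := by
    unfold nrRealPlaces
    rw [Fintype.card_eq_zero_iff]
    exact ⟨fun w => hcon w.1 w.2⟩
  rw [hK, h2] at h1
  omega

lemma mink_bound (hK : Module.finrank ℚ K = 3) :
    minkowskiBound K ↑1 ≤ ((8 * NNReal.sqrt ‖discr K‖₊ : ℝ≥0) : ℝ≥0∞) := by
  classical
  rw [minkowskiBound, volume_fundamentalDomain_fractionalIdealLatticeBasis, Units.val_one,
    FractionalIdeal.absNorm_one, Rat.cast_one, ENNReal.ofReal_one, one_mul,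
    mixedEmbedding.finrank, volume_fundamentalDomain_latticeBasis, hK]
  have h1 : ((2 : ℝ≥0∞)⁻¹ ^ nrComplexPlaces K) ≤ 1 := pow_le_one₀ (by positivity) (by simp)
  calc (2 : ℝ≥0∞)⁻¹ ^ nrComplexPlaces K * ((NNReal.sqrt ‖discr K‖₊ : ℝ≥0) : ℝ≥0∞) * 2 ^ 3
      ≤ 1 * ((NNReal.sqrt ‖discr K‖₊ : ℝ≥0) : ℝ≥0∞) * 2 ^ 3 := by gcongr
    _ = ((8 * NNReal.sqrt ‖discr K‖₊ : ℝ≥0) : ℝ≥0∞) := by
        push_cast
        rw [one_mul, mul_comm]
        norm_num

lemma exists_small (hK : Module.finrank ℚ K = 3) {B : ℝ≥0} (hB1 : 1 ≤ B)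
    (hB : 8 * NNReal.sqrt ‖discr K‖₊ < B ^ 2) :
    ∃ α : 𝓞 K, (∀ r : ℚ, (α : K) ≠ algebraMap ℚ K r) ∧ ∀ σ : K →+* ℂ, ‖σ (α : K)‖ ≤ B := by
  classical
  obtain ⟨w₀, hw₀⟩ := exists_real hK
  set f : InfinitePlace K → ℝ≥0 := fun w => if w = w₀ then 1 else B with hf
  have hvol : minkowskiBound K ↑1 < MeasureTheory.volume (convexBodyLT K f) := by
    rw [convexBodyLT_volume]
    have h1 : ∏ w, (f w) ^ (mult w) = B ^ 2 := by
      rw [← Finset.mul_prod_erase Finset.univ _ (Finset.mem_univ w₀)]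
      have h2 : f w₀ = 1 := by rw [hf]; simp
      rw [h2, one_pow, one_mul]
      have h3 : ∏ w ∈ Finset.univ.erase w₀, (f w) ^ (mult w) =
          ∏ w ∈ Finset.univ.erase w₀, B ^ (mult w) := by
        refine Finset.prod_congr rfl fun w hw => ?_
        rw [hf]
        simp only
        rw [if_neg (Finset.ne_of_mem_erase hw)]
      rw [h3, Finset.prod_pow_eq_pow_sum]
      congr 1
      have h4 := sum_mult_eq (K := K)
      rw [hK, ← Finset.add_sum_erase Finset.univ _ (Finset.mem_univ w₀)] at h4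
      have h5 : mult w₀ = 1 := by rw [mult, if_pos hw₀]
      omega
    rw [h1]
    calc minkowskiBound K ↑1 ≤ ((8 * NNReal.sqrt ‖discr K‖₊ : ℝ≥0) : ℝ≥0∞) := mink_bound hK
      _ < ((B ^ 2 : ℝ≥0) : ℝ≥0∞) := by exact_mod_cast hB
      _ ≤ (convexBodyLTFactor K : ℝ≥0∞) * ((B ^ 2 : ℝ≥0) : ℝ≥0∞) := by
          have h2 : (1 : ℝ≥0∞) ≤ (convexBodyLTFactor K : ℝ≥0∞) := by
            exact_mod_cast one_le_convexBodyLTFactor K
          calc ((B ^ 2 : ℝ≥0) : ℝ≥0∞) = 1 * ((B ^ 2 : ℝ≥0) : ℝ≥0∞) := (one_mul _).symm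
            _ ≤ _ := by gcongr
  obtain ⟨α, hα0, hα⟩ := exists_ne_zero_mem_ringOfIntegers_lt K hvol
  refine ⟨α, ?_, ?_⟩
  · intro r hr
    have h1 : IsIntegral ℤ (algebraMap ℚ K r) := by
      rw [← hr]; exact RingOfIntegers.isIntegral_coe α
    have h2 : IsIntegral ℤ r :=
      (isIntegral_algebraMap_iff (algebraMap ℚ K).injective).1 h1
    obtain ⟨n, hn⟩ := IsIntegrallyClosed.isIntegral_iff.1 h2
    have hn' : (r : ℚ) = n := by rw [← hn]; simp
    have h3 := hα w₀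
    have h4 : f w₀ = 1 := by rw [hf]; simp
    rw [h4, hr, hn'] at h3
    have h5 : w₀ (algebraMap ℚ K (n : ℚ)) = |(n : ℝ)| := by
      rw [← norm_embedding_eq]
      simp
    rw [h5] at h3
    have h6 : n ≠ 0 := by
      rintro rfl
      apply hα0
      have h8 : (α : K) = 0 := by rw [hr, hn']; simp
      exact RingOfIntegers.coe_eq_zero_iff.1 h8
    have h7 : (1 : ℝ) ≤ |(n : ℝ)| := by exact_mod_cast Int.one_le_abs h6
    rw [NNReal.coe_one] at h3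
    linarith
  · intro σ
    have h1 := (hα (InfinitePlace.mk σ)).le
    rw [InfinitePlace.apply] at h1
    refine h1.trans ?_
    rw [hf]
    simp only
    split_ifs
    · exact_mod_cast hB1
    · exact le_rfl

lemma trace_le (hK : Module.finrank ℚ K = 3) {x : K} {M : ℝ} (h : ∀ σ : K →+* ℂ, ‖σ x‖ ≤ M) :
    |(Algebra.trace ℚ K x : ℝ)| ≤ 3 * M := by
  have h1 := trace_eq_sum_embeddings (K := ℚ) (L := K) ℂ (x := x)
  have h2 : ‖((Algebra.trace ℚ K x : ℚ) : ℂ)‖ ≤ 3 * M := by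
    have e : ((Algebra.trace ℚ K x : ℚ) : ℂ) = algebraMap ℚ ℂ (Algebra.trace ℚ K x) := by simp
    rw [e, h1]
    refine (norm_sum_le _ _).trans ?_
    calc ∑ σ : K →ₐ[ℚ] ℂ, ‖σ x‖ ≤ ∑ _σ : K →ₐ[ℚ] ℂ, M :=
          Finset.sum_le_sum fun σ _ => h (σ : K →+* ℂ)
      _ = 3 * M := by
          rw [Finset.sum_const, Finset.card_univ, AlgHom.card, hK]
          simp
  have h3 : ((Algebra.trace ℚ K x : ℚ) : ℂ) = (((Algebra.trace ℚ K x : ℚ) : ℝ) : ℂ) := by simp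
  rw [h3, Complex.norm_real] at h2
  exact h2

lemma deg3 (hK : Module.finrank ℚ K = 3) {θ : K} (hθ : ∀ r : ℚ, θ ≠ algebraMap ℚ K r) :
    (minpoly ℚ θ).natDegree = 3 := by
  have h1 : (minpoly ℚ θ).natDegree ∣ 3 := by
    rw [← hK]; exact minpoly.degree_dvd (Algebra.IsIntegral.isIntegral θ)
  have h2 : (minpoly ℚ θ).natDegree ≠ 1 := by
    intro h
    rw [minpoly.natDegree_eq_one_iff] at h
    obtain ⟨r, hr⟩ := h
    exact hθ r hr.symm
  rcases (Nat.dvd_prime Nat.prime_three).1 h1 with h | h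
  · exact absurd h h2
  · exact h

/-- the cubic equation of an integer -/
lemma cubic_eq (hK : Module.finrank ℚ K = 3) (α : 𝓞 K)
    (hα : ∀ r : ℚ, (α : K) ≠ algebraMap ℚ K r) :
    ∃ c2 c1 c0 : ℤ, (α : K) ^ 3 + c2 * (α : K) ^ 2 + c1 * (α : K) + c0 = 0 := by
  have hint := RingOfIntegers.isIntegral_coe α
  have h1 := deg3 hK hα
  have h2 := minpoly.isIntegrallyClosed_eq_field_fractions' ℚ hint
  have hmon := minpoly.monic hint
  rw [h2, hmon.natDegree_map] at h1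
  have h3 := minpoly.aeval ℤ (α : K)
  rw [Polynomial.aeval_eq_sum_range, h1, Finset.sum_range_succ, Finset.sum_range_succ,
    Finset.sum_range_succ, Finset.sum_range_one] at h3
  have h4 : (minpoly ℤ (α : K)).coeff 3 = 1 := by
    have := hmon.coeff_natDegree
    rwa [h1] at this
  rw [h4] at h3
  refine ⟨(minpoly ℤ (α : K)).coeff 2, (minpoly ℤ (α : K)).coeff 1, (minpoly ℤ (α : K)).coeff 0,
    ?_⟩
  rw [← h3]
  simp only [zsmul_eq_mul, Int.cast_one, pow_zero, mul_one, one_mul, pow_one]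
  ring

/-- **a small integer of trace zero** -/
theorem small (hK : Module.finrank ℚ K = 3) {B : ℝ≥0} (hB1 : 1 ≤ B)
    (hB : 8 * NNReal.sqrt ‖discr K‖₊ < B ^ 2) :
    ∃ (ρ : 𝓞 K) (p q : ℤ), (∀ r : ℚ, (ρ : K) ≠ algebraMap ℚ K r) ∧
      ρ ^ 3 = p * ρ + q ∧ (∀ σ : K →+* ℂ, ‖σ (ρ : K)‖ ≤ 6 * B) ∧
      |(p : ℝ)| ≤ 54 * B ^ 2 ∧ |(q : ℝ)| ≤ 540 * B ^ 3 := by
  obtain ⟨α, hα, hαB⟩ := exists_small hK hB1 hB
  obtain ⟨c2, c1, c0, hc⟩ := cubic_eq hK α hα
  set p : ℤ := 3 * c2 ^ 2 - 9 * c1 with hp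
  set q : ℤ := -2 * c2 ^ 3 + 9 * c1 * c2 - 27 * c0 with hq
  set ρ : 𝓞 K := 3 * α + c2 with hρ
  have hρK : (ρ : K) = 3 * (α : K) + c2 := by
    have e3 : algebraMap (𝓞 K) K 3 = 3 := map_ofNat _ 3
    rw [hρ]
    simp only [map_add, map_mul, map_intCast]
    rw [e3]
  have hirr : ∀ r : ℚ, (ρ : K) ≠ algebraMap ℚ K r := by
    intro r hr
    apply hα ((r - c2) / 3)
    rw [map_div₀, map_sub, ← hr, hρK]
    simp
  have heqK : (ρ : K) ^ 3 = p * (ρ : K) + q := by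
    rw [hρK, hp, hq]
    push_cast
    linear_combination 27 * hc
  have heq : ρ ^ 3 = p * ρ + q := by
    apply RingOfIntegers.coe_injective
    simpa using heqK
  have hB0 : (0 : ℝ) ≤ B := B.2
  obtain ⟨t1, t2⟩ := traces hK hirr heqK
  have hc2 : |(c2 : ℝ)| ≤ 3 * B := by
    have h1 : Algebra.trace ℚ K (ρ : K) = 3 * Algebra.trace ℚ K (α : K) + 3 * c2 := by
      have e : (ρ : K) = algebraMap ℚ K 3 * (α : K) + algebraMap ℚ K c2 := by rw [hρK]; simp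
      rw [e, map_add, trace_mul_rat, trace_rat hK]
    have h2 : (c2 : ℚ) = -Algebra.trace ℚ K (α : K) := by linarith
    have h3 := trace_le hK hαB
    have h4 : (c2 : ℝ) = -((Algebra.trace ℚ K (α : K) : ℚ) : ℝ) := by exact_mod_cast h2
    rw [h4, abs_neg]
    exact h3
  have hρB : ∀ σ : K →+* ℂ, ‖σ (ρ : K)‖ ≤ 6 * B := by
    intro σ
    rw [hρK, map_add, map_mul, map_ofNat, map_intCast]
    calc ‖(3 : ℂ) * σ (α : K) + (c2 : ℂ)‖ ≤ ‖(3 : ℂ) * σ (α : K)‖ + ‖(c2 : ℂ)‖ := norm_add_le _ _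
      _ = 3 * ‖σ (α : K)‖ + |(c2 : ℝ)| := by
          rw [norm_mul, Complex.norm_intCast]; norm_num
      _ ≤ 6 * B := by linarith [hαB σ]
  have hpB : |(p : ℝ)| ≤ 54 * B ^ 2 := by
    have h1 := trace_le (x := (ρ : K) ^ 2) (M := (6 * B) ^ 2) hK (fun σ => by
      rw [map_pow, norm_pow]
      exact pow_le_pow_left₀ (norm_nonneg _) (hρB σ) 2)
    rw [t2] at h1
    push_cast at h1
    rw [abs_mul, abs_two] at h1
    linarith
  refine ⟨ρ, p, q, hirr, heq, hρB, hpB, ?_⟩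
  obtain ⟨w₀, -⟩ := exists_real hK
  have h1 : (q : ℂ) = (w₀.embedding (ρ : K)) ^ 3 - p * w₀.embedding (ρ : K) := by
    rw [← map_pow, heqK, map_add, map_mul, map_intCast, map_intCast]
    ring
  have h2 : |(q : ℝ)| = ‖(q : ℂ)‖ := by rw [Complex.norm_intCast]
  rw [h2, h1]
  have h3 := hρB w₀.embedding
  calc ‖(w₀.embedding (ρ : K)) ^ 3 - p * w₀.embedding (ρ : K)‖
      ≤ ‖(w₀.embedding (ρ : K)) ^ 3‖ + ‖(p : ℂ) * w₀.embedding (ρ : K)‖ := norm_sub_le _ _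
    _ = ‖w₀.embedding (ρ : K)‖ ^ 3 + |(p : ℝ)| * ‖w₀.embedding (ρ : K)‖ := by
        rw [norm_pow, norm_mul, Complex.norm_intCast]
    _ ≤ (6 * B) ^ 3 + 54 * B ^ 2 * (6 * B) := by gcongr
    _ = 540 * B ^ 3 := by ring

end Pool.Agent.Helper29S
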