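import Mathlib
import Pool.Agent.Helper29S.Small

/-!
# The integers of trace zero of a cubic field in terms of one of them, with uniform bounds
-/

set_option autoImplicit false

namespace Pool.Agent.Helper29S

open NumberField Finset Pool.Agent.W4.CF Pool.Agent.W29.CF

variable {K : Type} [Field K] [NumberField K]

/-- the argument is that of `Pool.Agent.W29.CF.t_PARAM` -/
theorem param (hK : Module.finrank ℚ K = 3) {a0 b0 : ℤ} {θ0 : K}
    (hθ0 : ∀ r : ℚ, θ0 ≠ algebraMap ℚ K r) (h0 : θ0 ^ 3 = a0 * θ0 + b0) {M : ℝ} (hM : 1 ≤ M)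
    (hσM : ∀ σ : K →+* ℂ, ‖σ θ0‖ ≤ M) :
    4 * a0 ^ 3 - 27 * b0 ^ 2 ≠ 0 ∧
    ∀ (a b : ℤ) (θ : K), (∀ r : ℚ, θ ≠ algebraMap ℚ K r) → θ ^ 3 = a * θ + b →
      ∀ T : ℝ, 1 ≤ T → (∀ σ : K →+* ℂ, ‖σ θ‖ ≤ T) →
      ∃ u v : ℤ, (4 * a0 ^ 3 - 27 * b0 ^ 2) ^ 2 * a = Fa a0 b0 u v ∧
        (4 * a0 ^ 3 - 27 * b0 ^ 2) ^ 3 * b = Fb a0 b0 u v ∧
        |(u : ℝ)| ≤ 81 * T * M ^ 5 ∧ |(v : ℝ)| ≤ 81 * T * M ^ 5 := by
  have hirr : ∀ (r s : ℚ), algebraMap ℚ K r * θ0 = algebraMap ℚ K s → r = 0 := by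
    intro r s h
    by_contra hr
    apply hθ0 (s / r)
    rw [map_div₀, ← h]
    have : algebraMap ℚ K r ≠ 0 := by
      rw [Ne, map_eq_zero]; exact hr
    field_simp
  have hD : 4 * a0 ^ 3 - 27 * b0 ^ 2 ≠ 0 := by
    intro hD
    by_cases ha : a0 = 0
    · have hb : b0 = 0 := by
        rw [ha] at hD
        have : b0 ^ 2 = 0 := by linarith
        exact pow_eq_zero_iff (by norm_num) |>.1 this
      rw [ha, hb] at h0
      have h1 : θ0 ^ 3 = 0 := by rw [h0]; simp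
      have h2 : θ0 = 0 := pow_eq_zero_iff (by norm_num) |>.1 h1
      exact hθ0 0 (by rw [h2]; simp)
    · set r : ℚ := -3 * b0 / (2 * a0) with hr
      have haq : (a0 : ℚ) ≠ 0 := Int.cast_ne_zero.2 ha
      have hDq : 4 * (a0 : ℚ) ^ 3 - 27 * (b0 : ℚ) ^ 2 = 0 := by exact_mod_cast hD
      have e1 : 3 * r ^ 2 = a0 := by
        rw [hr]; field_simp; linarith
      have e2 : 2 * r ^ 3 = -b0 := by
        rw [hr]; field_simp; linear_combination (b0 : ℚ) * hDq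
      have e3 : (θ0 - algebraMap ℚ K r) ^ 2 * (θ0 + 2 * algebraMap ℚ K r) = 0 := by
        have f1 : 3 * (algebraMap ℚ K r) ^ 2 = a0 := by
          have := congrArg (algebraMap ℚ K) e1
          simpa using this
        have f2 : 2 * (algebraMap ℚ K r) ^ 3 = -b0 := by
          have := congrArg (algebraMap ℚ K) e2
          simpa using this
        linear_combination h0 - θ0 * f1 + f2
      rcases mul_eq_zero.1 e3 with h | h
      · have h' := pow_eq_zero_iff (by norm_num) |>.1 h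
        exact hθ0 r (sub_eq_zero.1 h')
      · apply hθ0 (-2 * r)
        rw [map_mul]
        have : algebraMap ℚ K (-2) = -2 := by simp
        rw [this]
        linear_combination h
  refine ⟨hD, ?_⟩
  intro a b θ hθ h T hT hσT
  obtain ⟨m1, hm1⟩ := int_trace (t := θ * θ0) ((isInt h).mul (isInt h0))
  obtain ⟨m2, hm2⟩ := int_trace (t := θ * θ0 ^ 2) ((isInt h).mul ((isInt h0).pow 2))
  obtain ⟨x, y, w, hxyw⟩ := exists_coords hK hθ0 θ
  obtain ⟨t1, t2⟩ := traces hK hθ0 h0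
  have t0 := trace_rat (K := K) hK
  have t3 : Algebra.trace ℚ K (θ0 ^ 3) = 3 * b0 := by
    have : θ0 ^ 3 = algebraMap ℚ K a0 * θ0 + algebraMap ℚ K b0 := by rw [h0]; simp
    rw [this, map_add, trace_mul_rat, t1, t0]; ring
  have t4 : Algebra.trace ℚ K (θ0 ^ 4) = 2 * a0 ^ 2 := by
    have : θ0 ^ 4 = algebraMap ℚ K a0 * θ0 ^ 2 + algebraMap ℚ K b0 * θ0 := by
      simp; linear_combination θ0 * h0
    rw [this, map_add, trace_mul_rat, trace_mul_rat, t1, t2]; ring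
  have g0 : 3 * x + 2 * a0 * w = 0 := by
    have := (traces hK hθ h).1
    rw [hxyw, map_add, map_add, trace_mul_rat, trace_mul_rat, t0, t1, t2] at this
    linarith
  have g1 : 2 * a0 * y + 3 * b0 * w = m1 := by
    have e : θ * θ0 = algebraMap ℚ K x * θ0 + algebraMap ℚ K y * θ0 ^ 2 +
        algebraMap ℚ K w * θ0 ^ 3 := by rw [hxyw]; ring
    rw [e, map_add, map_add, trace_mul_rat, trace_mul_rat, trace_mul_rat, t1, t2, t3] at hm1
    linarith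
  have g2 : 2 * a0 * x + 3 * b0 * y + 2 * a0 ^ 2 * w = m2 := by
    have e : θ * θ0 ^ 2 = algebraMap ℚ K x * θ0 ^ 2 + algebraMap ℚ K y * θ0 ^ 3 +
        algebraMap ℚ K w * θ0 ^ 4 := by rw [hxyw]; ring
    rw [e, map_add, map_add, trace_mul_rat, trace_mul_rat, trace_mul_rat, t2, t3, t4] at hm2
    linarith
  set D0 : ℤ := 4 * a0 ^ 3 - 27 * b0 ^ 2 with hD0
  set u : ℤ := 2 * a0 ^ 2 * m1 - 9 * b0 * m2 with hu
  set v : ℤ := 2 * a0 * m2 - 3 * b0 * m1 with hv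
  have hD0q : (D0 : ℚ) = 4 * a0 ^ 3 - 27 * b0 ^ 2 := by rw [hD0]; push_cast; ring
  have huq : (u : ℚ) = 2 * a0 ^ 2 * m1 - 9 * b0 * m2 := by rw [hu]; push_cast; ring
  have hvq : (v : ℚ) = 2 * a0 * m2 - 3 * b0 * m1 := by rw [hv]; push_cast; ring
  have hx : x = -(2 * a0 * w) / 3 := by linarith
  have q1 : (D0 : ℚ) * y = u := by
    rw [hD0q, huq, ← g1, ← g2, hx]; ring
  have q2 : (D0 : ℚ) * w = 3 * v := by
    rw [hD0q, hvq, ← g1, ← g2, hx]; ring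
  have q3 : (D0 : ℚ) * x = -2 * a0 * v := by
    rw [hx]; linear_combination (-2 * a0 / 3 : ℚ) * q2
  have hW : (D0 : K) * θ = u * θ0 + v * (3 * θ0 ^ 2 - 2 * a0) := by
    have c1 : (D0 : K) * algebraMap ℚ K y = u := by
      have := congrArg (algebraMap ℚ K) q1
      simpa using this
    have c2 : (D0 : K) * algebraMap ℚ K w = 3 * v := by
      have := congrArg (algebraMap ℚ K) q2
      simpa using this
    have c3 : (D0 : K) * algebraMap ℚ K x = -2 * a0 * v := by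
      have := congrArg (algebraMap ℚ K) q3
      simpa using this
    rw [hxyw]
    linear_combination c3 + θ0 * c1 + θ0 ^ 2 * c2
  have hW3 : ((D0 : K) * θ) ^ 3 = (Fa a0 b0 u v : K) * ((D0 : K) * θ) + (Fb a0 b0 u v : K) := by
    rw [hW]
    unfold Fa Fb
    push_cast
    linear_combination (1 * (u : K) ^ 3 + 9 * (u : K) ^ 2 * v * θ0 - 9 * (u : K) * v ^ 2 * a0 +
      27 * (u : K) * v ^ 2 * θ0 ^ 2 - 27 * (v : K) ^ 3 * a0 * θ0 + 27 * (v : K) ^ 3 * b0 +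
      27 * (v : K) ^ 3 * θ0 ^ 3) * h0
  have hD0K : (D0 : K) ≠ 0 := Int.cast_ne_zero.2 hD
  have hlin : algebraMap ℚ K ((D0 : ℚ) ^ 3 * a - (Fa a0 b0 u v : ℚ) * D0) * θ =
      algebraMap ℚ K ((Fb a0 b0 u v : ℚ) - (D0 : ℚ) ^ 3 * b) := by
    simp only [map_sub, map_mul, map_pow, map_intCast]
    linear_combination hW3 - (D0 : K) ^ 3 * h
  have hirr' : (D0 : ℚ) ^ 3 * a - (Fa a0 b0 u v : ℚ) * D0 = 0 := by
    by_contra hr
    apply hθ (((Fb a0 b0 u v : ℚ) - (D0 : ℚ) ^ 3 * b) / ((D0 : ℚ) ^ 3 * a -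
      (Fa a0 b0 u v : ℚ) * D0))
    rw [map_div₀, ← hlin]
    have : algebraMap ℚ K ((D0 : ℚ) ^ 3 * a - (Fa a0 b0 u v : ℚ) * D0) ≠ 0 := by
      rw [Ne, map_eq_zero]; exact hr
    rw [mul_div_assoc, mul_div_cancel₀]
    exact this
  have hq0 : (D0 : ℚ) ≠ 0 := Int.cast_ne_zero.2 hD
  have r1 : D0 ^ 2 * a = Fa a0 b0 u v := by
    have : (D0 : ℚ) * ((D0 : ℚ) ^ 2 * a - (Fa a0 b0 u v : ℚ)) = 0 := by linarith
    rcases mul_eq_zero.1 this with h | h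
    · exact absurd h hq0
    · have h' : ((D0 ^ 2 * a : ℤ) : ℚ) = ((Fa a0 b0 u v : ℤ) : ℚ) := by push_cast; linarith
      exact_mod_cast h'
  have r2 : D0 ^ 3 * b = Fb a0 b0 u v := by
    rw [hirr', map_zero, zero_mul] at hlin
    have h1 := (map_eq_zero (algebraMap ℚ K)).1 hlin.symm
    have h' : ((D0 ^ 3 * b : ℤ) : ℚ) = ((Fb a0 b0 u v : ℤ) : ℚ) := by push_cast; linarith
    exact_mod_cast h'
  have hT0 : 0 ≤ T := by linarith
  have hM0 : 0 ≤ M := by linarith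
  refine ⟨u, v, r1, r2, ?_⟩
  have s1 : |(m1 : ℝ)| ≤ 3 * (T * M) := by
    have e := trace_le (x := θ * θ0) (M := T * M) hK (fun σ => by
      rw [map_mul, norm_mul]
      exact mul_le_mul (hσT σ) (hσM σ) (norm_nonneg _) hT0)
    rw [hm1] at e
    exact_mod_cast e
  have s2 : |(m2 : ℝ)| ≤ 3 * (T * M ^ 2) := by
    have e := trace_le (x := θ * θ0 ^ 2) (M := T * M ^ 2) hK (fun σ => by
      rw [map_mul, norm_mul, map_pow, norm_pow]
      exact mul_le_mul (hσT σ) (pow_le_pow_left₀ (norm_nonneg _) (hσM σ) 2) (by positivity) hT0)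
    rw [hm2] at e
    exact_mod_cast e
  have s3 : |(a0 : ℝ)| ≤ 3 / 2 * M ^ 2 := by
    have e := trace_le (x := θ0 ^ 2) (M := M ^ 2) hK (fun σ => by
      rw [map_pow, norm_pow]
      exact pow_le_pow_left₀ (norm_nonneg _) (hσM σ) 2)
    rw [t2] at e
    push_cast at e
    rw [abs_mul, abs_two] at e
    linarith
  have s4 : |(b0 : ℝ)| ≤ 5 / 2 * M ^ 3 := by
    obtain ⟨w₀, -⟩ := exists_real hK
    have f1 : (b0 : ℂ) = (w₀.embedding θ0) ^ 3 - a0 * w₀.embedding θ0 := by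
      rw [← map_pow, h0, map_add, map_mul, map_intCast, map_intCast]
      ring
    have f2 : |(b0 : ℝ)| = ‖(b0 : ℂ)‖ := by rw [Complex.norm_intCast]
    rw [f2, f1]
    have f3 := hσM w₀.embedding
    calc ‖(w₀.embedding θ0) ^ 3 - a0 * w₀.embedding θ0‖
        ≤ ‖(w₀.embedding θ0) ^ 3‖ + ‖(a0 : ℂ) * w₀.embedding θ0‖ := norm_sub_le _ _
      _ = ‖w₀.embedding θ0‖ ^ 3 + |(a0 : ℝ)| * ‖w₀.embedding θ0‖ := by
          rw [norm_pow, norm_mul, Complex.norm_intCast]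
      _ ≤ M ^ 3 + 3 / 2 * M ^ 2 * M := by gcongr
      _ = 5 / 2 * M ^ 3 := by ring
  have hM45 : T * M ^ 4 ≤ T * M ^ 5 := by
    apply mul_le_mul_of_nonneg_left _ hT0
    exact pow_le_pow_right₀ hM (by norm_num)
  constructor
  · have e : (u : ℝ) = 2 * (a0 : ℝ) ^ 2 * m1 - 9 * b0 * m2 := by
      rw [hu]; push_cast; ring
    rw [e]
    calc |2 * (a0 : ℝ) ^ 2 * m1 - 9 * b0 * m2|
        ≤ |2 * (a0 : ℝ) ^ 2 * m1| + |9 * (b0 : ℝ) * m2| := abs_sub _ _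
      _ = 2 * |(a0 : ℝ)| ^ 2 * |(m1 : ℝ)| + 9 * |(b0 : ℝ)| * |(m2 : ℝ)| := by
          rw [abs_mul, abs_mul, abs_mul, abs_mul, abs_pow, abs_two]
          norm_num
      _ ≤ 2 * (3 / 2 * M ^ 2) ^ 2 * (3 * (T * M)) + 9 * (5 / 2 * M ^ 3) * (3 * (T * M ^ 2)) := by
          gcongr
      _ = 81 * T * M ^ 5 := by ring
  · have e : (v : ℝ) = 2 * (a0 : ℝ) * m2 - 3 * b0 * m1 := by
      rw [hv]; push_cast; ring
    rw [e]
    calc |2 * (a0 : ℝ) * m2 - 3 * b0 * m1|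
        ≤ |2 * (a0 : ℝ) * m2| + |3 * (b0 : ℝ) * m1| := abs_sub _ _
      _ = 2 * |(a0 : ℝ)| * |(m2 : ℝ)| + 3 * |(b0 : ℝ)| * |(m1 : ℝ)| := by
          rw [abs_mul, abs_mul, abs_mul, abs_mul, abs_two]
          norm_num
      _ ≤ 2 * (3 / 2 * M ^ 2) * (3 * (T * M ^ 2)) + 3 * (5 / 2 * M ^ 3) * (3 * (T * M)) := by
          gcongr
      _ = 63 / 2 * (T * M ^ 4) := by ring
      _ ≤ 81 * T * M ^ 5 := by
          have : 0 ≤ T * M ^ 5 := by positivity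
          linarith

/-- the discriminant of the cubic in `u, v` -/
lemma disc_uv (a0 b0 u v : ℤ) :
    4 * Fa a0 b0 u v ^ 3 - 27 * Fb a0 b0 u v ^ 2 =
      (4 * a0 ^ 3 - 27 * b0 ^ 2) * G a0 b0 u (3 * v) ^ 2 := by
  unfold Fa Fb G
  ring

end Pool.Agent.Helper29S
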