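import Mathlib
import Pool.Agent.Helper29S.Par

/-!
# The data attached to an irreducible pair
-/

set_option autoImplicit false

namespace Pool.Agent.Helper29S

open NumberField Finset Pool.Agent.W4.CF Pool.Agent.W29.CF Polynomial
open scoped NNReal

lemma exists_field {a b : ℤ} (h : ∀ r : ℚ, r ^ 3 - a * r - b ≠ 0) :
    ∃ (K : Type) (_ : Field K) (_ : NumberField K), Module.finrank ℚ K = 3 ∧
      ∃ θ : K, (∀ r : ℚ, θ ≠ algebraMap ℚ K r) ∧ θ ^ 3 = a * θ + b := by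
  set F : ℚ[X] := X ^ 3 - (C (a : ℚ) * X + C (b : ℚ)) with hF
  have hmon : F.Monic := by
    apply Polynomial.monic_X_pow_sub
    compute_degree!
  have hdeg : F.natDegree = 3 := by
    rw [hF]
    compute_degree!
  have hi : Irreducible F := by
    rw [hmon.irreducible_iff_roots_eq_zero_of_degree_le_three (by omega) (by omega)]
    rw [Multiset.eq_zero_iff_forall_notMem]
    intro r hr
    have h1 := (Polynomial.mem_roots hmon.ne_zero).1 hr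
    rw [Polynomial.IsRoot.def, hF] at h1
    simp only [eval_sub, eval_add, eval_pow, eval_X, eval_mul, eval_C] at h1
    apply h r
    linarith
  have : Fact (Irreducible F) := ⟨hi⟩
  have hfd : FiniteDimensional ℚ (AdjoinRoot F) := (AdjoinRoot.powerBasis hmon.ne_zero).finite
  have hch : CharZero (AdjoinRoot F) := charZero_of_injective_algebraMap
    (algebraMap ℚ (AdjoinRoot F)).injective
  have hfr : Module.finrank ℚ (AdjoinRoot F) = 3 := by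
    rw [(AdjoinRoot.powerBasis hmon.ne_zero).finrank, AdjoinRoot.powerBasis_dim, hdeg]
  have hN : NumberField (AdjoinRoot F) := { to_charZero := hch, to_finiteDimensional := hfd }
  have hroot : (AdjoinRoot.root F) ^ 3 = a * (AdjoinRoot.root F) + b := by
    have h1 : eval₂ (AdjoinRoot.of F) (AdjoinRoot.root F)
        (X ^ 3 - (C (a : ℚ) * X + C (b : ℚ))) = 0 := AdjoinRoot.eval₂_root F
    simp only [eval₂_sub, eval₂_add, eval₂_pow, eval₂_X, eval₂_mul, eval₂_C] at h1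
    have h2 : (AdjoinRoot.of F) (a : ℚ) = (a : AdjoinRoot F) := map_intCast _ a
    have h3 : (AdjoinRoot.of F) (b : ℚ) = (b : AdjoinRoot F) := map_intCast _ b
    rw [h2, h3] at h1
    exact sub_eq_zero.1 h1
  refine ⟨AdjoinRoot F, inferInstance, hN, hfr, AdjoinRoot.root F, ?_, hroot⟩
  intro r hr
  rw [hr] at hroot
  apply h r
  have h4 : algebraMap ℚ (AdjoinRoot F) (r ^ 3 - a * r - b) = 0 := by
    rw [map_sub, map_sub, map_pow, map_mul, map_intCast, map_intCast]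
    rw [hroot]
    ring
  exact (map_eq_zero _).1 h4

/-- the data attached to an irreducible pair -/
def Dat (R Y : ℝ) (x : ℤ × ℤ) (p q u v : ℤ) : Prop :=
  (∃ (K : Type) (_ : Field K) (_ : NumberField K) (ρ : 𝓞 K), Module.finrank ℚ K = 3 ∧
    (∀ r : ℚ, (ρ : K) ≠ algebraMap ℚ K r) ∧ ρ ^ 3 = p * ρ + q ∧
    ∀ σ : K →+* ℂ, ‖σ (ρ : K)‖ ≤ 6 * (47 * √R)) ∧
  4 * p ^ 3 - 27 * q ^ 2 ≠ 0 ∧
  (4 * p ^ 3 - 27 * q ^ 2) ^ 2 * x.1 = Fa p q u v ∧
  (4 * p ^ 3 - 27 * q ^ 2) ^ 3 * x.2 = Fb p q u v ∧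
  |(p : ℝ)| ≤ 54 * (47 * √R) ^ 2 ∧ |(q : ℝ)| ≤ 540 * (47 * √R) ^ 3 ∧
  |(u : ℝ)| ≤ 81 * (2 * Y) * (6 * (47 * √R)) ^ 5 ∧ |(v : ℝ)| ≤ 81 * (2 * Y) * (6 * (47 * √R)) ^ 5

theorem exists_dat {R Y : ℝ} (hR : 1 ≤ R) (hY : 1 ≤ Y) (x : ℤ × ℤ) (hx : Red x.1 x.2)
    (hD : Dsc x.1 x.2 ≠ 0) (hirr : ∀ r : ℚ, r ^ 3 - x.1 * r - x.2 ≠ 0)
    (h1 : |(x.1 : ℝ)| ≤ Y) (h2 : |(x.2 : ℝ)| ≤ Y)
    (hrad : (radp 6 (Dsc x.1 x.2).natAbs : ℝ) ≤ R) : ∃ p q u v : ℤ, Dat R Y x p q u v := by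
  obtain ⟨K, _, _, hK, θ, hθ, hθ3⟩ := exists_field hirr
  obtain ⟨i, t, hi, hok, hle⟩ := glob hx hD
  have hd := discr_bound hK hθ hθ3 hD hi hok
  have hR0 : 0 < R := by linarith
  have hd2 : (discr K).natAbs ≤ 69984 * (radp 6 (Dsc x.1 x.2).natAbs) ^ 2 := by
    have h3 := hd.trans hle
    have h4 : 0 < i ^ 2 := by positivity
    have h5 : 69984 * (i * radp 6 (Dsc x.1 x.2).natAbs) ^ 2 =
        69984 * (radp 6 (Dsc x.1 x.2).natAbs) ^ 2 * i ^ 2 := by ring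
    rw [h5] at h3
    exact Nat.le_of_mul_le_mul_right h3 h4
  have hd3 : ((discr K).natAbs : ℝ) ≤ (265 * R) ^ 2 := by
    calc ((discr K).natAbs : ℝ) ≤ 69984 * (radp 6 (Dsc x.1 x.2).natAbs : ℝ) ^ 2 := by
          exact_mod_cast hd2
      _ ≤ 69984 * R ^ 2 := by gcongr
      _ ≤ (265 * R) ^ 2 := by nlinarith
  set B : ℝ≥0 := ⟨47 * √R, by positivity⟩ with hB
  have hBc : (B : ℝ) = 47 * √R := rfl
  have hsq : 1 ≤ √R := Real.one_le_sqrt.2 hR
  have hB1 : 1 ≤ B := by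
    rw [← NNReal.coe_le_coe, hBc, NNReal.coe_one]
    linarith
  have hB2 : 8 * NNReal.sqrt ‖discr K‖₊ < B ^ 2 := by
    rw [← NNReal.coe_lt_coe]
    push_cast
    rw [hBc, mul_pow, Real.sq_sqrt hR0.le, Int.norm_eq_abs]
    have h3 : |((discr K : ℤ) : ℝ)| = ((discr K).natAbs : ℝ) := by
      rw [Nat.cast_natAbs]; push_cast; rfl
    rw [h3]
    have h4 : √((discr K).natAbs : ℝ) ≤ 265 * R := by
      rw [Real.sqrt_le_left (by positivity)]
      exact hd3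
    nlinarith
  obtain ⟨ρ, p, q, hρ, hρ3, hρB, hpB, hqB⟩ := small hK hB1 hB2
  rw [hBc] at hρB hpB hqB
  have hρ3K : (ρ : K) ^ 3 = p * (ρ : K) + q := by
    have := congrArg (algebraMap (𝓞 K) K) hρ3
    simpa using this
  obtain ⟨hD0, hpar⟩ := param hK hρ hρ3K (M := 6 * (47 * √R)) (by linarith) hρB
  have hσT : ∀ σ : K →+* ℂ, ‖σ θ‖ ≤ 2 * Y := by
    intro σ
    have h3 := size_conj hθ3 (RingHom.equivRatAlgHom K ℂ σ) (H := Y) (by linarith)
      (h1.trans (by nlinarith)) (h2.trans (by nlinarith [mul_self_nonneg (Y - 1)]))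
    exact h3
  obtain ⟨u, v, r1, r2, r3, r4⟩ := hpar x.1 x.2 θ hθ hθ3 (2 * Y) (by linarith) hσT
  exact ⟨p, q, u, v, ⟨K, inferInstance, inferInstance, ρ, hK, hρ, hρ3, hρB⟩, hD0, r1, r2, hpB, hqB,
    r3, r4⟩

end Pool.Agent.Helper29S
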