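import Mathlib
import Pool.Agent.Helper29S.Small
import Pool.Agent.W578.CF.DIVS
import Pool.Agent.W721.CF.NRM

/-!
# The number of integers of given norm and bounded conjugates in a cubic field, uniformly
-/

set_option autoImplicit false

namespace Pool.Agent.Helper29S

open NumberField Finset Pool.Agent.W4.CF Pool.Agent.W29.CF

variable {K : Type} [Field K] [NumberField K]

/-- integers with small conjugates -/
lemma near_count (hK : Module.finrank ℚ K = 3) (s : Finset K)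
    (hs : ∀ x ∈ s, IsIntegral ℤ x ∧ ∀ σ : K →+* ℂ, ‖σ x‖ ≤ 2) : s.card ≤ 3 * 49 ^ 4 := by
  classical
  set f : K → (Fin 4 → ℤ) := fun x i => (minpoly ℤ x).coeff i with hf
  have hdeg : ∀ x ∈ s, (minpoly ℤ x).natDegree ≤ 3 := by
    intro x hx
    have h1 := minpoly.isIntegrallyClosed_eq_field_fractions' ℚ (hs x hx).1
    have hmon := minpoly.monic (hs x hx).1
    have h2 : (minpoly ℚ x).natDegree ∣ 3 := by
      rw [← hK]; exact minpoly.degree_dvd (Algebra.IsIntegral.isIntegral x)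
    rw [h1, hmon.natDegree_map] at h2
    exact Nat.le_of_dvd (by norm_num) h2
  have himg : s.image f ⊆ Fintype.piFinset (fun _ : Fin 4 => Finset.Icc (-24 : ℤ) 24) := by
    intro g hg
    have hg' : ∃ x, x ∈ s ∧ f x = g := Finset.mem_image.1 hg
    cases hg' with
    | intro x hx1 =>
    have hx : x ∈ s := hx1.1
    have hxg : f x = g := hx1.2
    rw [Fintype.mem_piFinset, ← hxg]
    intro i
    have h1 := minpoly.isIntegrallyClosed_eq_field_fractions' ℚ (hs x hx).1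
    have h2 := Embeddings.coeff_bdd_of_norm_le (hs x hx).2 (i : ℕ)
    rw [h1, Polynomial.coeff_map, hK] at h2
    have h3 : ‖algebraMap ℤ ℚ ((minpoly ℤ x).coeff i)‖ = |(((minpoly ℤ x).coeff i : ℤ) : ℝ)| := by
      simp [Int.norm_eq_abs]
    rw [h3] at h2
    have h4 : max (2 : ℝ) 1 ^ 3 * ((Nat.choose 3 (3 / 2) : ℕ) : ℝ) = 24 := by
      rw [max_eq_left (by norm_num)]
      norm_num [Nat.choose]
    rw [h4] at h2
    have h5 : |(minpoly ℤ x).coeff i| ≤ 24 := by exact_mod_cast h2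
    rw [Finset.mem_Icc]
    exact abs_le.1 h5
  have hcard := Finset.card_le_mul_card_image (f := f) s 3 (by
    intro g hg
    rw [Finset.mem_image] at hg
    obtain ⟨x₀, hx₀, rfl⟩ := hg
    have hsub : s.filter (fun x => f x = f x₀) ⊆
        ((minpoly ℤ x₀).map (algebraMap ℤ K)).roots.toFinset := by
      intro x hx
      rw [Finset.mem_filter] at hx
      have hpe : minpoly ℤ x = minpoly ℤ x₀ := by
        ext n
        by_cases hn : n < 4
        · have := congrFun hx.2 ⟨n, hn⟩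
          exact this
        · rw [Polynomial.coeff_eq_zero_of_natDegree_lt, Polynomial.coeff_eq_zero_of_natDegree_lt]
          · have := hdeg x₀ hx₀; omega
          · have := hdeg x hx.1; omega
      rw [Multiset.mem_toFinset, Polynomial.mem_roots]
      · rw [Polynomial.IsRoot.def, Polynomial.eval_map_algebraMap, ← hpe]
        exact minpoly.aeval ℤ x
      · exact ((minpoly.monic (hs x₀ hx₀).1).map _).ne_zero
    calc (s.filter (fun x => f x = f x₀)).card ≤ _ := Finset.card_le_card hsub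
      _ ≤ Multiset.card ((minpoly ℤ x₀).map (algebraMap ℤ K)).roots := Multiset.toFinset_card_le _
      _ ≤ ((minpoly ℤ x₀).map (algebraMap ℤ K)).natDegree := Polynomial.card_roots' _
      _ ≤ 3 := by
          rw [(minpoly.monic (hs x₀ hx₀).1).natDegree_map]
          exact hdeg x₀ hx₀)
  refine hcard.trans (Nat.mul_le_mul_left 3 ?_)
  refine (Finset.card_le_card himg).trans ?_
  rw [Fintype.card_piFinset]
  simp

lemma two_pow_floor {r : ℝ} (hr : 0 < r) :
    (2 : ℝ) ^ (⌊Real.logb 2 r⌋ : ℝ) ≤ r ∧ r < 2 * (2 : ℝ) ^ (⌊Real.logb 2 r⌋ : ℝ) := by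
  constructor
  · rw [← Real.le_logb_iff_rpow_le (by norm_num) hr]
    exact Int.floor_le _
  · have h1 : Real.logb 2 r < (⌊Real.logb 2 r⌋ : ℝ) + 1 := Int.lt_floor_add_one _
    rw [Real.logb_lt_iff_lt_rpow (by norm_num) hr, Real.rpow_add (by norm_num),
      Real.rpow_one] at h1
    linarith

/-- integers of given norm -/
theorem norm_count (hK : Module.finrank ℚ K = 3) {m : ℕ} (hm : 1 ≤ m) {T : ℝ} (hT : 1 ≤ T)
    (s : Finset (𝓞 K)) (hs : ∀ β ∈ s, (Algebra.norm ℤ β).natAbs = m ∧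
      ∀ σ : K →+* ℂ, ‖σ (β : K)‖ ≤ T) :
    s.card ≤ 3 * 49 ^ 4 * (m.divisors.card ^ 3 * (3 * ⌈Real.logb 2 T⌉₊ + 1) ^ 3) := by
  classical
  have hT0 : 0 < T := by linarith
  set N : ℕ := ⌈Real.logb 2 T⌉₊ with hN
  obtain ⟨D, hDcard, hD⟩ := Pool.Agent.W578.CF.Dv.nat (K := K) m hm
  rw [hK] at hDcard
  have hne : ∀ β ∈ s, β ≠ 0 := by
    rintro β hβ rfl
    have := (hs 0 hβ).1
    rw [Algebra.norm_zero, Int.natAbs_zero] at this
    omega
  have hσne : ∀ β ∈ s, ∀ σ : K →ₐ[ℚ] ℂ, 0 < ‖σ (β : K)‖ := by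
    intro β hβ σ
    rw [norm_pos_iff]
    intro h
    have h1 : (β : K) = 0 := by
      apply (σ : K →+* ℂ).injective
      rw [map_zero]; exact h
    exact hne β hβ (RingOfIntegers.coe_eq_zero_iff.1 h1)
  have hlow : ∀ β ∈ s, ∀ σ : K →ₐ[ℚ] ℂ, T ^ (-(2 : ℝ)) ≤ ‖σ (β : K)‖ := by
    intro β hβ σ
    have h1 := Algebra.norm_eq_prod_embeddings ℚ ℂ (β : K)
    have h2 : ‖algebraMap ℚ ℂ (Algebra.norm ℚ (β : K))‖ = m := by
      rw [← Algebra.coe_norm_int]
      have h3 := (hs β hβ).1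
      have h4 : ‖algebraMap ℚ ℂ ((Algebra.norm ℤ β : ℤ) : ℚ)‖ = |((Algebra.norm ℤ β : ℤ) : ℝ)| := by
        rw [map_intCast, Complex.norm_intCast]
      rw [h4]
      rw [← h3]
      rw [Nat.cast_natAbs]
      push_cast
      rfl
    rw [h1, norm_prod, ← Finset.mul_prod_erase Finset.univ _ (Finset.mem_univ σ)] at h2
    have h3 : ∏ τ ∈ Finset.univ.erase σ, ‖τ (β : K)‖ ≤ T ^ 2 := by
      calc ∏ τ ∈ Finset.univ.erase σ, ‖τ (β : K)‖ ≤ ∏ _τ ∈ Finset.univ.erase σ, T :=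
            Finset.prod_le_prod (fun τ _ => norm_nonneg _)
              fun τ _ => (hs β hβ).2 (τ : K →+* ℂ)
        _ = T ^ 2 := by
            rw [Finset.prod_const, Finset.card_erase_of_mem (Finset.mem_univ σ), Finset.card_univ,
              AlgHom.card, hK]
    have h4 : (1 : ℝ) ≤ m := by exact_mod_cast hm
    have h5 : 1 ≤ ‖σ (β : K)‖ * T ^ 2 := by
      calc (1 : ℝ) ≤ m := h4
        _ = ‖σ (β : K)‖ * ∏ τ ∈ Finset.univ.erase σ, ‖τ (β : K)‖ := h2.symm
        _ ≤ ‖σ (β : K)‖ * T ^ 2 := by gcongr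
    rw [Real.rpow_neg hT0.le, Real.rpow_two, inv_le_iff_one_le_mul₀ (by positivity)]
    linarith
  set bx : 𝓞 K → ((K →ₐ[ℚ] ℂ) → ℤ) := fun β σ => ⌊Real.logb 2 ‖σ (β : K)‖⌋ with hbx
  set g : 𝓞 K → Ideal (𝓞 K) × ((K →ₐ[ℚ] ℂ) → ℤ) := fun β => (Ideal.span {β}, bx β) with hg
  have himg : s.image g ⊆ D ×ˢ Fintype.piFinset (fun _ : K →ₐ[ℚ] ℂ =>
      Finset.Icc (-2 * (N : ℤ)) N) := by
    intro y hy
    rw [Finset.mem_image] at hy
    obtain ⟨β, hβ, rfl⟩ := hy
    rw [Finset.mem_product]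
    constructor
    · apply hD
      rw [Ideal.dvd_span_singleton]
      have h1 := Ideal.absNorm_mem (Ideal.span {β})
      rw [Ideal.absNorm_span_singleton, (hs β hβ).1] at h1
      exact h1
    · rw [Fintype.mem_piFinset]
      intro σ
      rw [Finset.mem_Icc]
      have hLN : Real.logb 2 T ≤ N := Nat.le_ceil _
      constructor
      · rw [hg]
        simp only [hbx]
        rw [Int.le_floor]
        push_cast
        have h2 := Real.logb_le_logb_of_le (b := 2) (by norm_num) (by positivity) (hlow β hβ σ)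
        rw [Real.logb_rpow_eq_mul_logb_of_pos hT0] at h2
        linarith
      · have h2 := Real.logb_le_logb_of_le (b := 2) (by norm_num) (hσne β hβ σ)
          ((hs β hβ).2 (σ : K →+* ℂ))
        have h3 : (⌊Real.logb 2 ‖σ (β : K)‖⌋ : ℝ) ≤ N := (Int.floor_le _).trans (h2.trans hLN)
        exact_mod_cast h3
  have hcard := Finset.card_le_mul_card_image (f := g) s (3 * 49 ^ 4) (by
    intro y hy
    rw [Finset.mem_image] at hy
    obtain ⟨β₀, hβ₀, rfl⟩ := hy
    have h0K : (β₀ : K) ≠ 0 := fun h => hne β₀ hβ₀ (RingOfIntegers.coe_eq_zero_iff.1 h)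
    have hinj : Function.Injective (fun β : 𝓞 K => (β : K) / (β₀ : K)) := by
      intro x y hxy
      simp only at hxy
      rw [div_left_inj' h0K] at hxy
      exact RingOfIntegers.coe_injective hxy
    rw [← Finset.card_image_of_injective _ hinj]
    apply near_count hK
    intro x hx
    rw [Finset.mem_image] at hx
    obtain ⟨β, hβ, rfl⟩ := hx
    rw [Finset.mem_filter] at hβ
    obtain ⟨hβs, hβg⟩ := hβ
    have hspan : Ideal.span {β} = Ideal.span {β₀} := congrArg Prod.fst hβg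
    have hbox : bx β = bx β₀ := congrArg Prod.snd hβg
    constructor
    · obtain ⟨c, hc⟩ := Ideal.mem_span_singleton'.1 (hspan ▸ Ideal.mem_span_singleton_self β)
      have h1 : (β : K) / (β₀ : K) = (c : K) := by
        rw [div_eq_iff h0K, ← map_mul, hc]
      rw [h1]
      exact RingOfIntegers.isIntegral_coe c
    · intro σ
      set τ : K →ₐ[ℚ] ℂ := RingHom.equivRatAlgHom K ℂ σ with hτ
      have hτσ : ∀ z : K, τ z = σ z := fun z => rfl
      have h1 := congrFun hbox τ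
      simp only [hbx] at h1
      have h2 := (two_pow_floor (hσne β hβs τ)).2
      have h3 := (two_pow_floor (hσne β₀ hβ₀ τ)).1
      rw [h1] at h2
      rw [map_div₀, norm_div, ← hτσ, ← hτσ, div_le_iff₀ (hσne β₀ hβ₀ τ)]
      linarith)
  refine hcard.trans (Nat.mul_le_mul_left _ ?_)
  refine (Finset.card_le_card himg).trans ?_
  rw [Finset.card_product]
  apply Nat.mul_le_mul hDcard
  rw [Fintype.card_piFinset, Finset.prod_const, Finset.card_univ, AlgHom.card, hK, Int.card_Icc]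
  apply Nat.pow_le_pow_left
  omega

/-- the pairs `(u, v)` with a given value of the norm form -/
theorem pair_count (hK : Module.finrank ℚ K = 3) {ρ : 𝓞 K}
    (hρ : ∀ r : ℚ, (ρ : K) ≠ algebraMap ℚ K r) {p q : ℤ} (h : ρ ^ 3 = p * ρ + q) {M U : ℝ}
    (hM : 1 ≤ M) (hU : 1 ≤ U) (hσ : ∀ σ : K →+* ℂ, ‖σ (ρ : K)‖ ≤ M) {m : ℕ} (hm : 1 ≤ m)
    (s : Finset (ℤ × ℤ)) (hs : ∀ x ∈ s, |(x.1 : ℝ)| ≤ U ∧ |(x.2 : ℝ)| ≤ U ∧
      (G p q x.1 (3 * x.2)).natAbs = m) :
    s.card ≤ 3 * 49 ^ 4 * (m.divisors.card ^ 3 * (3 * ⌈Real.logb 2 (4 * U * M)⌉₊ + 1) ^ 3) := by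
  classical
  have hcub : Cub K ρ p q := ⟨hK, hρ, h⟩
  set f : ℤ × ℤ → 𝓞 K := fun x => (x.1 : 𝓞 K) - ((3 * x.2 : ℤ) : 𝓞 K) * ρ with hf
  have hinj : Set.InjOn f s := by
    intro x _ y _ hxy
    have h1 : ((x.1 - y.1 : ℤ) : 𝓞 K) + ((3 * y.2 - 3 * x.2 : ℤ) : 𝓞 K) * ρ +
        ((0 : ℤ) : 𝓞 K) * ρ ^ 2 = 0 := by
      have h2 : f x - f y = 0 := by rw [hxy, sub_self]
      rw [hf] at h2
      simp only at h2
      push_cast at h2 ⊢
      linear_combination h2
    obtain ⟨h2, h3, -⟩ := Pool.Agent.W721.CF.indep hcub _ _ _ h1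
    ext
    · omega
    · omega
  rw [← Finset.card_image_of_injOn hinj]
  apply norm_count hK hm (by nlinarith)
  intro β hβ
  rw [Finset.mem_image] at hβ
  obtain ⟨x, hx, rfl⟩ := hβ
  obtain ⟨h1, h2, h3⟩ := hs x hx
  constructor
  · rw [hf]
    simp only
    rw [Pool.Agent.W721.CF.t_NRM K ρ p q hcub x.1 (3 * x.2)]
    exact h3
  · intro σ
    have e : ((f x : 𝓞 K) : K) = (x.1 : K) - ((3 * x.2 : ℤ) : K) * (ρ : K) := by
      rw [hf]
      simp only [map_sub, map_mul, map_intCast]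
    rw [e, map_sub, map_mul, map_intCast, map_intCast]
    calc ‖(x.1 : ℂ) - ((3 * x.2 : ℤ) : ℂ) * σ (ρ : K)‖
        ≤ ‖(x.1 : ℂ)‖ + ‖((3 * x.2 : ℤ) : ℂ) * σ (ρ : K)‖ := norm_sub_le _ _
      _ = |(x.1 : ℝ)| + |((3 * x.2 : ℤ) : ℝ)| * ‖σ (ρ : K)‖ := by
          rw [norm_mul, Complex.norm_intCast, Complex.norm_intCast]
      _ = |(x.1 : ℝ)| + 3 * |(x.2 : ℝ)| * ‖σ (ρ : K)‖ := by
          push_cast
          rw [abs_mul, show |(3 : ℝ)| = 3 by norm_num]
      _ ≤ U + 3 * U * M := by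
          have := hσ σ
          gcongr
      _ ≤ 4 * U * M := by nlinarith

end Pool.Agent.Helper29S
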