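import Mathlib
import Pool.Agent.Helper29S.Fld
import Pool.Agent.Helper29S.Units
import Pool.Agent.W335.CF.RAD
import Pool.Agent.H510R2.Div

/-!
# The number of twist-reduced irreducible pairs with a given bound for the radical
-/

set_option autoImplicit false

namespace Pool.Agent.Helper29S

open NumberField Finset Pool.Agent.W4.CF

lemma ceil_log_le (ε : ℝ) (hε : 0 < ε) : ∃ C : ℝ, 0 < C ∧ ∀ L : ℝ, 1 ≤ L →
    ((3 * ⌈Real.logb 2 L⌉₊ + 1 : ℕ) : ℝ) ≤ C * L ^ ε := by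
  have hl2 : 0 < Real.log 2 := Real.log_pos (by norm_num)
  refine ⟨3 * (1 / (ε * Real.log 2)) + 4, by positivity, fun L hL => ?_⟩
  have h1 : 0 ≤ Real.logb 2 L := Real.logb_nonneg (by norm_num) hL
  have h2 := (Nat.ceil_lt_add_one h1).le
  have h3 : Real.logb 2 L ≤ 1 / (ε * Real.log 2) * L ^ ε := by
    have h4 := Real.log_le_rpow_div (x := L) (by linarith) hε
    rw [Real.logb, div_le_iff₀ hl2]
    calc Real.log L ≤ L ^ ε / ε := h4
      _ = 1 / (ε * Real.log 2) * L ^ ε * Real.log 2 := by field_simp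
  have h5 : 1 ≤ L ^ ε := Real.one_le_rpow hL hε.le
  push_cast
  calc 3 * (⌈Real.logb 2 L⌉₊ : ℝ) + 1 ≤ 3 * (1 / (ε * Real.log 2) * L ^ ε + 1) + 1 := by
        linarith
    _ = 3 * (1 / (ε * Real.log 2)) * L ^ ε + 4 := by ring
    _ ≤ 3 * (1 / (ε * Real.log 2)) * L ^ ε + 4 * L ^ ε := by linarith
    _ = (3 * (1 / (ε * Real.log 2)) + 4) * L ^ ε := by ring

/-- the square of the value of the norm form -/
lemma G_sq {a b p q u v : ℤ} (h0 : 4 * p ^ 3 - 27 * q ^ 2 ≠ 0)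
    (h1 : (4 * p ^ 3 - 27 * q ^ 2) ^ 2 * a = Fa p q u v)
    (h2 : (4 * p ^ 3 - 27 * q ^ 2) ^ 3 * b = Fb p q u v) :
    G p q u (3 * v) ^ 2 = (4 * p ^ 3 - 27 * q ^ 2) ^ 5 * Dsc a b := by
  have h3 := disc_uv p q u v
  rw [← h1, ← h2] at h3
  have h4 : (4 * p ^ 3 - 27 * q ^ 2) * G p q u (3 * v) ^ 2 =
      (4 * p ^ 3 - 27 * q ^ 2) * ((4 * p ^ 3 - 27 * q ^ 2) ^ 5 * Dsc a b) := by
    rw [← h3]
    unfold Dsc
    ring
  exact mul_left_cancel₀ h0 h4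

lemma radp_le {n m k : ℕ} (hn : n ≠ 0) (h : ∀ p : ℕ, p.Prime → p ∣ m → ¬ p ∣ 6 * k → p ∣ n) :
    radp (6 * k) m ≤ radp 6 n := by
  unfold radp
  apply Finset.prod_le_prod_of_subset_of_one_le'
  · intro p hp
    rw [Finset.mem_filter, Nat.mem_primeFactors] at hp ⊢
    obtain ⟨⟨hp1, hp2, -⟩, hp3⟩ := hp
    exact ⟨⟨hp1, h p hp1 hp2 hp3, hn⟩, fun h6 => hp3 (h6.mul_right k)⟩
  · intro p hp _
    exact (Nat.prime_of_mem_primeFactors (Finset.mem_filter.1 hp).1).one_le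

lemma few_m (ε : ℝ) (hε : 0 < ε) : ∃ C : ℝ, 0 < C ∧ ∀ (W N : ℕ) (R : ℝ), 1 ≤ W → 1 ≤ N → 0 < R →
    ∀ s : Finset ℕ, (∀ m ∈ s, 1 ≤ m ∧ m ≤ N ∧ (radp W m : ℝ) ≤ R) →
      (s.card : ℝ) ≤ C * R * ((W : ℝ) * N) ^ ε := by
  obtain ⟨C, hC, h⟩ := Pool.W335.CF.t_RAD ε hε
  refine ⟨C, hC, fun W N R hW hN hR s hs => ?_⟩
  have h1 : (s.card : ℝ) * (1 / R) ≤ ∑ n ∈ Icc 1 N, (1 : ℝ) / (radp W n : ℝ) := by
    rw [← nsmul_eq_mul, ← Finset.sum_const]
    calc ∑ _m ∈ s, 1 / R ≤ ∑ m ∈ s, (1 : ℝ) / (radp W m : ℝ) := by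
          apply Finset.sum_le_sum
          intro m hm
          have hp : (0 : ℝ) < radp W m := by exact_mod_cast Pool.W335.CF.radp_pos W m
          exact one_div_le_one_div_of_le hp (hs m hm).2.2
      _ ≤ ∑ n ∈ Icc 1 N, (1 : ℝ) / (radp W n : ℝ) := by
          apply Finset.sum_le_sum_of_subset_of_nonneg
          · intro m hm
            exact Finset.mem_Icc.2 ⟨(hs m hm).1, (hs m hm).2.1⟩
          · intro m _ _
            positivity
  have h2 := h1.trans (h W N hW hN)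
  calc (s.card : ℝ) = (s.card : ℝ) * (1 / R) * R := by field_simp
    _ ≤ C * ((W : ℝ) * N) ^ ε * R := mul_le_mul_of_nonneg_right h2 hR.le
    _ = C * R * ((W : ℝ) * N) ^ ε := by ring

/-- integers in an interval -/
lemma card_int_le (s : Finset ℤ) {X : ℝ} (hX : 1 ≤ X) (hs : ∀ n ∈ s, |(n : ℝ)| ≤ X) :
    (s.card : ℝ) ≤ 3 * X := by
  have h1 : s ⊆ Finset.Icc (-(⌊X⌋₊ : ℤ)) ⌊X⌋₊ := by
    intro n hn
    have h2 := hs n hn
    have h3 : (n.natAbs : ℝ) ≤ X := by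
      rw [Nat.cast_natAbs]; push_cast; exact h2
    have h4 : n.natAbs ≤ ⌊X⌋₊ := Nat.le_floor h3
    rw [Finset.mem_Icc]
    omega
  have h2 := Finset.card_le_card h1
  rw [Int.card_Icc] at h2
  have h3 : ((s.card : ℕ) : ℝ) ≤ ((2 * ⌊X⌋₊ + 1 : ℕ) : ℝ) := by
    have : s.card ≤ 2 * ⌊X⌋₊ + 1 := by omega
    exact_mod_cast this
  push_cast at h3
  have h4 : ((⌊X⌋₊ : ℕ) : ℝ) ≤ X := Nat.floor_le (by linarith)
  linarith

/-- a real form of the bound by fibres -/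
lemma card_fib {α β : Type} [DecidableEq α] [DecidableEq β] (f : α → β) (s : Finset α) {b : ℝ}
    (hb : 0 ≤ b) (h : ∀ c ∈ s.image f, ((s.filter fun a => f a = c).card : ℝ) ≤ b) :
    (s.card : ℝ) ≤ b * ((s.image f).card : ℝ) := by
  have h1 := Finset.card_eq_sum_card_image f s
  rw [h1]
  push_cast
  calc ∑ c ∈ s.image f, ((s.filter fun a => f a = c).card : ℝ) ≤ ∑ _c ∈ s.image f, b :=
        Finset.sum_le_sum h
    _ = b * ((s.image f).card : ℝ) := by rw [Finset.sum_const, nsmul_eq_mul, mul_comm]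

/-- the bound for the irreducible pairs -/
theorem count_irr (ε : ℝ) (hε : 0 < ε) : ∃ C : ℝ, 0 < C ∧ ∀ R Y : ℝ, 1 ≤ R → 1 ≤ Y →
    ∀ s : Finset (ℤ × ℤ), (∀ x ∈ s, Red x.1 x.2 ∧ Dsc x.1 x.2 ≠ 0 ∧
      (∀ r : ℚ, r ^ 3 - x.1 * r - x.2 ≠ 0) ∧ |(x.1 : ℝ)| ≤ Y ∧ |(x.2 : ℝ)| ≤ Y ∧
      (radp 6 (Dsc x.1 x.2).natAbs : ℝ) ≤ R) →
    (s.card : ℝ) ≤ C * R ^ ((7 : ℝ) / 2) * Y ^ ε := by
  classical
  set e : ℝ := ε / 160 with he
  have he0 : 0 < e := by positivity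
  obtain ⟨C1, hC1, hdiv⟩ := Pool.Agent.H510R2.divisor_bound e he0
  obtain ⟨C2, hC2, hlog⟩ := ceil_log_le e he0
  obtain ⟨C3, hC3, hfew⟩ := few_m e he0
  obtain ⟨E, hE1, hE⟩ : ∃ E : ℝ, 1 ≤ E ∧
      4 * (54 * 47 ^ 2) ^ 3 + 27 * (540 * 47 ^ 3) ^ 2 ≤ E := ⟨_, by norm_num, le_rfl⟩
  obtain ⟨F, hF1, hF⟩ : ∃ F : ℝ, 1 ≤ F ∧ 648 * (6 * 47) ^ 6 ≤ F := ⟨_, by norm_num, le_rfl⟩
  obtain ⟨A, hA1, hA2, hA3, hA4⟩ : ∃ A : ℝ, 1 ≤ A ∧ 6 * E ^ 3 ≤ A ∧ 6 * E ≤ A ∧ F ≤ A := by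
    refine ⟨6 * E ^ 3 + 6 * E + F, ?_, ?_, ?_, ?_⟩
    · have : 0 ≤ E ^ 3 := by positivity
      linarith
    · linarith
    · have : 0 ≤ E ^ 3 := by positivity
      linarith
    · have : 0 ≤ E ^ 3 := by positivity
      linarith
  set b1 : ℝ := 3 * 49 ^ 4 * (C1 ^ 3 * C2 ^ 3) with hb1
  set b3 : ℝ := 3 * (54 * 47 ^ 2) * (3 * (540 * 47 ^ 3)) with hb3
  refine ⟨9 + b1 * C3 * b3 * A ^ (8 * e), by positivity, fun R Y hR hY s hs => ?_⟩
  have hR0 : 0 < R := by linarith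
  have hY0 : 0 < Y := by linarith
  have hYe : 1 ≤ Y ^ ε := Real.one_le_rpow hY hε.le
  have hR72 : 0 < R ^ ((7 : ℝ) / 2) := by positivity
  have hsecond : 0 ≤ b1 * C3 * b3 * A ^ (8 * e) := by positivity
  rcases lt_or_ge Y R with hRY | hRY
  · -- the trivial bound
    have h1 : (s.card : ℝ) ≤ 3 * Y * ((s.image Prod.fst).card : ℝ) := by
      apply card_fib Prod.fst s (by positivity)
      intro c _
      have h2 : Set.InjOn Prod.snd ((s.filter fun x => x.1 = c : Finset (ℤ × ℤ)) : Set (ℤ × ℤ)) := by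
        intro x hx y hy hxy
        rw [Finset.mem_coe, Finset.mem_filter] at hx hy
        exact Prod.ext (hx.2.trans hy.2.symm) hxy
      rw [← Finset.card_image_of_injOn h2]
      apply card_int_le _ hY
      intro n hn
      rw [Finset.mem_image] at hn
      obtain ⟨x, hx, rfl⟩ := hn
      exact (hs x (Finset.mem_filter.1 hx).1).2.2.2.2.1
    have h2 : ((s.image Prod.fst).card : ℝ) ≤ 3 * Y := by
      apply card_int_le _ hY
      intro n hn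
      rw [Finset.mem_image] at hn
      obtain ⟨x, hx, rfl⟩ := hn
      exact (hs x hx).2.2.2.1
    have h3 : Y ^ 2 ≤ R ^ ((7 : ℝ) / 2) := by
      calc Y ^ 2 ≤ R ^ 2 := by gcongr
        _ = R ^ (2 : ℝ) := (Real.rpow_two R).symm
        _ ≤ R ^ ((7 : ℝ) / 2) := Real.rpow_le_rpow_of_exponent_le hR (by norm_num)
    calc (s.card : ℝ) ≤ 3 * Y * (3 * Y) := h1.trans (by gcongr)
      _ = 9 * Y ^ 2 := by ring
      _ ≤ 9 * R ^ ((7 : ℝ) / 2) := by linarith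
      _ ≤ (9 + b1 * C3 * b3 * A ^ (8 * e)) * R ^ ((7 : ℝ) / 2) := by
          apply mul_le_mul_of_nonneg_right _ hR72.le
          linarith
      _ ≤ (9 + b1 * C3 * b3 * A ^ (8 * e)) * R ^ ((7 : ℝ) / 2) * Y ^ ε :=
          le_mul_of_one_le_right (by positivity) hYe
  -- the main case
  have hsR : √R ≤ Y := by
    rw [Real.sqrt_le_left hY0.le]
    nlinarith
  have hsR1 : 1 ≤ √R := Real.one_le_sqrt.2 hR
  have hsR0 : 0 < √R := by linarith
  set L : ℝ := A * Y ^ 20 with hL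
  have hYp : ∀ {i j : ℕ}, i ≤ j → Y ^ i ≤ Y ^ j := fun h => pow_le_pow_right₀ hY h
  have hL1 : 1 ≤ L := by
    rw [hL]
    exact one_le_mul_of_one_le_of_one_le hA1 (one_le_pow₀ hY)
  have hL0 : 0 < L := by linarith
  have hdat : ∀ x ∈ s, ∃ d : ℤ × ℤ × ℤ × ℤ, Dat R Y x d.1 d.2.1 d.2.2.1 d.2.2.2 := by
    intro x hx
    obtain ⟨h1, h2, h3, h4, h5, h6⟩ := hs x hx
    obtain ⟨p, q, u, v, h⟩ := exists_dat hR hY x h1 h2 h3 h4 h5 h6
    exact ⟨(p, q, u, v), h⟩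
  choose! d hd using hdat
  set mm : ℤ × ℤ → ℕ := fun x => (G (d x).1 (d x).2.1 (d x).2.2.1 (3 * (d x).2.2.2)).natAbs
    with hmm
  set P : ℤ × ℤ → (ℤ × ℤ) × ℕ := fun x => (((d x).1, (d x).2.1), mm x) with hP
  -- facts
  have hD0b : ∀ x ∈ s, ((4 * (d x).1 ^ 3 - 27 * (d x).2.1 ^ 2 : ℤ).natAbs : ℝ) ≤ E * Y ^ 3 := by
    intro x hx
    obtain ⟨-, -, -, -, g5, g6, -, -⟩ := hd x hx
    rw [Nat.cast_natAbs]
    push_cast
    calc |4 * ((d x).1 : ℝ) ^ 3 - 27 * ((d x).2.1 : ℝ) ^ 2|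
        ≤ |4 * ((d x).1 : ℝ) ^ 3| + |27 * ((d x).2.1 : ℝ) ^ 2| := abs_sub _ _
      _ = 4 * |((d x).1 : ℝ)| ^ 3 + 27 * |((d x).2.1 : ℝ)| ^ 2 := by
          rw [abs_mul, abs_mul, abs_pow, abs_pow]
          norm_num
      _ ≤ 4 * (54 * (47 * √R) ^ 2) ^ 3 + 27 * (540 * (47 * √R) ^ 3) ^ 2 := by gcongr
      _ = (4 * (54 * 47 ^ 2) ^ 3 + 27 * (540 * 47 ^ 3) ^ 2) * ((√R) ^ 2) ^ 3 := by ring
      _ = (4 * (54 * 47 ^ 2) ^ 3 + 27 * (540 * 47 ^ 3) ^ 2) * R ^ 3 := by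
          rw [Real.sq_sqrt hR0.le]
      _ ≤ E * Y ^ 3 := by gcongr
  have hDb : ∀ x ∈ s, ((Dsc x.1 x.2).natAbs : ℝ) ≤ 31 * Y ^ 3 := by
    intro x hx
    obtain ⟨-, -, -, g4, g5, -⟩ := hs x hx
    rw [Nat.cast_natAbs]
    unfold Dsc
    push_cast
    calc |4 * (x.1 : ℝ) ^ 3 - 27 * (x.2 : ℝ) ^ 2|
        ≤ |4 * (x.1 : ℝ) ^ 3| + |27 * (x.2 : ℝ) ^ 2| := abs_sub _ _
      _ = 4 * |(x.1 : ℝ)| ^ 3 + 27 * |(x.2 : ℝ)| ^ 2 := by
          rw [abs_mul, abs_mul, abs_pow, abs_pow]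
          norm_num
      _ ≤ 4 * Y ^ 3 + 27 * Y ^ 2 := by gcongr
      _ ≤ 31 * Y ^ 3 := by nlinarith [hYp (show 2 ≤ 3 by norm_num)]
  have hmsq : ∀ x ∈ s, mm x ^ 2 =
      (4 * (d x).1 ^ 3 - 27 * (d x).2.1 ^ 2 : ℤ).natAbs ^ 5 * (Dsc x.1 x.2).natAbs := by
    intro x hx
    obtain ⟨-, g2, g3, g4, -, -, -, -⟩ := hd x hx
    have h1 := congrArg Int.natAbs (G_sq g2 g3 g4)
    rw [Int.natAbs_pow, Int.natAbs_mul, Int.natAbs_pow] at h1
    exact h1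
  have hm1 : ∀ x ∈ s, 1 ≤ mm x := by
    intro x hx
    obtain ⟨-, g2, -⟩ := hd x hx
    have h1 := hmsq x hx
    have h2 : 0 < mm x ^ 2 := by
      rw [h1]
      have h3 := Int.natAbs_pos.2 g2
      have h4 := Int.natAbs_pos.2 (hs x hx).2.1
      positivity
    exact Nat.pos_of_ne_zero (by rintro h; rw [h] at h2; simp at h2)
  have hmL : ∀ x ∈ s, (mm x : ℝ) ≤ L := by
    intro x hx
    have h1 : ((mm x : ℝ)) ^ 2 = ((4 * (d x).1 ^ 3 - 27 * (d x).2.1 ^ 2 : ℤ).natAbs : ℝ) ^ 5 *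
        ((Dsc x.1 x.2).natAbs : ℝ) := by exact_mod_cast hmsq x hx
    have h2 : (mm x : ℝ) ^ 2 ≤ (6 * E ^ 3 * Y ^ 9) ^ 2 := by
      rw [h1]
      calc ((4 * (d x).1 ^ 3 - 27 * (d x).2.1 ^ 2 : ℤ).natAbs : ℝ) ^ 5 *
          ((Dsc x.1 x.2).natAbs : ℝ) ≤ (E * Y ^ 3) ^ 5 * (31 * Y ^ 3) := by
            have := hD0b x hx
            have := hDb x hx
            gcongr
        _ = 31 * E ^ 5 * Y ^ 18 := by ring
        _ ≤ 36 * E ^ 6 * Y ^ 18 := by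
            have h3 : E ^ 5 ≤ E ^ 6 := pow_le_pow_right₀ hE1 (by norm_num)
            gcongr
            norm_num
        _ = (6 * E ^ 3 * Y ^ 9) ^ 2 := by ring
    have h3 : (mm x : ℝ) ≤ 6 * E ^ 3 * Y ^ 9 :=
      le_of_sq_le_sq h2 (by positivity)
    calc (mm x : ℝ) ≤ 6 * E ^ 3 * Y ^ 9 := h3
      _ ≤ A * Y ^ 20 := by
          have := hYp (show 9 ≤ 20 by norm_num)
          gcongr
  have hmrad : ∀ x ∈ s, (radp (6 * (4 * (d x).1 ^ 3 - 27 * (d x).2.1 ^ 2 : ℤ).natAbs) (mm x) : ℝ)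
      ≤ R := by
    intro x hx
    refine le_trans ?_ (hs x hx).2.2.2.2.2
    have h1 := radp_le (n := (Dsc x.1 x.2).natAbs) (m := mm x)
      (k := (4 * (d x).1 ^ 3 - 27 * (d x).2.1 ^ 2 : ℤ).natAbs)
      (Int.natAbs_ne_zero.2 (hs x hx).2.1) (by
        intro p hp hpm hpk
        have h2 : p ∣ mm x ^ 2 := hpm.trans (dvd_pow_self _ (by norm_num))
        rw [hmsq x hx] at h2
        rcases (Nat.Prime.dvd_mul hp).1 h2 with h3 | h3
        · exact absurd ((hp.dvd_of_dvd_pow h3).mul_left 6) hpk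
        · exact h3)
    exact_mod_cast h1
  -- step 1
  have hstep1 : (s.card : ℝ) ≤ b1 * L ^ (6 * e) * ((s.image P).card : ℝ) := by
    apply card_fib P s (by positivity)
    intro c hc
    rw [Finset.mem_image] at hc
    obtain ⟨x₀, hx₀, hPx⟩ := hc
    set T := s.filter fun x => P x = c with hT
    have hTs : ∀ x ∈ T, x ∈ s ∧ (d x).1 = (d x₀).1 ∧ (d x).2.1 = (d x₀).2.1 ∧ mm x = mm x₀ := by
      intro x hx
      rw [hT, Finset.mem_filter] at hx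
      obtain ⟨h1, h2⟩ := hx
      rw [← hPx, hP] at h2
      simp only [Prod.mk.injEq] at h2
      exact ⟨h1, h2.1.1, h2.1.2, h2.2⟩
    set g : ℤ × ℤ → ℤ × ℤ := fun x => ((d x).2.2.1, (d x).2.2.2) with hg
    have hinj : Set.InjOn g T := by
      intro x hx y hy hxy
      obtain ⟨hxs, x1, x2, -⟩ := hTs x hx
      obtain ⟨hys, y1, y2, -⟩ := hTs y hy
      rw [hg] at hxy
      simp only [Prod.mk.injEq] at hxy
      obtain ⟨-, g2, g3, g4, -⟩ := hd x hxs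
      obtain ⟨-, k2, k3, k4, -⟩ := hd y hys
      rw [x1, x2, hxy.1, hxy.2] at g3 g4
      rw [y1, y2] at k2 k3 k4
      have e1 : x.1 = y.1 := by
        have := g3.trans k3.symm
        exact mul_left_cancel₀ (pow_ne_zero 2 k2) this
      have e2 : x.2 = y.2 := by
        have := g4.trans k4.symm
        exact mul_left_cancel₀ (pow_ne_zero 3 k2) this
      exact Prod.ext e1 e2
    rw [← Finset.card_image_of_injOn hinj]
    obtain ⟨⟨K, iF, iN, ρ, hK, hρ, hρ3, hρB⟩, -⟩ := hd x₀ hx₀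
    have hU1 : 1 ≤ 81 * (2 * Y) * (6 * (47 * √R)) ^ 5 := by
      have h1 : (1 : ℝ) ≤ 6 * (47 * √R) := by linarith
      have h2 : (1 : ℝ) ≤ (6 * (47 * √R)) ^ 5 := one_le_pow₀ h1
      nlinarith
    have hpc := pair_count hK hρ hρ3 (M := 6 * (47 * √R)) (U := 81 * (2 * Y) * (6 * (47 * √R)) ^ 5)
      (by linarith) hU1 hρB (hm1 x₀ hx₀) (T.image g) (by
        intro y hy
        rw [Finset.mem_image] at hy
        obtain ⟨x, hx, rfl⟩ := hy
        obtain ⟨hxs, x1, x2, x3⟩ := hTs x hx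
        obtain ⟨-, -, -, -, -, -, g7, g8⟩ := hd x hxs
        refine ⟨g7, g8, ?_⟩
        rw [← x3, hmm]
        simp only [hg]
        rw [x1, x2])
    have hpc' : ((T.image g).card : ℝ) ≤ 3 * 49 ^ 4 * (((mm x₀).divisors.card : ℝ) ^ 3 *
        ((3 * ⌈Real.logb 2 (4 * (81 * (2 * Y) * (6 * (47 * √R)) ^ 5) *
          (6 * (47 * √R)))⌉₊ + 1 : ℕ) : ℝ) ^ 3) := by exact_mod_cast hpc
    refine hpc'.trans ?_
    have hUM : 4 * (81 * (2 * Y) * (6 * (47 * √R)) ^ 5) * (6 * (47 * √R)) ≤ L := by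
      calc 4 * (81 * (2 * Y) * (6 * (47 * √R)) ^ 5) * (6 * (47 * √R))
          = 648 * (6 * 47) ^ 6 * (Y * (√R) ^ 6) := by ring
        _ ≤ F * (Y * Y ^ 6) := by gcongr
        _ = F * Y ^ 7 := by ring
        _ ≤ A * Y ^ 20 := by
            have := hYp (show 7 ≤ 20 by norm_num)
            gcongr
    have hlg : ((3 * ⌈Real.logb 2 (4 * (81 * (2 * Y) * (6 * (47 * √R)) ^ 5) *
          (6 * (47 * √R)))⌉₊ + 1 : ℕ) : ℝ) ≤ C2 * L ^ e := by
      refine le_trans ?_ (hlog L hL1)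
      have h1 : Real.logb 2 (4 * (81 * (2 * Y) * (6 * (47 * √R)) ^ 5) * (6 * (47 * √R))) ≤
          Real.logb 2 L := Real.logb_le_logb_of_le (by norm_num) (by positivity) hUM
      have h2 := Nat.ceil_mono h1
      have h3 : 3 * ⌈Real.logb 2 (4 * (81 * (2 * Y) * (6 * (47 * √R)) ^ 5) *
          (6 * (47 * √R)))⌉₊ + 1 ≤ 3 * ⌈Real.logb 2 L⌉₊ + 1 := by omega
      exact_mod_cast h3
    have hdv : ((mm x₀).divisors.card : ℝ) ≤ C1 * L ^ e := by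
      refine (hdiv _ (hm1 x₀ hx₀)).trans ?_
      apply mul_le_mul_of_nonneg_left _ hC1.le
      exact Real.rpow_le_rpow (Nat.cast_nonneg _) (hmL x₀ hx₀) he0.le
    calc 3 * 49 ^ 4 * (((mm x₀).divisors.card : ℝ) ^ 3 *
        ((3 * ⌈Real.logb 2 (4 * (81 * (2 * Y) * (6 * (47 * √R)) ^ 5) *
          (6 * (47 * √R)))⌉₊ + 1 : ℕ) : ℝ) ^ 3)
        ≤ 3 * 49 ^ 4 * ((C1 * L ^ e) ^ 3 * (C2 * L ^ e) ^ 3) := by gcongr
      _ = 3 * 49 ^ 4 * (C1 ^ 3 * C2 ^ 3) * (L ^ e) ^ 6 := by ring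
      _ = b1 * L ^ (6 * e) := by
          rw [← Real.rpow_natCast (L ^ e) 6, ← Real.rpow_mul hL0.le, hb1]
          congr 2
          push_cast
          ring
  -- step 2
  have hstep2 : ((s.image P).card : ℝ) ≤ C3 * R * L ^ (2 * e) *
      (((s.image P).image Prod.fst).card : ℝ) := by
    apply card_fib Prod.fst (s.image P) (by positivity)
    intro c hc
    rw [Finset.mem_image] at hc
    obtain ⟨y, hy, hyc⟩ := hc
    rw [Finset.mem_image] at hy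
    obtain ⟨x₀, hx₀, rfl⟩ := hy
    set W : ℕ := 6 * (4 * (d x₀).1 ^ 3 - 27 * (d x₀).2.1 ^ 2 : ℤ).natAbs with hW
    have hW1 : 1 ≤ W := by
      have := Int.natAbs_pos.2 (hd x₀ hx₀).2.1
      omega
    have hinj : Set.InjOn Prod.snd (((s.image P).filter fun a => a.1 = c :
        Finset ((ℤ × ℤ) × ℕ)) : Set ((ℤ × ℤ) × ℕ)) := by
      intro a ha b hb hab
      rw [Finset.mem_coe, Finset.mem_filter] at ha hb
      exact Prod.ext (ha.2.trans hb.2.symm) hab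
    rw [← Finset.card_image_of_injOn hinj]
    have hN1 : 1 ≤ ⌊L⌋₊ := Nat.le_floor (by exact_mod_cast hL1)
    refine (hfew W ⌊L⌋₊ R hW1 hN1 hR0 _ ?_).trans ?_
    · intro m hm
      rw [Finset.mem_image] at hm
      obtain ⟨a, ha, rfl⟩ := hm
      rw [Finset.mem_filter, Finset.mem_image] at ha
      obtain ⟨⟨x, hx, rfl⟩, hxc⟩ := ha
      refine ⟨hm1 x hx, Nat.le_floor (hmL x hx), ?_⟩
      rw [← hyc] at hxc
      simp only [hP, Prod.mk.injEq] at hxc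
      have h1 := hmrad x hx
      rw [hxc.1, hxc.2] at h1
      exact h1
    · have h1 : (W : ℝ) ≤ L := by
        rw [hW]
        push_cast [-Nat.cast_natAbs]
        have h2 := hD0b x₀ hx₀
        calc 6 * ((4 * (d x₀).1 ^ 3 - 27 * (d x₀).2.1 ^ 2 : ℤ).natAbs : ℝ) ≤ 6 * (E * Y ^ 3) := by
              linarith
          _ = 6 * E * Y ^ 3 := by ring
          _ ≤ A * Y ^ 20 := by
              have := hYp (show 3 ≤ 20 by norm_num)
              gcongr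
      have h2 : ((⌊L⌋₊ : ℕ) : ℝ) ≤ L := Nat.floor_le hL0.le
      have h3 : ((W : ℝ) * (⌊L⌋₊ : ℕ)) ^ e ≤ L ^ (2 * e) := by
        calc ((W : ℝ) * (⌊L⌋₊ : ℕ)) ^ e ≤ (L * L) ^ e := by
              apply Real.rpow_le_rpow (by positivity) _ he0.le
              gcongr
          _ = L ^ (2 * e) := by
              rw [Real.mul_rpow hL0.le hL0.le, ← Real.rpow_add hL0]
              congr 1
              ring
      gcongr
  -- step 3
  have hstep3 : (((s.image P).image Prod.fst).card : ℝ) ≤ b3 * R ^ ((5 : ℝ) / 2) := by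
    set Q := (s.image P).image Prod.fst with hQ
    have hQb : ∀ c ∈ Q, |(c.1 : ℝ)| ≤ 54 * (47 * √R) ^ 2 ∧ |(c.2 : ℝ)| ≤ 540 * (47 * √R) ^ 3 := by
      intro c hc
      rw [hQ, Finset.mem_image] at hc
      obtain ⟨y, hy, rfl⟩ := hc
      rw [Finset.mem_image] at hy
      obtain ⟨x, hx, rfl⟩ := hy
      obtain ⟨-, -, -, -, g5, g6, -, -⟩ := hd x hx
      exact ⟨g5, g6⟩
    have hs3 : 1 ≤ (47 * √R) ^ 3 := one_le_pow₀ (by linarith)
    have hs2 : 1 ≤ (47 * √R) ^ 2 := one_le_pow₀ (by linarith)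
    have h1 : (Q.card : ℝ) ≤ 3 * (540 * (47 * √R) ^ 3) * ((Q.image Prod.fst).card : ℝ) := by
      apply card_fib Prod.fst Q (by positivity)
      intro c _
      have h2 : Set.InjOn Prod.snd ((Q.filter fun x => x.1 = c : Finset (ℤ × ℤ)) : Set (ℤ × ℤ)) := by
        intro x hx y hy hxy
        rw [Finset.mem_coe, Finset.mem_filter] at hx hy
        exact Prod.ext (hx.2.trans hy.2.symm) hxy
      rw [← Finset.card_image_of_injOn h2]
      apply card_int_le _ (by linarith)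
      intro n hn
      rw [Finset.mem_image] at hn
      obtain ⟨x, hx, rfl⟩ := hn
      exact (hQb x (Finset.mem_filter.1 hx).1).2
    have h2 : ((Q.image Prod.fst).card : ℝ) ≤ 3 * (54 * (47 * √R) ^ 2) := by
      apply card_int_le _ (by linarith)
      intro n hn
      rw [Finset.mem_image] at hn
      obtain ⟨x, hx, rfl⟩ := hn
      exact (hQb x hx).1
    have h3 : (√R) ^ 5 = R ^ ((5 : ℝ) / 2) := by
      rw [Real.sqrt_eq_rpow, ← Real.rpow_natCast, ← Real.rpow_mul hR0.le]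
      norm_num
    calc (Q.card : ℝ) ≤ 3 * (540 * (47 * √R) ^ 3) * (3 * (54 * (47 * √R) ^ 2)) :=
          h1.trans (by gcongr)
      _ = b3 * (√R) ^ 5 := by rw [hb3]; ring
      _ = b3 * R ^ ((5 : ℝ) / 2) := by rw [h3]
  have hfin : (s.card : ℝ) ≤ b1 * C3 * b3 * A ^ (8 * e) * R ^ ((7 : ℝ) / 2) * Y ^ ε := by
    calc (s.card : ℝ) ≤ b1 * L ^ (6 * e) * ((s.image P).card : ℝ) := hstep1
      _ ≤ b1 * L ^ (6 * e) * (C3 * R * L ^ (2 * e) * (b3 * R ^ ((5 : ℝ) / 2))) := by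
          have := hstep2.trans (mul_le_mul_of_nonneg_left hstep3 (by positivity))
          gcongr
      _ = b1 * C3 * b3 * (L ^ (6 * e) * L ^ (2 * e)) * (R * R ^ ((5 : ℝ) / 2)) := by ring
      _ = b1 * C3 * b3 * L ^ (8 * e) * R ^ ((7 : ℝ) / 2) := by
          rw [← Real.rpow_add hL0]
          have h5 : R * R ^ ((5 : ℝ) / 2) = R ^ ((7 : ℝ) / 2) := by
            conv_lhs => rw [← Real.rpow_one R, ← Real.rpow_mul hR0.le]
            rw [← Real.rpow_add hR0]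
            norm_num
          rw [h5]
          congr 3
          ring
      _ = b1 * C3 * b3 * A ^ (8 * e) * R ^ ((7 : ℝ) / 2) * Y ^ ε := by
          have h6 : L ^ (8 * e) = A ^ (8 * e) * Y ^ ε := by
            rw [hL, Real.mul_rpow (by linarith) (by positivity), ← Real.rpow_natCast Y 20,
              ← Real.rpow_mul hY0.le]
            congr 2
            rw [he]
            push_cast
            ring
          rw [h6]
          ring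
  refine hfin.trans ?_
  have h7 : 0 ≤ 9 * R ^ ((7 : ℝ) / 2) * Y ^ ε := by positivity
  linarith [h7, show (9 + b1 * C3 * b3 * A ^ (8 * e)) * R ^ ((7 : ℝ) / 2) * Y ^ ε =
    9 * R ^ ((7 : ℝ) / 2) * Y ^ ε + b1 * C3 * b3 * A ^ (8 * e) * R ^ ((7 : ℝ) / 2) * Y ^ ε by ring]

end Pool.Agent.Helper29S
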