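import Mathlib
import Pool.Agent.Helper29S.Loc
import Pool.Agent.R417.PI.Fam

/-!
# Minimal models and twist-reduced models; the invariant
-/

set_option autoImplicit false

namespace Pool.Agent.Helper29S

open Finset Pool.Agent.W4.CF
open Pool.Agent.H925R.Szpiro (D IsMin condS)

theorem prod_bound {n : ℕ} (hn : n ≠ 0) {α β γ : ℕ}
    (h2 : n.factorization 2 ≤ α) (h3 : n.factorization 3 ≤ β)
    (h5 : ∀ p : ℕ, p.Prime → 5 ≤ p → n.factorization p ≤ γ) :
    n ≤ 2 ^ α * 3 ^ β * (radp 6 n) ^ γ := by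
  classical
  have hpr : ∀ p ∈ n.primeFactors, p.Prime := fun p hp => Nat.prime_of_mem_primeFactors hp
  have h1 : n = ∏ p ∈ n.primeFactors, p ^ n.factorization p :=
    (Nat.prod_factorization_pow_eq_self hn).symm
  conv_lhs => rw [h1]
  rw [← Finset.prod_filter_mul_prod_filter_not n.primeFactors (fun p => p ∣ 6)]
  apply Nat.mul_le_mul
  · set c : ℕ → ℕ := fun p => if p = 2 then α else β with hc
    calc ∏ p ∈ n.primeFactors.filter (fun p => p ∣ 6), p ^ n.factorization p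
        ≤ ∏ p ∈ n.primeFactors.filter (fun p => p ∣ 6), p ^ c p := by
          apply Finset.prod_le_prod'
          intro p hp
          rw [Finset.mem_filter] at hp
          apply Nat.pow_le_pow_right (hpr p hp.1).pos
          have h6 : p ∈ Nat.primeFactors 6 :=
            Nat.mem_primeFactors.2 ⟨hpr p hp.1, hp.2, by norm_num⟩
          have h7 : Nat.primeFactors 6 = {2, 3} := by decide +kernel
          rw [h7, Finset.mem_insert, Finset.mem_singleton] at h6
          rcases h6 with rfl | rfl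
          · simpa [hc] using h2
          · simpa [hc] using h3
      _ ≤ ∏ p ∈ ({2, 3} : Finset ℕ), p ^ c p := by
          apply Finset.prod_le_prod_of_subset_of_one_le'
          · intro p hp
            rw [Finset.mem_filter] at hp
            have h5 : p ∈ Nat.primeFactors 6 :=
              Nat.mem_primeFactors.2 ⟨hpr p hp.1, hp.2, by norm_num⟩
            have h6 : Nat.primeFactors 6 = {2, 3} := by decide +kernel
            rw [h6] at h5
            exact h5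
          · intro p hp _
            rw [Finset.mem_insert, Finset.mem_singleton] at hp
            rcases hp with rfl | rfl
            · exact Nat.one_le_pow _ _ (by norm_num)
            · exact Nat.one_le_pow _ _ (by norm_num)
      _ = 2 ^ α * 3 ^ β := by
          rw [Finset.prod_pair (by norm_num)]
          simp [hc]
  · unfold radp
    rw [← Finset.prod_pow]
    apply Finset.prod_le_prod'
    intro p hp
    rw [Finset.mem_filter] at hp
    apply Nat.pow_le_pow_right (hpr p hp.1).pos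
    apply h5 p (hpr p hp.1)
    have h6 := (hpr p hp.1).two_le
    by_contra hcon
    push Not at hcon
    have hp' := hpr p hp.1
    interval_cases p
    · exact hp.2 (by norm_num)
    · exact hp.2 (by norm_num)
    · exact absurd hp' (by norm_num)

lemma radp_dvd_le {m n : ℕ} (h : m ∣ n) (hn : n ≠ 0) : radp 6 m ≤ radp 6 n := by
  unfold radp
  apply Finset.prod_le_prod_of_subset_of_one_le'
  · exact Finset.filter_subset_filter _ (Nat.primeFactors_mono h hn)
  · intro p hp _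
    exact (Nat.prime_of_mem_primeFactors (Finset.mem_filter.1 hp).1).one_le

lemma no5 {a b : ℤ} (hR : Red a b) {p : ℕ} (hp : p.Prime) (hp5 : 5 ≤ p) (ha : (p : ℤ) ∣ a)
    (hD : (p : ℤ) ^ 5 ∣ Dsc a b) : False := by
  have hp' : Prime (p : ℤ) := Nat.prime_iff_prime_int.mp hp
  have hn : ∀ c : ℕ, c < 5 → 0 < c → ¬ (p : ℤ) ∣ c := by
    intro c hc hc0 h
    have := Nat.le_of_dvd hc0 (Int.natCast_dvd_natCast.1 h)
    omega
  have h3 : ¬ (p : ℤ) ∣ 3 := hn 3 (by norm_num) (by norm_num)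
  have h27 : ∀ z : ℤ, (p : ℤ) ∣ 27 * z ^ 2 → (p : ℤ) ∣ z := by
    intro z hz
    rcases hp'.dvd_or_dvd hz with h | h
    · exact absurd (hp'.dvd_of_dvd_pow (show (p : ℤ) ∣ 3 ^ 3 by norm_num; exact h)) h3
    · exact hp'.dvd_of_dvd_pow h
  obtain ⟨a1, rfl⟩ := ha
  have hb : (p : ℤ) ∣ b := by
    apply h27
    have h5 : (p : ℤ) ∣ Dsc (p * a1) b := (dvd_pow_self _ (by omega)).trans hD
    have h12 : (p : ℤ) ∣ 4 * (p * a1) ^ 3 := ⟨4 * p ^ 2 * a1 ^ 3, by ring⟩
    have := dvd_sub h12 h5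
    simpa [Dsc] using this
  obtain ⟨b1, rfl⟩ := hb
  have e : Dsc (p * a1) (p * b1) = (p : ℤ) ^ 2 * (4 * p * a1 ^ 3 - 27 * b1 ^ 2) := by
    unfold Dsc; ring
  rw [e, show (p : ℤ) ^ 5 = (p : ℤ) ^ 2 * p ^ 3 by ring] at hD
  have h6 := (mul_dvd_mul_iff_left (pow_ne_zero 2 hp'.ne_zero)).1 hD
  have hb2 : (p : ℤ) ∣ b1 := by
    apply h27
    have h12 : (p : ℤ) ∣ 4 * p * a1 ^ 3 := ⟨4 * a1 ^ 3, by ring⟩
    have := dvd_sub h12 ((dvd_pow_self (p : ℤ) (by norm_num : (3 : ℕ) ≠ 0)).trans h6)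
    simpa using this
  obtain ⟨b2, rfl⟩ := hb2
  have e2 : 4 * (p : ℤ) * a1 ^ 3 - 27 * (p * b2) ^ 2 = p * (4 * a1 ^ 3 - 27 * p * b2 ^ 2) := by ring
  rw [e2, show (p : ℤ) ^ 3 = p * p ^ 2 by ring] at h6
  have h7 := (mul_dvd_mul_iff_left hp'.ne_zero).1 h6
  have h8 : (p : ℤ) ∣ a1 := by
    have h9 : (p : ℤ) ∣ 4 * a1 ^ 3 := by
      have h12 : (p : ℤ) ∣ 27 * p * b2 ^ 2 := ⟨27 * b2 ^ 2, by ring⟩
      have := dvd_add ((dvd_pow_self (p : ℤ) (by norm_num : (2 : ℕ) ≠ 0)).trans h7) h12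
      simpa using this
    rcases hp'.dvd_or_dvd h9 with h | h
    · exact absurd h (hn 4 (by norm_num) (by norm_num))
    · exact hp'.dvd_of_dvd_pow h
  obtain ⟨a2, rfl⟩ := h8
  have e3 : 4 * ((p : ℤ) * a2) ^ 3 - 27 * p * b2 ^ 2 = p * (4 * p ^ 2 * a2 ^ 3 - 27 * b2 ^ 2) := by
    ring
  rw [e3, show (p : ℤ) ^ 2 = p * p by ring] at h7
  have h10 := (mul_dvd_mul_iff_left hp'.ne_zero).1 h7
  have h11 : (p : ℤ) ∣ b2 := by
    apply h27
    have h12 : (p : ℤ) ∣ 4 * (p * p) * a2 ^ 3 := ⟨4 * p * a2 ^ 3, by ring⟩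
    have h13 := dvd_sub h12 h10
    have e4 : 4 * ((p : ℤ) * p) * a2 ^ 3 - (4 * (p * p) * a2 ^ 3 - 27 * b2 ^ 2) =
        27 * b2 ^ 2 := by ring
    rw [e4] at h13
    exact h13
  obtain ⟨b3, rfl⟩ := h11
  exact hR p hp ⟨a2, by ring⟩ ⟨b3, by ring⟩

lemma no2 {a b : ℤ} (hR : Red a b) (ha : (2 : ℤ) ∣ a) (h64 : (64 : ℤ) ∣ Dsc a b) : False := by
  have hbe : (2 : ℤ) ∣ b := by
    unfold Dsc at h64
    have h1 : (2 : ℤ) ∣ 27 * b ^ 2 := by omega
    rcases Int.prime_two.dvd_or_dvd h1 with h | h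
    · norm_num at h
    · exact Int.prime_two.dvd_of_dvd_pow h
  obtain ⟨b1, rfl⟩ := hbe
  obtain ⟨a1, rfl⟩ := ha
  have e : Dsc (2 * a1) (2 * b1) = 4 * (8 * a1 ^ 3 - 27 * b1 ^ 2) := by unfold Dsc; ring
  rw [e] at h64
  have h1 : (2 : ℤ) ∣ b1 := by
    have h2 : (2 : ℤ) ∣ 27 * b1 ^ 2 := by omega
    rcases Int.prime_two.dvd_or_dvd h2 with h | h
    · norm_num at h
    · exact Int.prime_two.dvd_of_dvd_pow h
  obtain ⟨b2, rfl⟩ := h1
  have e2 : 4 * (8 * a1 ^ 3 - 27 * (2 * b2) ^ 2) = 16 * (2 * a1 ^ 3 - 27 * b2 ^ 2) := by ring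
  rw [e2] at h64
  have h2 : (2 : ℤ) ∣ b2 := by
    have h2 : (2 : ℤ) ∣ 27 * b2 ^ 2 := by omega
    rcases Int.prime_two.dvd_or_dvd h2 with h | h
    · norm_num at h
    · exact Int.prime_two.dvd_of_dvd_pow h
  obtain ⟨b3, rfl⟩ := h2
  have e3 : 16 * (2 * a1 ^ 3 - 27 * (2 * b3) ^ 2) = 32 * (a1 ^ 3 - 54 * b3 ^ 2) := by ring
  rw [e3] at h64
  have h3 : (2 : ℤ) ∣ a1 := by
    have h3 : (2 : ℤ) ∣ a1 ^ 3 := by omega
    exact Int.prime_two.dvd_of_dvd_pow h3
  obtain ⟨a2, rfl⟩ := h3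
  exact hR 2 Nat.prime_two ⟨a2, by push_cast; ring⟩ ⟨b3, by push_cast; ring⟩

lemma no3 {a b : ℤ} (hR : Red a b) (ha : (9 : ℤ) ∣ a) (h8 : (6561 : ℤ) ∣ Dsc a b) : False := by
  obtain ⟨a2, rfl⟩ := ha
  have e : Dsc (9 * a2) b = 27 * (108 * a2 ^ 3 - b ^ 2) := by unfold Dsc; ring
  rw [e] at h8
  have h1 : (3 : ℤ) ∣ b := by
    have h2 : (3 : ℤ) ∣ b ^ 2 := by omega
    exact Int.prime_three.dvd_of_dvd_pow h2
  obtain ⟨b1, rfl⟩ := h1
  have e2 : 27 * (108 * a2 ^ 3 - (3 * b1) ^ 2) = 243 * (12 * a2 ^ 3 - b1 ^ 2) := by ring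
  rw [e2] at h8
  have h1 : (3 : ℤ) ∣ b1 := by
    have h2 : (3 : ℤ) ∣ b1 ^ 2 := by omega
    exact Int.prime_three.dvd_of_dvd_pow h2
  obtain ⟨b2, rfl⟩ := h1
  have e3 : 243 * (12 * a2 ^ 3 - (3 * b2) ^ 2) = 729 * (4 * a2 ^ 3 - 3 * b2 ^ 2) := by ring
  rw [e3] at h8
  have h2 : (3 : ℤ) ∣ a2 := by
    have h2 : (3 : ℤ) ∣ a2 ^ 3 := by omega
    exact Int.prime_three.dvd_of_dvd_pow h2
  obtain ⟨a3, rfl⟩ := h2
  have e4 : 729 * (4 * (3 * a3) ^ 3 - 3 * b2 ^ 2) = 2187 * (36 * a3 ^ 3 - b2 ^ 2) := by ring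
  rw [e4] at h8
  have h1 : (3 : ℤ) ∣ b2 := by
    have h2 : (3 : ℤ) ∣ b2 ^ 2 := by omega
    exact Int.prime_three.dvd_of_dvd_pow h2
  obtain ⟨b3, rfl⟩ := h1
  exact hR 3 Nat.prime_three ⟨3 * a3, by push_cast; ring⟩ ⟨b3, by push_cast; ring⟩

/-- the cancellation in the invariant of a twist-reduced model -/
theorem gcd_bound {a b : ℤ} (hR : Red a b) (hD : Dsc a b ≠ 0) :
    Int.gcd (6912 * a ^ 3) (Dsc a b) ≤ 559872 * (radp 6 (Dsc a b).natAbs) ^ 4 := by
  set g := Int.gcd (6912 * a ^ 3) (Dsc a b) with hg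
  have hg0 : g ≠ 0 := by
    rw [hg, Ne, Int.gcd_eq_zero_iff]
    exact fun h => hD h.2
  have hgD : g ∣ (Dsc a b).natAbs := by
    rw [hg]; exact Nat.gcd_dvd_right _ _
  have hpk : ∀ p k : ℕ, p ^ k ∣ g → (p : ℤ) ^ k ∣ 6912 * a ^ 3 ∧ (p : ℤ) ^ k ∣ Dsc a b := by
    intro p k h
    have h1 : ((p ^ k : ℕ) : ℤ) ∣ (g : ℤ) := Int.natCast_dvd_natCast.2 h
    have h2 : (g : ℤ) ∣ 6912 * a ^ 3 := Int.gcd_dvd_left _ _
    have h3 : (g : ℤ) ∣ Dsc a b := Int.gcd_dvd_right _ _
    push_cast at h1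
    exact ⟨h1.trans h2, h1.trans h3⟩
  have hfac : ∀ p k : ℕ, k < g.factorization p → p ^ (k + 1) ∣ g := fun p k h =>
    (pow_dvd_pow p h).trans (Nat.ordProj_dvd g p)
  have h1 := prod_bound hg0 (α := 8) (β := 7) (γ := 4) (by
    by_contra hcon
    push Not at hcon
    obtain ⟨e1, e2⟩ := hpk 2 9 (hfac 2 8 hcon)
    norm_num at e1 e2
    refine no2 hR ?_ ((by norm_num : (64 : ℤ) ∣ 512).trans e2)
    have e3 : (2 : ℤ) ∣ a ^ 3 := by omega
    exact Int.prime_two.dvd_of_dvd_pow e3) (by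
    by_contra hcon
    push Not at hcon
    obtain ⟨e1, e2⟩ := hpk 3 8 (hfac 3 7 hcon)
    norm_num at e1 e2
    refine no3 hR ?_ e2
    have e3 : (3 : ℤ) ∣ a := by
      have e3 : (3 : ℤ) ∣ a ^ 3 := by omega
      exact Int.prime_three.dvd_of_dvd_pow e3
    obtain ⟨a1, rfl⟩ := e3
    have e4 : (3 : ℤ) ∣ a1 := by
      have e5 : 6912 * (3 * a1) ^ 3 = 186624 * a1 ^ 3 := by ring
      rw [e5] at e1
      have e3 : (3 : ℤ) ∣ a1 ^ 3 := by omega
      exact Int.prime_three.dvd_of_dvd_pow e3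
    obtain ⟨a2, rfl⟩ := e4
    exact ⟨a2, by ring⟩) (by
    intro p hp hp5
    by_contra hcon
    push Not at hcon
    obtain ⟨e1, e2⟩ := hpk p 5 (hfac p 4 hcon)
    have hp' : Prime (p : ℤ) := Nat.prime_iff_prime_int.mp hp
    refine no5 hR hp hp5 ?_ e2
    have e3 : (p : ℤ) ∣ 6912 * a ^ 3 := (dvd_pow_self _ (by norm_num)).trans e1
    rcases hp'.dvd_or_dvd e3 with h | h
    · exfalso
      have h4 : p ∣ 6912 := by exact_mod_cast h
      have h5 : p ∈ Nat.primeFactors 6912 := Nat.mem_primeFactors.2 ⟨hp, h4, by norm_num⟩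
      have h6 : p ∣ 2 ^ 8 * 3 ^ 3 := by norm_num; exact h4
      rcases (Nat.Prime.dvd_mul hp).1 h6 with h7 | h7
      · have := Nat.le_of_dvd (by norm_num) (hp.dvd_of_dvd_pow h7); omega
      · have := Nat.le_of_dvd (by norm_num) (hp.dvd_of_dvd_pow h7); omega
    · exact hp'.dvd_of_dvd_pow h)
  calc g ≤ 2 ^ 8 * 3 ^ 7 * (radp 6 g) ^ 4 := h1
    _ ≤ 2 ^ 8 * 3 ^ 7 * (radp 6 (Dsc a b).natAbs) ^ 4 := by
        apply Nat.mul_le_mul_left
        exact Nat.pow_le_pow_left (radp_dvd_le hgD (Int.natAbs_ne_zero.2 hD)) 4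
    _ = 559872 * (radp 6 (Dsc a b).natAbs) ^ 4 := by norm_num

/-- numerator and denominator of the invariant -/
theorem num_den {a b : ℤ} (hD : Dsc a b ≠ 0) {j : ℚ}
    (hj : j = 6912 * (a : ℚ) ^ 3 / (Dsc a b : ℚ)) :
    (Dsc a b).natAbs ≤ Int.gcd (6912 * a ^ 3) (Dsc a b) * j.den ∧
    (6912 * a ^ 3).natAbs ≤ Int.gcd (6912 * a ^ 3) (Dsc a b) * j.num.natAbs := by
  set g := Int.gcd (6912 * a ^ 3) (Dsc a b) with hg
  have hg0 : 0 < g := Nat.pos_of_ne_zero (by
    rw [hg, Ne, Int.gcd_eq_zero_iff]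
    exact fun h => hD h.2)
  obtain ⟨x, hx⟩ : (g : ℤ) ∣ 6912 * a ^ 3 := Int.gcd_dvd_left _ _
  obtain ⟨y, hy⟩ : (g : ℤ) ∣ Dsc a b := Int.gcd_dvd_right _ _
  have hgz : (g : ℤ) ≠ 0 := by exact_mod_cast hg0.ne'
  have hcop : IsCoprime x y := by
    rw [Int.isCoprime_iff_gcd_eq_one]
    have h1 : g * Int.gcd x y = g := by
      have h2 : Int.gcd (6912 * a ^ 3) (Dsc a b) = g * Int.gcd x y := by
        rw [hx, hy, Int.gcd_mul_left, Int.natAbs_natCast]
      rw [← h2]
    exact Nat.eq_of_mul_eq_mul_left hg0 (by rw [h1, mul_one])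
  have hy0 : y ≠ 0 := by
    rintro rfl
    exact hD (by rw [hy, mul_zero])
  have hjxy : j = (x : ℚ) / y := by
    rw [hj]
    have h1 : (6912 * (a : ℚ) ^ 3) = g * x := by exact_mod_cast hx
    have h2 : (Dsc a b : ℚ) = g * y := by exact_mod_cast hy
    rw [h1, h2, mul_div_mul_left]
    exact_mod_cast hg0.ne'
  have hjd : j * j.den = j.num := Rat.mul_den_eq_num j
  have hd0 : (j.den : ℚ) ≠ 0 := by exact_mod_cast j.den_nz
  have hcross : x * j.den = j.num * y := by
    have h1 : (x : ℚ) * j.den = j.num * y := by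
      rw [← hjd, hjxy]
      have : (y : ℚ) ≠ 0 := by exact_mod_cast hy0
      field_simp
    exact_mod_cast h1
  have hyd : y ∣ (j.den : ℤ) := by
    have : y ∣ x * j.den := ⟨j.num, by rw [hcross]; ring⟩
    exact hcop.symm.dvd_of_dvd_mul_left this
  have hxn : x ∣ j.num := by
    have : x ∣ j.num * y := ⟨j.den, by rw [hcross]⟩
    exact hcop.dvd_of_dvd_mul_right this
  constructor
  · rw [hy, Int.natAbs_mul, Int.natAbs_natCast]
    apply Nat.mul_le_mul_left
    exact Nat.le_of_dvd j.den_pos (by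
      have := Int.natAbs_dvd_natAbs.2 hyd
      simpa using this)
  · rw [hx, Int.natAbs_mul, Int.natAbs_natCast]
    apply Nat.mul_le_mul_left
    by_cases hn : j.num = 0
    · have : x = 0 := by
        have h1 : x * j.den = 0 := by rw [hcross, hn, zero_mul]
        rcases mul_eq_zero.1 h1 with h | h
        · exact h
        · exact absurd (by exact_mod_cast h : j.den = 0) j.den_nz
      rw [this]
      simp
    · exact Nat.le_of_dvd (Int.natAbs_pos.2 hn) (Int.natAbs_dvd_natAbs.2 hxn)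

/-- every model is a twist of a reduced one -/
theorem exists_red : ∀ (n : ℕ) (a b : ℤ), (Dsc a b).natAbs ≤ n → Dsc a b ≠ 0 →
    ∃ (d : ℕ) (a' b' : ℤ), 1 ≤ d ∧ a = (d : ℤ) ^ 2 * a' ∧ b = (d : ℤ) ^ 3 * b' ∧ Red a' b' := by
  intro n
  induction n with
  | zero =>
    intro a b h hD
    exact absurd (Int.natAbs_eq_zero.1 (Nat.le_zero.1 h)) hD
  | succ n ih =>
    intro a b h hD
    by_cases hR : Red a b
    · exact ⟨1, a, b, le_rfl, by simp, by simp, hR⟩
    · unfold Red at hR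
      push Not at hR
      obtain ⟨p, hp, ⟨a1, rfl⟩, ⟨b1, rfl⟩, -⟩ := hR
      have e : Dsc ((p : ℤ) ^ 2 * a1) ((p : ℤ) ^ 3 * b1) = (p : ℤ) ^ 6 * Dsc a1 b1 := by
        unfold Dsc; ring
      have hD1 : Dsc a1 b1 ≠ 0 := by
        intro h0
        apply hD
        rw [e, h0, mul_zero]
      have hlt : (Dsc a1 b1).natAbs ≤ n := by
        rw [e, Int.natAbs_mul, Int.natAbs_pow, Int.natAbs_natCast] at h
        have h1 : 1 ≤ (Dsc a1 b1).natAbs := Int.natAbs_pos.2 hD1
        have h2 : 2 ^ 6 ≤ p ^ 6 := Nat.pow_le_pow_left hp.two_le 6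
        nlinarith
      obtain ⟨d, a', b', h1, h2, h3, h4⟩ := ih a1 b1 hlt hD1
      refine ⟨p * d, a', b', Nat.mul_pos hp.pos h1, ?_, ?_, h4⟩
      · rw [h2]; push_cast; ring
      · rw [h3]; push_cast; ring

lemma prime_six {p : ℕ} (hp : p.Prime) : ¬ p ∣ 6 ↔ 5 ≤ p := by
  constructor
  · intro h
    by_contra hcon
    push Not at hcon
    have h2 := hp.two_le
    interval_cases p
    · exact h (by norm_num)
    · exact h (by norm_num)
    · exact absurd hp (by norm_num)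
  · intro h h6
    have h7 : p ∣ 2 * 3 := by norm_num; exact h6
    rcases (Nat.Prime.dvd_mul hp).1 h7 with h8 | h8
    · have := Nat.le_of_dvd (by norm_num) h8; omega
    · have := Nat.le_of_dvd (by norm_num) h8; omega

lemma condS_pos (a b : ℤ) : 1 ≤ condS a b := by
  unfold condS
  refine Nat.one_le_iff_ne_zero.2 (Finset.prod_ne_zero_iff.2 fun p hp => ?_)
  have hp0 : 0 < p := (Nat.prime_of_mem_primeFactors (Finset.mem_filter.1 hp).1).pos
  split_ifs
  · exact (pow_pos hp0 2).ne'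
  · exact hp0.ne'

/-- from a minimal model to the reduced one -/
theorem min_red {a b : ℤ} (hmin : IsMin a b) :
    ∃ (d : ℕ) (a' b' : ℤ), 1 ≤ d ∧ a = (d : ℤ) ^ 2 * a' ∧ b = (d : ℤ) ^ 3 * b' ∧ Red a' b' ∧
      Dsc a' b' ≠ 0 ∧ Dsc a b = (d : ℤ) ^ 6 * Dsc a' b' ∧ d ^ 2 ≤ 36 * condS a b ∧
      radp 6 (Dsc a' b').natAbs ≤ condS a b := by
  classical
  have hD : Dsc a b ≠ 0 := hmin.1
  obtain ⟨d, a', b', hd, ha, hb, hR⟩ := exists_red _ a b le_rfl hD
  have e : Dsc a b = (d : ℤ) ^ 6 * Dsc a' b' := by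
    rw [ha, hb]; unfold Dsc; ring
  have hD' : Dsc a' b' ≠ 0 := by
    intro h0
    apply hD
    rw [e, h0, mul_zero]
  have hsq : Squarefree d := by
    rw [Nat.squarefree_iff_prime_squarefree]
    rintro p hp ⟨c, hc⟩
    refine Pool.Agent.R417.PI.min_no_46 hmin hp.two_le ⟨c ^ 2 * a', ?_⟩ ⟨c ^ 3 * b', ?_⟩
    · rw [ha, hc]; push_cast; ring
    · rw [hb, hc]; push_cast; ring
  refine ⟨d, a', b', hd, ha, hb, hR, hD', e, ?_, ?_⟩
  · -- `d²`
    have h1 : d = (∏ p ∈ d.primeFactors.filter (fun p => p ∣ 6), p) *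
        ∏ p ∈ d.primeFactors.filter (fun p => ¬ p ∣ 6), p := by
      rw [Finset.prod_filter_mul_prod_filter_not]
      exact (Nat.prod_primeFactors_of_squarefree hsq).symm
    have h2 : ∏ p ∈ d.primeFactors.filter (fun p => p ∣ 6), p ≤ 6 := by
      have h3 : ∏ p ∈ d.primeFactors.filter (fun p => p ∣ 6), p ≤
          ∏ p ∈ Nat.primeFactors 6, p := by
        apply Finset.prod_le_prod_of_subset_of_one_le'
        · intro p hp
          rw [Finset.mem_filter] at hp
          exact Nat.mem_primeFactors.2 ⟨Nat.prime_of_mem_primeFactors hp.1, hp.2, by norm_num⟩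
        · intro p hp _
          exact (Nat.prime_of_mem_primeFactors hp).one_le
      refine h3.trans ?_
      decide +kernel
    have h4 : (∏ p ∈ d.primeFactors.filter (fun p => ¬ p ∣ 6), p) ^ 2 ≤ condS a b := by
      unfold condS
      rw [← Finset.prod_pow]
      calc ∏ p ∈ d.primeFactors.filter (fun p => ¬ p ∣ 6), p ^ 2
          ≤ ∏ p ∈ d.primeFactors.filter (fun p => ¬ p ∣ 6), (if (p : ℤ) ∣ a then p ^ 2 else p) := by
            apply Finset.prod_le_prod'
            intro p hp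
            rw [Finset.mem_filter] at hp
            rw [if_pos]
            rw [ha]
            exact (((Int.natCast_dvd_natCast.2 (Nat.dvd_of_mem_primeFactors hp.1)).trans
              (dvd_pow_self _ (by norm_num))).mul_right _)
        _ ≤ _ := by
            apply Finset.prod_le_prod_of_subset_of_one_le'
            · intro p hp
              rw [Finset.mem_filter] at hp ⊢
              have hpp := Nat.prime_of_mem_primeFactors hp.1
              refine ⟨Nat.mem_primeFactors.2 ⟨hpp, ?_, Int.natAbs_ne_zero.2 hD⟩,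
                (prime_six hpp).1 hp.2⟩
              have h5 : (p : ℤ) ∣ Dsc a b := by
                rw [e]
                exact ((Int.natCast_dvd_natCast.2 (Nat.dvd_of_mem_primeFactors hp.1)).trans
                  (dvd_pow_self _ (by norm_num))).mul_right _
              exact Int.natCast_dvd.1 h5
            · intro p hp _
              have hpp := (Nat.prime_of_mem_primeFactors (Finset.mem_filter.1 hp).1).one_le
              split_ifs
              · exact Nat.one_le_pow _ _ hpp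
              · exact hpp
    calc d ^ 2 = (∏ p ∈ d.primeFactors.filter (fun p => p ∣ 6), p) ^ 2 *
          (∏ p ∈ d.primeFactors.filter (fun p => ¬ p ∣ 6), p) ^ 2 := by
            rw [← mul_pow, ← h1]
      _ ≤ 6 ^ 2 * condS a b := Nat.mul_le_mul (Nat.pow_le_pow_left h2 2) h4
      _ = 36 * condS a b := by norm_num
  · unfold radp condS
    calc ∏ p ∈ (Dsc a' b').natAbs.primeFactors.filter (fun p => ¬ p ∣ 6), p
        ≤ ∏ p ∈ (Dsc a' b').natAbs.primeFactors.filter (fun p => ¬ p ∣ 6),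
          (if (p : ℤ) ∣ a then p ^ 2 else p) := by
          apply Finset.prod_le_prod'
          intro p hp
          split_ifs
          · exact Nat.le_self_pow (by norm_num) p
          · exact le_rfl
      _ ≤ _ := by
          apply Finset.prod_le_prod_of_subset_of_one_le'
          · intro p hp
            rw [Finset.mem_filter] at hp ⊢
            have hpp := Nat.prime_of_mem_primeFactors hp.1
            refine ⟨Nat.mem_primeFactors.2 ⟨hpp, ?_, Int.natAbs_ne_zero.2 hD⟩,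
              (prime_six hpp).1 hp.2⟩
            have h5 : (p : ℤ) ∣ Dsc a b := by
              rw [e]
              exact (Int.natCast_dvd.2 (Nat.dvd_of_mem_primeFactors hp.1)).mul_left _
            exact Int.natCast_dvd.1 h5
          · intro p hp _
            have hpp := (Nat.prime_of_mem_primeFactors (Finset.mem_filter.1 hp).1).one_le
            split_ifs
            · exact Nat.one_le_pow _ _ hpp
            · exact hpp

/-- a reduced model is minimal -/
theorem red_min {a b : ℤ} (hR : Red a b) (hD : Dsc a b ≠ 0) : IsMin a b := by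
  refine ⟨hD, ?_⟩
  intro u a' b' hu ha hb
  have hnum : u.num ≠ 0 := Rat.num_ne_zero.2 hu
  have hden : u.den = 1 := by
    by_contra hcon
    obtain ⟨p, hp, hpd⟩ := Nat.exists_prime_and_dvd hcon
    have hud : u * u.den = u.num := Rat.mul_den_eq_num u
    have hd0 : (u.den : ℚ) ≠ 0 := by exact_mod_cast u.den_nz
    have hcop : IsCoprime (u.num) (u.den : ℤ) := by
      rw [Int.isCoprime_iff_gcd_eq_one]
      have := u.reduced
      rw [Nat.Coprime] at this
      simpa [Int.gcd] using this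
    have hpa : (u.den : ℤ) ^ 4 ∣ a := by
      have h1 : a' * (u.den : ℤ) ^ 4 = u.num ^ 4 * a := by
        have h2 : (a' : ℚ) * (u.den : ℚ) ^ 4 = (u.num : ℚ) ^ 4 * a := by
          rw [ha, ← hud]; ring
        exact_mod_cast h2
      have h3 : (u.den : ℤ) ^ 4 ∣ u.num ^ 4 * a := ⟨a', by rw [← h1]; ring⟩
      exact (hcop.pow (m := 4) (n := 4)).symm.dvd_of_dvd_mul_left h3
    have hpb : (u.den : ℤ) ^ 6 ∣ b := by
      have h1 : b' * (u.den : ℤ) ^ 6 = u.num ^ 6 * b := by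
        have h2 : (b' : ℚ) * (u.den : ℚ) ^ 6 = (u.num : ℚ) ^ 6 * b := by
          rw [hb, ← hud]; ring
        exact_mod_cast h2
      have h3 : (u.den : ℤ) ^ 6 ∣ u.num ^ 6 * b := ⟨b', by rw [← h1]; ring⟩
      exact (hcop.pow (m := 6) (n := 6)).symm.dvd_of_dvd_mul_left h3
    have hpd' : (p : ℤ) ∣ (u.den : ℤ) := Int.natCast_dvd_natCast.2 hpd
    refine hR p hp ?_ ?_
    · exact ((pow_dvd_pow_of_dvd hpd' 2).trans (pow_dvd_pow _ (by norm_num))).trans hpa
    · exact ((pow_dvd_pow_of_dvd hpd' 3).trans (pow_dvd_pow _ (by norm_num))).trans hpb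
  have hun : u = u.num := by
    conv_lhs => rw [← Rat.num_div_den u, hden]
    simp
  set n := u.num with hn
  rw [hun] at ha hb
  have ha' : a' = n ^ 4 * a := by exact_mod_cast ha
  have hb' : b' = n ^ 6 * b := by exact_mod_cast hb
  have e : D a' b' = n ^ 12 * D a b := by
    rw [ha', hb']; unfold Pool.Agent.H925R.Szpiro.D; ring
  rw [e, abs_mul]
  have h1 : 1 ≤ |n ^ 12| := Int.one_le_abs (pow_ne_zero 12 hnum)
  exact le_mul_of_one_le_left (abs_nonneg _) h1

lemma condS_le_rad (a b : ℤ) : condS a b ≤ radp 6 (Dsc a b).natAbs ^ 2 := by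
  unfold condS radp
  rw [← Finset.prod_pow]
  have hset : (D a b).natAbs.primeFactors.filter (fun p => 5 ≤ p) =
      (Dsc a b).natAbs.primeFactors.filter (fun p => ¬ p ∣ 6) := by
    ext p
    rw [Finset.mem_filter, Finset.mem_filter]
    constructor
    · rintro ⟨h1, h2⟩
      exact ⟨h1, (prime_six (Nat.prime_of_mem_primeFactors h1)).2 h2⟩
    · rintro ⟨h1, h2⟩
      exact ⟨h1, (prime_six (Nat.prime_of_mem_primeFactors h1)).1 h2⟩
  rw [hset]
  apply Finset.prod_le_prod'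
  intro p hp
  split_ifs
  · exact le_rfl
  · exact Nat.le_self_pow (by norm_num) p

end Pool.Agent.Helper29S
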