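import Mathlib
import Pool.Agent.Helper29S.Cnt
import Pool.Agent.Helper29S.Tw
import Pool.Agent.R417.BC.Sh

/-!
# The number of the minimal models violating Szpiro's inequality, and of their invariants
-/

set_option autoImplicit false

namespace Pool.Agent.Helper29S

open Finset Pool.Agent.W4.CF
open Pool.Agent.H925R.Szpiro (D IsMin condS)
open Pool.Agent.H925R.Two (HasRoot)

/-- the reducible pairs -/
theorem count_root (ε : ℝ) (hε : 0 < ε) : ∃ C : ℝ, 0 < C ∧ ∀ R Y : ℝ, 1 ≤ R → 1 ≤ Y →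
    ∀ s : Finset (ℤ × ℤ), (∀ x ∈ s, Red x.1 x.2 ∧ Dsc x.1 x.2 ≠ 0 ∧
      HasRoot x.1 x.2 ∧ |(x.1 : ℝ)| ≤ Y ∧ |(x.2 : ℝ)| ≤ Y ∧
      (radp 6 (Dsc x.1 x.2).natAbs : ℝ) ≤ R) →
    (s.card : ℝ) ≤ C * R ^ ((7 : ℝ) / 2) * Y ^ ε := by
  obtain ⟨C, hC, h⟩ := Pool.Agent.R417.BC.upperS ε hε
  refine ⟨C * 2 ^ ε, by positivity, fun R Y hR hY s hs => ?_⟩
  have hR0 : 0 < R := by linarith
  have hY0 : 0 < Y := by linarith
  set X : ℕ := ⌈Y⌉₊ with hX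
  have hXY : Y ≤ X := Nat.le_ceil Y
  have hX2 : (X : ℝ) ≤ 2 * Y := by
    have := (Nat.ceil_lt_add_one hY0.le).le
    linarith
  have hX1r : (1 : ℝ) ≤ X := hY.trans hXY
  have hX1 : 1 ≤ X := by exact_mod_cast hX1r
  obtain ⟨hfin, hcard⟩ := h (R ^ 2) X (by positivity) hX1
  have hsub : (s : Set (ℤ × ℤ)) ⊆ Pool.Agent.R417.PI.Cur HasRoot (R ^ 2) X := by
    intro x hx
    obtain ⟨h1, h2, h3, h4, h5, h6⟩ := hs x hx
    refine ⟨red_min h1 h2, h3, ?_, ?_, ?_⟩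
    · have h7 : |(x.1 : ℝ)| ≤ (X : ℝ) ^ 2 := by nlinarith
      exact_mod_cast h7
    · have h7 : |(x.2 : ℝ)| ≤ (X : ℝ) ^ 3 := by
        have h8 : (1 : ℝ) ≤ (X : ℝ) ^ 2 := one_le_pow₀ hX1r
        calc |(x.2 : ℝ)| ≤ X := h5.trans hXY
          _ ≤ X * X ^ 2 := le_mul_of_one_le_right (by linarith) h8
          _ = X ^ 3 := by ring
      exact_mod_cast h7
    · have h7 : ((condS x.1 x.2 : ℕ) : ℝ) ≤ ((radp 6 (Dsc x.1 x.2).natAbs : ℕ) : ℝ) ^ 2 := by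
        exact_mod_cast condS_le_rad x.1 x.2
      exact h7.trans (pow_le_pow_left₀ (Nat.cast_nonneg _) h6 2)
  have h1 := Set.ncard_le_ncard hsub hfin
  rw [Set.ncard_coe_finset] at h1
  have h2 : (s.card : ℝ) ≤ ((Pool.Agent.R417.PI.Cur HasRoot (R ^ 2) X).ncard : ℝ) := by
    exact_mod_cast h1
  refine h2.trans (hcard.trans ?_)
  have h3 : (R ^ 2) ^ ((5 : ℝ) / 6) ≤ R ^ ((7 : ℝ) / 2) := by
    rw [← Real.rpow_natCast R 2, ← Real.rpow_mul hR0.le]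
    exact Real.rpow_le_rpow_of_exponent_le hR (by norm_num)
  have h4 : (X : ℝ) ^ ε ≤ 2 ^ ε * Y ^ ε := by
    rw [← Real.mul_rpow (by norm_num) hY0.le]
    exact Real.rpow_le_rpow (by linarith) hX2 hε.le
  calc C * (R ^ 2) ^ ((5 : ℝ) / 6) * (X : ℝ) ^ ε ≤ C * R ^ ((7 : ℝ) / 2) * (2 ^ ε * Y ^ ε) := by
        gcongr
    _ = C * 2 ^ ε * R ^ ((7 : ℝ) / 2) * Y ^ ε := by ring

/-- **all twist-reduced pairs** -/
theorem count_all (ε : ℝ) (hε : 0 < ε) : ∃ C : ℝ, 0 < C ∧ ∀ R Y : ℝ, 1 ≤ R → 1 ≤ Y →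
    ∀ s : Finset (ℤ × ℤ), (∀ x ∈ s, Red x.1 x.2 ∧ Dsc x.1 x.2 ≠ 0 ∧
      |(x.1 : ℝ)| ≤ Y ∧ |(x.2 : ℝ)| ≤ Y ∧ (radp 6 (Dsc x.1 x.2).natAbs : ℝ) ≤ R) →
    (s.card : ℝ) ≤ C * R ^ ((7 : ℝ) / 2) * Y ^ ε := by
  classical
  obtain ⟨C1, hC1, h1⟩ := count_irr ε hε
  obtain ⟨C2, hC2, h2⟩ := count_root ε hε
  refine ⟨C1 + C2, by positivity, fun R Y hR hY s hs => ?_⟩
  have e1 := h1 R Y hR hY (s.filter fun x => ¬ HasRoot x.1 x.2) (by
    intro x hx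
    rw [Finset.mem_filter] at hx
    obtain ⟨g1, g2, g3, g4, g5⟩ := hs x hx.1
    refine ⟨g1, g2, fun r hr => hx.2 ⟨r, hr⟩, g3, g4, g5⟩)
  have e2 := h2 R Y hR hY (s.filter fun x => HasRoot x.1 x.2) (by
    intro x hx
    rw [Finset.mem_filter] at hx
    obtain ⟨g1, g2, g3, g4, g5⟩ := hs x hx.1
    exact ⟨g1, g2, hx.2, g3, g4, g5⟩)
  have e3 := Finset.card_filter_add_card_filter_not (s := s) (fun x => HasRoot x.1 x.2)
  have e4 : (s.card : ℝ) = ((s.filter fun x => HasRoot x.1 x.2).card : ℝ) +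
      ((s.filter fun x => ¬ HasRoot x.1 x.2).card : ℝ) := by
    rw [← e3]; push_cast; rfl
  rw [e4]
  calc _ ≤ C2 * R ^ ((7 : ℝ) / 2) * Y ^ ε + C1 * R ^ ((7 : ℝ) / 2) * Y ^ ε := add_le_add e2 e1
    _ = (C1 + C2) * R ^ ((7 : ℝ) / 2) * Y ^ ε := by ring

/-- the base of the inequality -/
noncomputable def Mx (a b : ℤ) : ℝ := max 2 (condS a b : ℝ)

lemma two_le_Mx (a b : ℤ) : 2 ≤ Mx a b := le_max_left _ _

lemma cond_le_Mx (a b : ℤ) : (condS a b : ℝ) ≤ Mx a b := le_max_right _ _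

/-- a counterexample to the inequality with exponent `κ` -/
def Bad (κ : ℝ) (a b : ℤ) : Prop := IsMin a b ∧ Mx a b ^ κ < |((Dsc a b : ℤ) : ℝ)|

lemma Dsc_le {a b : ℤ} {Y : ℝ} (hY : 1 ≤ Y) (h1 : |(a : ℝ)| ≤ Y) (h2 : |(b : ℝ)| ≤ Y) :
    |((Dsc a b : ℤ) : ℝ)| ≤ 31 * Y ^ 3 := by
  unfold Dsc
  push_cast
  calc |4 * (a : ℝ) ^ 3 - 27 * (b : ℝ) ^ 2|
      ≤ |4 * (a : ℝ) ^ 3| + |27 * (b : ℝ) ^ 2| := abs_sub _ _
    _ = 4 * |(a : ℝ)| ^ 3 + 27 * |(b : ℝ)| ^ 2 := by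
        rw [abs_mul, abs_mul, abs_pow, abs_pow]
        norm_num
    _ ≤ 4 * Y ^ 3 + 27 * Y ^ 2 := by gcongr
    _ ≤ 31 * Y ^ 3 := by
        have : Y ^ 2 ≤ Y ^ 3 := pow_le_pow_right₀ hY (by norm_num)
        linarith

/-- **the minimal models violating the inequality** -/
theorem count_min (κ ε : ℝ) (hκ : 0 < κ) (hε : 0 < ε) : ∃ C : ℝ, 0 < C ∧ ∀ Y : ℝ, 1 ≤ Y →
    ∀ s : Finset (ℤ × ℤ), (∀ x ∈ s, Bad κ x.1 x.2 ∧ |(x.1 : ℝ)| ≤ Y ∧ |(x.2 : ℝ)| ≤ Y) →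
    (s.card : ℝ) ≤ C * Y ^ (12 / κ + ε) := by
  classical
  obtain ⟨C0, hC0, h0⟩ := count_all ε hε
  refine ⟨6 * C0 * (31 ^ (4 / κ)), by positivity, fun Y hY s hs => ?_⟩
  have hY0 : 0 < Y := by linarith
  set R : ℝ := (31 * Y ^ 3) ^ (1 / κ) with hR
  have hbase : 1 ≤ 31 * Y ^ 3 := by
    have : 1 ≤ Y ^ 3 := one_le_pow₀ hY
    linarith
  have hR1 : 1 ≤ R := Real.one_le_rpow hbase (by positivity)
  have hR0 : 0 < R := by linarith
  have hM : ∀ x ∈ s, Mx x.1 x.2 ≤ R := by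
    intro x hx
    obtain ⟨⟨-, h1⟩, h2, h3⟩ := hs x hx
    have h4 := h1.le.trans (Dsc_le hY h2 h3)
    have hM0 : 0 ≤ Mx x.1 x.2 := le_trans (by norm_num) (two_le_Mx x.1 x.2)
    calc Mx x.1 x.2 = (Mx x.1 x.2 ^ κ) ^ (1 / κ) := by
          rw [← Real.rpow_mul hM0, mul_one_div_cancel hκ.ne', Real.rpow_one]
      _ ≤ R := Real.rpow_le_rpow (by positivity) h4 (by positivity)
  have hex : ∀ x ∈ s, ∃ y : ℕ × (ℤ × ℤ), 1 ≤ y.1 ∧ x.1 = (y.1 : ℤ) ^ 2 * y.2.1 ∧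
      x.2 = (y.1 : ℤ) ^ 3 * y.2.2 ∧ Red y.2.1 y.2.2 ∧ Dsc y.2.1 y.2.2 ≠ 0 ∧
      (y.1 : ℝ) ≤ 6 * R ^ ((1 : ℝ) / 2) ∧ (radp 6 (Dsc y.2.1 y.2.2).natAbs : ℝ) ≤ R := by
    intro x hx
    obtain ⟨d, a', b', g1, g2, g3, g4, g5, g6, g7, g8⟩ := min_red (hs x hx).1.1
    refine ⟨(d, (a', b')), g1, g2, g3, g4, g5, ?_, ?_⟩
    · have h1 : (d : ℝ) ^ 2 ≤ 36 * (condS x.1 x.2 : ℝ) := by exact_mod_cast g7
      have h2 : (d : ℝ) ^ 2 ≤ (6 * R ^ ((1 : ℝ) / 2)) ^ 2 := by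
        have h3 : (R ^ ((1 : ℝ) / 2)) ^ 2 = R := by
          rw [← Real.rpow_natCast, ← Real.rpow_mul hR0.le]
          norm_num
        rw [mul_pow, h3]
        have := (cond_le_Mx x.1 x.2).trans (hM x hx)
        linarith
      exact le_of_sq_le_sq h2 (by positivity)
    · have h1 : (radp 6 (Dsc a' b').natAbs : ℝ) ≤ (condS x.1 x.2 : ℝ) := by exact_mod_cast g8
      exact h1.trans ((cond_le_Mx x.1 x.2).trans (hM x hx))
  choose! f hf using hex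
  have hinj : Set.InjOn f s := by
    intro x hx y hy hxy
    obtain ⟨-, x2, x3, -⟩ := hf x hx
    obtain ⟨-, y2, y3, -⟩ := hf y hy
    rw [hxy] at x2 x3
    exact Prod.ext (x2.trans y2.symm) (x3.trans y3.symm)
  set T := s.image f with hT
  have hcardT : s.card = T.card := (Finset.card_image_of_injOn hinj).symm
  have hstep : (T.card : ℝ) ≤ C0 * R ^ ((7 : ℝ) / 2) * Y ^ ε * ((T.image Prod.fst).card : ℝ) := by
    apply card_fib Prod.fst T (by positivity)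
    intro c _
    have hinj2 : Set.InjOn Prod.snd ((T.filter fun a => a.1 = c : Finset (ℕ × (ℤ × ℤ))) :
        Set (ℕ × (ℤ × ℤ))) := by
      intro a ha b hb hab
      rw [Finset.mem_coe, Finset.mem_filter] at ha hb
      exact Prod.ext (ha.2.trans hb.2.symm) hab
    rw [← Finset.card_image_of_injOn hinj2]
    apply h0 R Y hR1 hY
    intro y hy
    rw [Finset.mem_image] at hy
    obtain ⟨z, hz, rfl⟩ := hy
    rw [Finset.mem_filter, hT, Finset.mem_image] at hz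
    obtain ⟨⟨x, hx, rfl⟩, -⟩ := hz
    obtain ⟨g1, g2, g3, g4, g5, g6, g7⟩ := hf x hx
    obtain ⟨-, h2, h3⟩ := hs x hx
    have hd1 : (1 : ℝ) ≤ ((f x).1 : ℝ) := by exact_mod_cast g1
    refine ⟨g4, g5, ?_, ?_, g7⟩
    · refine le_trans ?_ h2
      have e : (x.1 : ℝ) = ((f x).1 : ℝ) ^ 2 * ((f x).2.1 : ℝ) := by exact_mod_cast g2
      rw [e, abs_mul, abs_of_nonneg (by positivity : (0 : ℝ) ≤ ((f x).1 : ℝ) ^ 2)]
      exact le_mul_of_one_le_left (abs_nonneg _) (one_le_pow₀ hd1)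
    · refine le_trans ?_ h3
      have e : (x.2 : ℝ) = ((f x).1 : ℝ) ^ 3 * ((f x).2.2 : ℝ) := by exact_mod_cast g3
      rw [e, abs_mul, abs_of_nonneg (by positivity : (0 : ℝ) ≤ ((f x).1 : ℝ) ^ 3)]
      exact le_mul_of_one_le_left (abs_nonneg _) (one_le_pow₀ hd1)
  have hd : ((T.image Prod.fst).card : ℝ) ≤ 6 * R ^ ((1 : ℝ) / 2) := by
    have h1 : T.image Prod.fst ⊆ Finset.Icc 1 ⌊6 * R ^ ((1 : ℝ) / 2)⌋₊ := by
      intro n hn
      rw [Finset.mem_image] at hn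
      obtain ⟨z, hz, rfl⟩ := hn
      rw [hT, Finset.mem_image] at hz
      obtain ⟨x, hx, rfl⟩ := hz
      obtain ⟨g1, -, -, -, -, g6, -⟩ := hf x hx
      exact Finset.mem_Icc.2 ⟨g1, Nat.le_floor g6⟩
    have h2 := Finset.card_le_card h1
    rw [Nat.card_Icc, Nat.add_sub_cancel] at h2
    calc ((T.image Prod.fst).card : ℝ) ≤ (⌊6 * R ^ ((1 : ℝ) / 2)⌋₊ : ℝ) := by exact_mod_cast h2
      _ ≤ _ := Nat.floor_le (by positivity)
  rw [hcardT]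
  calc (T.card : ℝ) ≤ C0 * R ^ ((7 : ℝ) / 2) * Y ^ ε * (6 * R ^ ((1 : ℝ) / 2)) :=
        hstep.trans (mul_le_mul_of_nonneg_left hd (by positivity))
    _ = 6 * C0 * (R ^ ((7 : ℝ) / 2) * R ^ ((1 : ℝ) / 2)) * Y ^ ε := by ring
    _ = 6 * C0 * R ^ (4 : ℝ) * Y ^ ε := by
        rw [← Real.rpow_add hR0]
        norm_num
    _ = 6 * C0 * (31 ^ (4 / κ) * Y ^ (12 / κ)) * Y ^ ε := by
        have h1 : R ^ (4 : ℝ) = 31 ^ (4 / κ) * Y ^ (12 / κ) := by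
          rw [hR, ← Real.rpow_mul (by positivity), Real.mul_rpow (by norm_num) (by positivity),
            ← Real.rpow_natCast Y 3, ← Real.rpow_mul hY0.le]
          congr 2
          · ring
          · push_cast; ring
        rw [h1]
    _ = 6 * C0 * 31 ^ (4 / κ) * (Y ^ (12 / κ) * Y ^ ε) := by ring
    _ = 6 * C0 * 31 ^ (4 / κ) * Y ^ (12 / κ + ε) := by rw [← Real.rpow_add hY0]

/-- the invariant -/
noncomputable def jI (a b : ℤ) : ℚ := 6912 * (a : ℚ) ^ 3 / (Dsc a b : ℚ)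

/-- the height of a rational number -/
def ht (j : ℚ) : ℕ := max j.num.natAbs j.den

lemma one_le_ht (j : ℚ) : 1 ≤ ht j := le_max_of_le_right j.den_pos

/-- the inequality with the denominator of the invariant -/
theorem main_ineq {a b : ℤ} (hmin : IsMin a b) :
    ∃ (d : ℕ) (a' b' : ℤ), 1 ≤ d ∧ a = (d : ℤ) ^ 2 * a' ∧ b = (d : ℤ) ^ 3 * b' ∧ Red a' b' ∧
      Dsc a' b' ≠ 0 ∧ jI a' b' = jI a b ∧ (radp 6 (Dsc a' b').natAbs : ℝ) ≤ Mx a b ∧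
      |((Dsc a b : ℤ) : ℝ)| ≤ 46656 * Mx a b ^ 3 * |((Dsc a' b' : ℤ) : ℝ)| ∧
      |((Dsc a' b' : ℤ) : ℝ)| ≤ 559872 * Mx a b ^ 4 * (jI a b).den ∧
      6912 * |(a' : ℝ)| ^ 3 ≤ 559872 * Mx a b ^ 4 * ((jI a b).num.natAbs : ℝ) := by
  obtain ⟨d, a', b', g1, g2, g3, g4, g5, g6, g7, g8⟩ := min_red hmin
  have hM0 : 0 < Mx a b := lt_of_lt_of_le (by norm_num) (two_le_Mx a b)
  have hd0 : (d : ℚ) ≠ 0 := by exact_mod_cast (by omega : d ≠ 0)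
  have hj : jI a' b' = jI a b := by
    unfold jI
    rw [g6, g2]
    have : (Dsc a' b' : ℚ) ≠ 0 := by exact_mod_cast g5
    push_cast
    field_simp
  have hrad : (radp 6 (Dsc a' b').natAbs : ℝ) ≤ Mx a b := by
    have h1 : (radp 6 (Dsc a' b').natAbs : ℝ) ≤ (condS a b : ℝ) := by exact_mod_cast g8
    exact h1.trans (cond_le_Mx a b)
  have hg : (Int.gcd (6912 * a' ^ 3) (Dsc a' b') : ℝ) ≤ 559872 * Mx a b ^ 4 := by
    have h1 : (Int.gcd (6912 * a' ^ 3) (Dsc a' b') : ℝ) ≤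
        559872 * (radp 6 (Dsc a' b').natAbs : ℝ) ^ 4 := by exact_mod_cast gcd_bound g4 g5
    refine h1.trans ?_
    gcongr
  obtain ⟨n1, n2⟩ := num_den g5 (j := jI a b) (by rw [← hj]; rfl)
  refine ⟨d, a', b', g1, g2, g3, g4, g5, hj, hrad, ?_, ?_, ?_⟩
  · rw [g6]
    push_cast
    rw [abs_mul, abs_of_nonneg (by positivity : (0 : ℝ) ≤ (d : ℝ) ^ 6)]
    apply mul_le_mul_of_nonneg_right _ (abs_nonneg _)
    have h1 : (d : ℝ) ^ 2 ≤ 36 * Mx a b := by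
      have h2 : (d : ℝ) ^ 2 ≤ 36 * (condS a b : ℝ) := by exact_mod_cast g7
      have := cond_le_Mx a b
      linarith
    calc (d : ℝ) ^ 6 = ((d : ℝ) ^ 2) ^ 3 := by ring
      _ ≤ (36 * Mx a b) ^ 3 := by gcongr
      _ = 46656 * Mx a b ^ 3 := by ring
  · have h1 : |((Dsc a' b' : ℤ) : ℝ)| ≤
        (Int.gcd (6912 * a' ^ 3) (Dsc a' b') : ℝ) * ((jI a b).den : ℝ) := by
      have h2 : (((Dsc a' b').natAbs : ℕ) : ℝ) ≤
        (Int.gcd (6912 * a' ^ 3) (Dsc a' b') : ℝ) * ((jI a b).den : ℝ) := by exact_mod_cast n1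
      rw [Nat.cast_natAbs] at h2
      push_cast at h2
      exact h2
    exact h1.trans (mul_le_mul_of_nonneg_right hg (Nat.cast_nonneg _))
  · have h1 : 6912 * |(a' : ℝ)| ^ 3 ≤
        (Int.gcd (6912 * a' ^ 3) (Dsc a' b') : ℝ) * ((jI a b).num.natAbs : ℝ) := by
      have h2 : (((6912 * a' ^ 3).natAbs : ℕ) : ℝ) ≤
        (Int.gcd (6912 * a' ^ 3) (Dsc a' b') : ℝ) * ((jI a b).num.natAbs : ℝ) := by
        exact_mod_cast n2
      rw [Nat.cast_natAbs (6912 * a' ^ 3)] at h2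
      push_cast [-Nat.cast_natAbs] at h2
      rw [abs_mul, abs_pow] at h2
      norm_num [-Nat.cast_natAbs] at h2
      exact h2
    exact h1.trans (mul_le_mul_of_nonneg_right hg (Nat.cast_nonneg _))

/-- for a given invariant the inequality holds with some exponent -/
theorem single (j : ℚ) : ∃ κ : ℝ, 0 ≤ κ ∧ ∀ a b : ℤ, IsMin a b → jI a b = j → ¬ Bad κ a b := by
  obtain ⟨n, hn⟩ := pow_unbounded_of_one_lt (46656 * 559872 * (j.den : ℝ))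
    (one_lt_two : (1 : ℝ) < 2)
  refine ⟨((n + 7 : ℕ) : ℝ), by positivity, ?_⟩
  intro a b hmin hj hbad
  obtain ⟨d, a', b', -, -, -, -, -, -, -, h1, h2, -⟩ := main_ineq hmin
  rw [hj] at h2
  have hM := two_le_Mx a b
  have hM0 : 0 < Mx a b := by linarith
  have h3 := hbad.2
  rw [Real.rpow_natCast, pow_add] at h3
  have h4 : |((Dsc a b : ℤ) : ℝ)| ≤ Mx a b ^ n * Mx a b ^ 7 := by
    calc |((Dsc a b : ℤ) : ℝ)| ≤ 46656 * Mx a b ^ 3 * |((Dsc a' b' : ℤ) : ℝ)| := h1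
      _ ≤ 46656 * Mx a b ^ 3 * (559872 * Mx a b ^ 4 * j.den) := by gcongr
      _ = (46656 * 559872 * (j.den : ℝ)) * Mx a b ^ 7 := by ring
      _ ≤ 2 ^ n * Mx a b ^ 7 := by gcongr
      _ ≤ Mx a b ^ n * Mx a b ^ 7 := by gcongr
  linarith

lemma Bad.mono {κ κ' : ℝ} {a b : ℤ} (h : κ ≤ κ') (hb : Bad κ' a b) : Bad κ a b := by
  refine ⟨hb.1, lt_of_le_of_lt ?_ hb.2⟩
  exact Real.rpow_le_rpow_of_exponent_le (by linarith [two_le_Mx a b]) h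

/-- **the invariants of the counterexamples** -/
theorem count_j (κ ε : ℝ) (hκ : 7 < κ) (hε : 0 < ε) : ∃ C : ℝ, 0 < C ∧ ∀ H : ℝ, 1 ≤ H →
    ∀ s : Finset ℚ, (∀ j ∈ s, (ht j : ℝ) ≤ H ∧ ∃ a b : ℤ, jI a b = j ∧ Bad κ a b) →
    (s.card : ℝ) ≤ C * H ^ (7 / (2 * (κ - 7)) + ε) := by
  classical
  have hκ7 : 0 < κ - 7 := by linarith
  set e : ℝ := ε / (4 / (κ - 7) + 1) with he
  have he0 : 0 < e := by positivity
  obtain ⟨C0, hC0, h0⟩ := count_all e he0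
  set c1 : ℝ := 46656 * 559872 with hc1
  have hc10 : (1 : ℝ) ≤ c1 := by rw [hc1]; norm_num
  refine ⟨C0 * (c1 ^ (1 / (κ - 7))) ^ ((7 : ℝ) / 2) * (559872 * (c1 ^ (1 / (κ - 7))) ^ 4) ^ e,
    by positivity, fun H hH s hs => ?_⟩
  have hH0 : 0 < H := by linarith
  set R : ℝ := (c1 * H) ^ (1 / (κ - 7)) with hR
  have hcH : 1 ≤ c1 * H := one_le_mul_of_one_le_of_one_le hc10 hH
  have hR1 : 1 ≤ R := Real.one_le_rpow hcH (by positivity)
  have hR0 : 0 < R := by linarith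
  set Y : ℝ := 559872 * R ^ 4 * H with hY
  have hR4 : 1 ≤ R ^ 4 := one_le_pow₀ hR1
  have hY1 : 1 ≤ Y := by
    rw [hY]
    have : 1 ≤ R ^ 4 * H := one_le_mul_of_one_le_of_one_le hR4 hH
    nlinarith
  have hex : ∀ j ∈ s, ∃ y : ℤ × ℤ, Red y.1 y.2 ∧ Dsc y.1 y.2 ≠ 0 ∧ jI y.1 y.2 = j ∧
      |(y.1 : ℝ)| ≤ Y ∧ |(y.2 : ℝ)| ≤ Y ∧ (radp 6 (Dsc y.1 y.2).natAbs : ℝ) ≤ R := by
    intro j hj
    obtain ⟨hjH, a, b, hab, hbad⟩ := hs j hj
    obtain ⟨d, a', b', -, -, -, g4, g5, g6, g7, g8, g9, g10⟩ := main_ineq hbad.1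
    rw [hab] at g6 g9 g10
    have hM := two_le_Mx a b
    have hM0 : 0 < Mx a b := by linarith
    have hden : ((j.den : ℕ) : ℝ) ≤ H := by
      refine le_trans ?_ hjH
      exact_mod_cast le_max_right j.num.natAbs j.den
    have hnum : ((j.num.natAbs : ℕ) : ℝ) ≤ H := by
      refine le_trans ?_ hjH
      exact_mod_cast le_max_left j.num.natAbs j.den
    have hMR : Mx a b ≤ R := by
      have h1 : Mx a b ^ κ ≤ c1 * H * Mx a b ^ (7 : ℝ) := by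
        calc Mx a b ^ κ ≤ |((Dsc a b : ℤ) : ℝ)| := hbad.2.le
          _ ≤ 46656 * Mx a b ^ 3 * |((Dsc a' b' : ℤ) : ℝ)| := g8
          _ ≤ 46656 * Mx a b ^ 3 * (559872 * Mx a b ^ 4 * H) := by
              have := g9.trans (mul_le_mul_of_nonneg_left hden
                (by positivity : (0 : ℝ) ≤ 559872 * Mx a b ^ 4))
              gcongr
          _ = c1 * H * Mx a b ^ 7 := by rw [hc1]; ring
          _ = c1 * H * Mx a b ^ (7 : ℝ) := by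
              rw [show (7 : ℝ) = ((7 : ℕ) : ℝ) by norm_num, Real.rpow_natCast]
      have h2 : Mx a b ^ (κ - 7) ≤ c1 * H := by
        rw [Real.rpow_sub hM0, div_le_iff₀ (by positivity)]
        exact h1
      calc Mx a b = (Mx a b ^ (κ - 7)) ^ (1 / (κ - 7)) := by
            rw [← Real.rpow_mul hM0.le, mul_one_div_cancel hκ7.ne', Real.rpow_one]
        _ ≤ R := Real.rpow_le_rpow (by positivity) h2 (by positivity)
    have hM4 : 559872 * Mx a b ^ 4 ≤ 559872 * R ^ 4 := by gcongr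
    have hDY : |((Dsc a' b' : ℤ) : ℝ)| ≤ Y := by
      refine g9.trans ?_
      rw [hY]
      gcongr
    have haY : 6912 * |(a' : ℝ)| ^ 3 ≤ Y := by
      refine g10.trans ?_
      rw [hY]
      gcongr
    have hle3 : ∀ z : ℤ, |(z : ℝ)| ≤ |(z : ℝ)| ^ 3 := by
      intro z
      by_cases hz : z = 0
      · rw [hz]; simp
      · have h1 : (1 : ℝ) ≤ |(z : ℝ)| := by exact_mod_cast Int.one_le_abs hz
        exact le_self_pow₀ h1 (by norm_num)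
    have hle2 : ∀ z : ℤ, |(z : ℝ)| ≤ |(z : ℝ)| ^ 2 := by
      intro z
      by_cases hz : z = 0
      · rw [hz]; simp
      · have h1 : (1 : ℝ) ≤ |(z : ℝ)| := by exact_mod_cast Int.one_le_abs hz
        exact le_self_pow₀ h1 (by norm_num)
    refine ⟨(a', b'), g4, g5, g6, ?_, ?_, g7.trans hMR⟩
    · have h1 := hle3 a'
      have h2 : (0 : ℝ) ≤ |(a' : ℝ)| ^ 3 := by positivity
      simp only
      linarith
    · have h1 := hle2 b'
      have h2 : 27 * |(b' : ℝ)| ^ 2 ≤ 4 * |(a' : ℝ)| ^ 3 + |((Dsc a' b' : ℤ) : ℝ)| := by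
        have e1 : 27 * (b' : ℝ) ^ 2 = 4 * (a' : ℝ) ^ 3 - ((Dsc a' b' : ℤ) : ℝ) := by
          unfold Dsc; push_cast; ring
        rw [sq_abs, e1]
        have e2 : 4 * (a' : ℝ) ^ 3 ≤ 4 * |(a' : ℝ)| ^ 3 := by
          have : (a' : ℝ) ^ 3 ≤ |(a' : ℝ)| ^ 3 := by
            rw [← abs_pow]; exact le_abs_self _
          linarith
        have e3 := neg_abs_le ((Dsc a' b' : ℤ) : ℝ)
        linarith
      have h3 : (0 : ℝ) ≤ |(a' : ℝ)| ^ 3 := by positivity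
      simp only
      linarith
  choose! f hf using hex
  have hinj : Set.InjOn f s := by
    intro x hx y hy hxy
    have h1 := (hf x hx).2.2.1
    have h2 := (hf y hy).2.2.1
    rw [hxy] at h1
    exact h1.symm.trans h2
  have h1 := h0 R Y hR1 hY1 (s.image f) (by
    intro y hy
    rw [Finset.mem_image] at hy
    obtain ⟨x, hx, rfl⟩ := hy
    obtain ⟨g1, g2, -, g4, g5, g6⟩ := hf x hx
    exact ⟨g1, g2, g4, g5, g6⟩)
  rw [Finset.card_image_of_injOn hinj] at h1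
  refine h1.trans (le_of_eq ?_)
  have hRe : R = c1 ^ (1 / (κ - 7)) * H ^ (1 / (κ - 7)) := by
    rw [hR, Real.mul_rpow (by linarith) hH0.le]
  have e1 : R ^ ((7 : ℝ) / 2) = (c1 ^ (1 / (κ - 7))) ^ ((7 : ℝ) / 2) * H ^ (7 / (2 * (κ - 7))) := by
    rw [hRe, Real.mul_rpow (by positivity) (by positivity), ← Real.rpow_mul hH0.le]
    congr 2
    field_simp
  have e2 : Y ^ e = (559872 * (c1 ^ (1 / (κ - 7))) ^ 4) ^ e * H ^ ε := by
    have e3 : Y = (559872 * (c1 ^ (1 / (κ - 7))) ^ 4) * (H ^ (4 / (κ - 7) + 1)) := by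
      rw [hY, hRe, mul_pow, Real.rpow_add hH0, Real.rpow_one, ← Real.rpow_natCast
        (H ^ (1 / (κ - 7))) 4, ← Real.rpow_mul hH0.le]
      have e4 : 1 / (κ - 7) * ((4 : ℕ) : ℝ) = 4 / (κ - 7) := by push_cast; ring
      rw [e4]
      ring
    rw [e3, Real.mul_rpow (by positivity) (by positivity), ← Real.rpow_mul hH0.le]
    congr 2
    rw [he]
    field_simp
  rw [e1, e2, Real.rpow_add hH0]
  ring

end Pool.Agent.Helper29S
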