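import Mathlib
import Pool.Agent.Helper29S.AllCnt
import Pool.Agent.Helper29S.Dim
import Pool.Agent.R485.AN.Pow

/-!
# Divisors of the values of a polynomial at the coefficients of the bad models
-/

set_option autoImplicit false

namespace Pool.Agent.Helper29S

open Finset Filter Topology
open Pool.Agent.H925R.Szpiro (D IsMin condS)

theorem countable_pol : Countable (MvPolynomial (Fin 2) ℤ) := by
  rw [← Cardinal.mk_le_aleph0_iff]
  refine (MvPolynomial.cardinalMk_le_max (σ := Fin 2) (R := ℤ)).trans ?_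
  simp

/-- polynomial growth -/
theorem pol_bound (P : MvPolynomial (Fin 2) ℤ) : ∃ (C : ℝ) (k : ℕ), 1 ≤ C ∧
    ∀ (a b : ℤ) (Y : ℝ), 1 ≤ Y → |(a : ℝ)| ≤ Y → |(b : ℝ)| ≤ Y →
      |((MvPolynomial.eval ![a, b] P : ℤ) : ℝ)| ≤ C * Y ^ k := by
  induction P using MvPolynomial.induction_on with
  | C z =>
    refine ⟨|(z : ℝ)| + 1, 0, by linarith [abs_nonneg (z : ℝ)], ?_⟩
    intro a b Y _ _ _
    rw [MvPolynomial.eval_C, pow_zero, mul_one]
    linarith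
  | add p q hp hq =>
    obtain ⟨C, k, hC, h⟩ := hp
    obtain ⟨C', k', hC', h'⟩ := hq
    refine ⟨C + C', max k k', by linarith, ?_⟩
    intro a b Y hY ha hb
    rw [map_add]
    push_cast
    have h1 : Y ^ k ≤ Y ^ (max k k') := pow_le_pow_right₀ hY (le_max_left _ _)
    have h2 : Y ^ k' ≤ Y ^ (max k k') := pow_le_pow_right₀ hY (le_max_right _ _)
    calc _ ≤ |((MvPolynomial.eval ![a, b] p : ℤ) : ℝ)| + |((MvPolynomial.eval ![a, b] q : ℤ) : ℝ)| :=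
          abs_add_le _ _
      _ ≤ C * Y ^ k + C' * Y ^ k' := add_le_add (h a b Y hY ha hb) (h' a b Y hY ha hb)
      _ ≤ C * Y ^ (max k k') + C' * Y ^ (max k k') := by gcongr
      _ = (C + C') * Y ^ (max k k') := by ring
  | mul_X p n hp =>
    obtain ⟨C, k, hC, h⟩ := hp
    refine ⟨C, k + 1, hC, ?_⟩
    intro a b Y hY ha hb
    rw [map_mul, MvPolynomial.eval_X]
    push_cast
    rw [abs_mul]
    have h1 : |((![a, b] n : ℤ) : ℝ)| ≤ Y := by
      fin_cases n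
      · exact ha
      · exact hb
    calc _ ≤ C * Y ^ k * Y := mul_le_mul (h a b Y hY ha hb) h1 (abs_nonneg _) (by positivity)
      _ = C * Y ^ (k + 1) := by ring

/-- the divisors `d` of the values of `P` at the bad models of height at most `d ^ A` -/
def BadD (P : MvPolynomial (Fin 2) ℤ) (κ A : ℝ) : Set ℕ :=
  {d | ∃ a b : ℤ, Bad κ a b ∧ MvPolynomial.eval ![a, b] P ≠ 0 ∧
    (d : ℤ) ∣ MvPolynomial.eval ![a, b] P ∧ |(a : ℝ)| ≤ (d : ℝ) ^ A ∧ |(b : ℝ)| ≤ (d : ℝ) ^ A}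

lemma badD_pos {P : MvPolynomial (Fin 2) ℤ} {κ A : ℝ} {d : ℕ} (h : d ∈ BadD P κ A) : 0 < d := by
  obtain ⟨a, b, -, h1, h2, -⟩ := h
  rcases Nat.eq_zero_or_pos d with h0 | h0
  · rw [h0] at h2
    exact absurd (zero_dvd_iff.1 (by exact_mod_cast h2)) h1
  · exact h0

theorem count_badD (P : MvPolynomial (Fin 2) ℤ) (κ A : ℝ) (hκ : 0 < κ) (hA : 0 < A) (ε : ℝ)
    (hε : 0 < ε) : ∃ C : ℝ, 0 ≤ C ∧ ∀ X : ℝ, 1 ≤ X →
      (({d : ℕ | d ∈ BadD P κ A ∧ (d : ℝ) ≤ X}.ncard : ℕ) : ℝ) ≤ C * X ^ (A * (12 / κ) + ε) := by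
  classical
  obtain ⟨C1, k, hC1, hpol⟩ := pol_bound P
  set e : ℝ := ε / (A * (k + 1)) with he
  have hk0 : (0 : ℝ) < (k : ℝ) + 1 := by positivity
  have he0 : 0 < e := by positivity
  obtain ⟨C2, hC2, hdiv⟩ := Pool.Agent.H510R2.divisor_bound e he0
  obtain ⟨C3, hC3, hmin⟩ := count_min κ e hκ he0
  refine ⟨C2 * C1 ^ e * C3, by positivity, fun X hX => ?_⟩
  have hX0 : 0 < X := by linarith
  set Y : ℝ := X ^ A with hY
  have hY1 : 1 ≤ Y := Real.one_le_rpow hX hA.le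
  have hY0 : 0 < Y := by linarith
  -- the bad models
  set S : Set (ℤ × ℤ) := {x | Bad κ x.1 x.2 ∧ |(x.1 : ℝ)| ≤ Y ∧ |(x.2 : ℝ)| ≤ Y} with hS
  obtain ⟨hfin, hcard⟩ := finite_of_card (S := S) (B := C3 * Y ^ (12 / κ + e)) (by
    intro F hF
    exact hmin Y hY1 F fun x hx => hF hx)
  set T : Finset ℕ := hfin.toFinset.biUnion
    (fun x => (MvPolynomial.eval ![x.1, x.2] P).natAbs.divisors) with hT
  have hsub : {d : ℕ | d ∈ BadD P κ A ∧ (d : ℝ) ≤ X} ⊆ (T : Set ℕ) := by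
    rintro d ⟨⟨a, b, h1, h2, h3, h4, h5⟩, h6⟩
    have hdY : (d : ℝ) ^ A ≤ Y := Real.rpow_le_rpow (Nat.cast_nonneg d) h6 hA.le
    rw [Finset.mem_coe, hT, Finset.mem_biUnion]
    refine ⟨(a, b), ?_, ?_⟩
    · rw [Set.Finite.mem_toFinset]
      exact ⟨h1, h4.trans hdY, h5.trans hdY⟩
    · rw [Nat.mem_divisors]
      exact ⟨Int.natCast_dvd.1 h3, Int.natAbs_ne_zero.2 h2⟩
  have h1 := Set.ncard_le_ncard hsub (Finset.finite_toSet T)
  rw [Set.ncard_coe_finset] at h1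
  have h2 : (T.card : ℝ) ≤ ∑ x ∈ hfin.toFinset,
      (((MvPolynomial.eval ![x.1, x.2] P).natAbs.divisors.card : ℕ) : ℝ) := by
    exact_mod_cast Finset.card_biUnion_le
  have h3 : ∀ x ∈ hfin.toFinset, (((MvPolynomial.eval ![x.1, x.2] P).natAbs.divisors.card : ℕ) : ℝ)
      ≤ C2 * (C1 * Y ^ k) ^ e := by
    intro x hx
    rw [Set.Finite.mem_toFinset] at hx
    obtain ⟨-, g1, g2⟩ := hx
    have g3 := hpol x.1 x.2 Y hY1 g1 g2
    by_cases h0 : MvPolynomial.eval ![x.1, x.2] P = 0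
    · rw [h0]
      simp only [Int.natAbs_zero, Nat.divisors_zero, Finset.card_empty, Nat.cast_zero]
      positivity
    · have g4 := hdiv (MvPolynomial.eval ![x.1, x.2] P).natAbs (Int.natAbs_pos.2 h0)
      refine g4.trans (mul_le_mul_of_nonneg_left ?_ hC2.le)
      refine Real.rpow_le_rpow (Nat.cast_nonneg _) ?_ he0.le
      rw [Nat.cast_natAbs]
      push_cast
      exact g3
  have h4 : ((hfin.toFinset.card : ℕ) : ℝ) ≤ C3 * Y ^ (12 / κ + e) := by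
    rwa [Set.ncard_eq_toFinset_card _ hfin] at hcard
  calc (({d : ℕ | d ∈ BadD P κ A ∧ (d : ℝ) ≤ X}.ncard : ℕ) : ℝ) ≤ (T.card : ℝ) := by
        exact_mod_cast h1
    _ ≤ ∑ x ∈ hfin.toFinset,
      (((MvPolynomial.eval ![x.1, x.2] P).natAbs.divisors.card : ℕ) : ℝ) := h2
    _ ≤ ∑ _x ∈ hfin.toFinset, C2 * (C1 * Y ^ k) ^ e := Finset.sum_le_sum h3
    _ = (hfin.toFinset.card : ℝ) * (C2 * (C1 * Y ^ k) ^ e) := by
        rw [Finset.sum_const, nsmul_eq_mul]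
    _ ≤ C3 * Y ^ (12 / κ + e) * (C2 * (C1 * Y ^ k) ^ e) := by gcongr
    _ = C2 * C1 ^ e * C3 * X ^ (A * (12 / κ) + ε) := by
        rw [Real.mul_rpow (by linarith) (by positivity), ← Real.rpow_natCast Y k,
          ← Real.rpow_mul hY0.le, hY, ← Real.rpow_mul hX0.le, ← Real.rpow_mul hX0.le]
        have e1 : A * (12 / κ) + ε = A * (12 / κ + e) + A * ((k : ℝ) * e) := by
          rw [he]
          field_simp
          ring
        rw [e1, Real.rpow_add hX0]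
        ring

end Pool.Agent.Helper29S
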